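import Pool.Agent.Lib.OC93.Fin2
import Pool.Agent.Lib.MP_973905_nt.PrimeSum

set_option autoImplicit false

/-!
Asymptotic facts needed for the assembly.
-/

namespace Pool.Agent.Lib.OC93

open Finset Filter Topology Pool.Agent.Lib.MP_ba437d_nt Pool.Agent.Lib.MP_973905_nt

theorem pow_big (t : ℝ) (ht : 0 < t) (Y : ℝ) : ∀ᶠ x : ℕ in atTop, Y ≤ (x : ℝ) ^ t :=
  ((tendsto_rpow_atTop ht).comp tendsto_natCast_atTop_atTop).eventually_ge_atTop Y

theorem log_small (s A ι : ℝ) (hs : 0 < s) (hι : 0 < ι) :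
    ∀ᶠ x : ℕ in atTop, A * (Real.log x + 1) * (x : ℝ) ^ (-s) ≤ ι := by
  have h1 : Tendsto (fun x : ℝ => Real.log x / x ^ s) atTop (nhds 0) :=
    (isLittleO_log_rpow_atTop hs).tendsto_div_nhds_zero
  have h2 : Tendsto (fun x : ℝ => x ^ (-s)) atTop (nhds 0) := tendsto_rpow_neg_atTop hs
  have h3 : Tendsto (fun x : ℝ => A * (Real.log x / x ^ s + x ^ (-s))) atTop (nhds (A * (0 + 0))) :=
    (h1.add h2).const_mul A
  rw [add_zero, mul_zero] at h3
  have h4 := (h3.comp tendsto_natCast_atTop_atTop).eventually_le_const hι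
  filter_upwards [h4, eventually_ge_atTop 1] with x hx hx1
  have hx0 : (0 : ℝ) < x := by exact_mod_cast hx1
  have e : A * (Real.log x + 1) * (x : ℝ) ^ (-s) = A * (Real.log x / (x : ℝ) ^ s + (x : ℝ) ^ (-s)) := by
    rw [Real.rpow_neg hx0.le]
    ring
  rw [e]
  exact hx

/-- the primes of `G` -/
noncomputable def GG (P : Finset ℕ) (y : ℝ) : Finset ℕ := PS y (y ^ 2) \ P

theorem mem_PS {y z : ℝ} {q : ℕ} (hy : 0 ≤ y) (hz : 0 ≤ z) (h : q ∈ PS y z) :
    q.Prime ∧ y < (q : ℝ) ∧ (q : ℝ) ≤ z := by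
  unfold PS at h
  rw [mem_filter, mem_Ioc] at h
  refine ⟨h.2, (Nat.floor_lt hy).1 h.1.1, ?_⟩
  exact (Nat.le_floor_iff hz).1 h.1.2

theorem mem_GG {P : Finset ℕ} {y : ℝ} (hy : 0 ≤ y) {q : ℕ} (h : q ∈ GG P y) :
    q.Prime ∧ y < (q : ℝ) ∧ (q : ℝ) ≤ y ^ 2 ∧ q ∉ P := by
  unfold GG at h
  rw [Finset.mem_sdiff] at h
  obtain ⟨h1, h2, h3⟩ := mem_PS hy (by positivity) h.1
  exact ⟨h1, h2, h3, h.2⟩

/-- Mertens -/
theorem GG_mass : ∃ Y : ℝ, ∀ y : ℝ, Y ≤ y → ∀ (P : Finset ℕ) (η : ℝ),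
    (∑ p ∈ PS y (y ^ 2) ∩ P, 1 / (p : ℝ)) ≤ η → η ≤ 1 / 10 →
    1 / 2 ≤ ∑ q ∈ GG P y, 1 / (q : ℝ) ∧ ∑ q ∈ GG P y, 1 / (q : ℝ) ≤ 1 := by
  classical
  obtain ⟨C, hC0, hC⟩ := Pool.Agent.Lib.MP_973905_nt.sum_inv_range
  refine ⟨max 2 (Real.exp (20 * C)), fun y hy P η hη hη1 => ?_⟩
  have hy2 : 2 ≤ y := (le_max_left _ _).trans hy
  have hy0 : 0 < y := by linarith
  have hyl : 20 * C ≤ Real.log y := by
    rw [Real.le_log_iff_exp_le hy0]
    exact (le_max_right _ _).trans hy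
  have hl0 : 0 < Real.log y := Real.log_pos (by linarith)
  have h1 := hC y (y ^ 2) hy2 (by nlinarith)
  have e1 : Real.log (y ^ 2) / Real.log y = 2 := by
    rw [Real.log_pow]
    push_cast
    field_simp
  rw [e1] at h1
  have h2 : C / Real.log y ≤ 1 / 20 := by
    rw [div_le_iff₀ hl0]
    linarith
  obtain ⟨h3, h4⟩ := abs_le.1 h1
  have l1 := Real.log_two_gt_d9
  have l2 := Real.log_two_lt_d9
  have e2 : ∑ q ∈ GG P y, 1 / (q : ℝ) = ∑ p ∈ PS y (y ^ 2), 1 / (p : ℝ) -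
      ∑ p ∈ PS y (y ^ 2) ∩ P, 1 / (p : ℝ) := by
    unfold GG
    have := sum_inter_add_sum_sdiff (PS y (y ^ 2)) P (fun p => 1 / (p : ℝ))
    linarith
  have h5 : 0 ≤ ∑ p ∈ PS y (y ^ 2) ∩ P, 1 / (p : ℝ) := sum_nonneg fun _ _ => by positivity
  rw [e2]
  constructor <;> linarith

/-- the number of blocks -/
theorem blocks (ρ : ℝ) (hρ : 1 < ρ) (x : ℕ) :
    ∀ i : ℕ, ρ ^ i ≤ (x : ℝ) → i < ⌊Real.log x / Real.log ρ⌋₊ + 1 := by
  intro i hi
  have hρ0 : 0 < ρ := by linarith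
  have hl : 0 < Real.log ρ := Real.log_pos hρ
  have h1 : (i : ℝ) * Real.log ρ ≤ Real.log x := by
    rw [← Real.log_pow]
    exact Real.log_le_log (by positivity) hi
  have h2 : (i : ℝ) ≤ Real.log x / Real.log ρ := by
    rw [le_div_iff₀ hl]
    exact h1
  exact Nat.lt_succ_of_le (Nat.le_floor h2)

/-- removing the primes of small mass -/
theorem unc_remove (x : ℕ) (a : ℕ → ℤ) (N : ℤ) (P : Finset ℕ) (hP : ∀ p ∈ P, p.Prime ∧ p ≤ x)
    (Q κ₂ : ℝ) (hm : ∑ p ∈ fR P a N Q x, 1 / (p : ℝ) ≤ κ₂) :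
    ((unc x a (fP P a N Q)).card : ℝ) - 2 * κ₂ * x ≤ ((unc x a P).card : ℝ) := by
  classical
  have h1 : unc x a (fP P a N Q) ⊆ unc x a P ∪ (fR P a N Q x).biUnion (fun p => cl x a {p}) := by
    intro n hn
    unfold unc at hn
    rw [mem_filter] at hn
    rw [mem_union, mem_biUnion]
    by_cases h : ∀ p ∈ P, ¬ (n : ℤ) ≡ a p [ZMOD (p : ℤ)]
    · left
      unfold unc
      rw [mem_filter]
      exact ⟨hn.1, h⟩
    · right
      push Not at h
      obtain ⟨p, hp, hpn⟩ := h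
      refine ⟨p, ?_, ?_⟩
      · rw [fR, mem_filter]
        have h2 : p ∉ fP P a N Q := fun h' => hn.2 p h' hpn
        rw [fP, mem_filter] at h2
        push Not at h2
        obtain ⟨h3, h4⟩ := h2 hp
        exact ⟨hp, ⟨h3, by exact_mod_cast (hP p hp).2⟩, h4⟩
      · unfold cl
        rw [mem_filter]
        refine ⟨hn.1, ?_⟩
        intro p' hp'
        rw [mem_singleton] at hp'
        rw [hp']
        exact hpn
  have h2 := card_le_card h1
  have h3 : ((fR P a N Q x).biUnion (fun p => cl x a {p})).card ≤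
      ∑ p ∈ fR P a N Q x, (cl x a {p}).card := card_biUnion_le
  have h4 : (((fR P a N Q x).biUnion (fun p => cl x a {p})).card : ℝ) ≤ 2 * κ₂ * x := by
    calc (((fR P a N Q x).biUnion (fun p => cl x a {p})).card : ℝ) ≤
        ∑ p ∈ fR P a N Q x, ((cl x a {p}).card : ℝ) := by exact_mod_cast h3
      _ ≤ ∑ p ∈ fR P a N Q x, 2 * x * (1 / (p : ℝ)) := by
          refine sum_le_sum fun p hp => ?_
          rw [fR, mem_filter] at hp
          obtain ⟨hpp, hpx⟩ := hP p hp.1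
          have hp0 : (0 : ℝ) < p := by exact_mod_cast hpp.pos
          have h5 := (abs_le.1 (cl_card x a {p} (fun p' h' => by
            rw [mem_singleton] at h'
            rw [h']
            exact hpp))).2
          have h6 : W ({p} : Finset ℕ) = 1 / (p : ℝ) := by unfold W; simp
          rw [h6] at h5
          have h7 : (1 : ℝ) ≤ x * (1 / (p : ℝ)) := by
            rw [mul_one_div, le_div_iff₀ hp0, one_mul]
            exact_mod_cast hpx
          linarith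
      _ = 2 * x * ∑ p ∈ fR P a N Q x, 1 / (p : ℝ) := by rw [mul_sum]
      _ ≤ 2 * x * κ₂ := mul_le_mul_of_nonneg_left hm (by positivity)
      _ = _ := by ring
  have h5 := card_union_le (unc x a P) ((fR P a N Q x).biUnion (fun p => cl x a {p}))
  have h6 : ((unc x a (fP P a N Q)).card : ℝ) ≤ ((unc x a P).card : ℝ) +
      (((fR P a N Q x).biUnion (fun p => cl x a {p})).card : ℝ) := by
    exact_mod_cast h2.trans h5
  linarith

end Pool.Agent.Lib.OC93
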