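import Pool.Agent.Lib.OC93.Asy1

set_option autoImplicit false

/-!
The theorem at one scale.
-/

namespace Pool.Agent.Lib.OC93

open Finset Filter Topology Pool.Agent.Lib.MP_ba437d_nt Pool.Agent.Lib.MP_973905_nt

/-- the parameters -/
structure Par (K C δ θ η : ℝ) (r : ℕ) : Prop where
  hK : 1 ≤ K
  hC : 1 ≤ C
  hδ : 0 < δ
  hδ1 : δ ≤ 1 / 8
  hr : Even r
  hτ : tau K r ≤ Real.exp (-(Real.log 4 * K)) * δ / 16
  hθ : θ = Real.exp (-(Real.log 4 * K)) * δ / 16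
  hη : η = Real.exp (-(Real.log 4 * K)) * δ / (8 * (16 * (C + 1) + 7))

theorem exists_par (K C δ : ℝ) (hK : 1 ≤ K) (hC : 1 ≤ C) (hδ : 0 < δ) (hδ1 : δ ≤ 1 / 8) :
    ∃ (θ η : ℝ) (r : ℕ), Par K C δ θ η r := by
  have h0 : 0 < Real.exp (-(Real.log 4 * K)) * δ / 16 := by positivity
  have h1 := (tau_tendsto K).eventually_le_const h0
  obtain ⟨r₀, hr₀⟩ := eventually_atTop.1 h1
  exact ⟨_, _, 2 * r₀, hK, hC, hδ, hδ1, even_two_mul r₀, hr₀ (2 * r₀) (by omega), rfl, rfl⟩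

theorem Par.eta_le {K C δ θ η : ℝ} {r : ℕ} (h : Par K C δ θ η r) : 0 < η ∧ η ≤ 1 / 10 := by
  have hv0 : 0 < Real.exp (-(Real.log 4 * K)) := Real.exp_pos _
  have hv1 : Real.exp (-(Real.log 4 * K)) ≤ 1 := by
    rw [Real.exp_le_one_iff]
    have h1 : 0 ≤ Real.log 4 := Real.log_nonneg (by norm_num)
    have := h.hK
    nlinarith
  have hC := h.hC
  have hδ := h.hδ
  rw [h.hη]
  constructor
  · positivity
  · rw [div_le_iff₀ (by positivity)]
    have h2 : Real.exp (-(Real.log 4 * K)) * δ ≤ 1 * (1 / 8) :=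
      mul_le_mul hv1 h.hδ1 hδ.le (by norm_num)
    nlinarith

/-- the window of `w` -/
theorem win_mass (x : ℕ) (y : ℝ) (k : ℕ) (G : Finset ℕ) (hy : 2 ≤ y)
    (hG : ∀ q ∈ G, q.Prime ∧ y < (q : ℝ) ∧ (q : ℝ) ≤ y ^ 2) (h8 : y ^ 8 ≤ x)
    (hk : (x : ℝ) < y ^ (k + 1)) (hg0 : 1 / 2 ≤ ∑ q ∈ G, 1 / (q : ℝ))
    (hg1 : ∑ q ∈ G, 1 / (q : ℝ) ≤ 1) :
    ((1 / 2 : ℝ) / 2 ^ k) ^ (k + 1) ≤ ∑ w ∈ win G (y ^ 2) (x / y ^ 8), 1 / (w : ℝ) := by
  classical
  have hy0 : 0 < y := by linarith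
  have hy1 : 1 ≤ y := by linarith
  have hx0 : (0 : ℝ) < x := lt_of_lt_of_le (by positivity) h8
  have h1 := win_sum G (y ^ 2) y (fun q hq => hG q hq) (by nlinarith) hy1 (2 ^ k)
    (Nat.one_le_two_pow) (x : ℝ) (by
      intro w hw hwx
      have h2 := card_smooth G y (fun q hq => ⟨(hG q hq).1, (hG q hq).2.1.le⟩) hy1 k w hw
        (lt_of_le_of_lt hwx hk)
      refine le_trans (card_le_card ?_) h2
      intro q hq
      rw [mem_filter] at hq ⊢
      rw [Nat.mem_divisors, (hG q hq.1).1.primeFactors]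
      exact ⟨⟨hq.2, hw.ne'⟩, singleton_subset_iff.2 hq.1⟩) hg1 (k + 1) (x / y ^ 8) (by
      have h3 : (1 : ℝ) ≤ x / y ^ 8 := by
        rw [le_div_iff₀ (by positivity), one_mul]
        exact h8
      have h4 : 1 / y ^ 2 ≤ 1 := by
        rw [div_le_one (by positivity)]
        nlinarith
      linarith) (by
      refine lt_of_le_of_lt ?_ hk
      apply div_le_self hx0.le
      exact one_le_pow₀ hy1) (by
      have e : (x : ℝ) / y ^ 8 * y ^ 2 = x / y ^ 6 := by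
        field_simp
      rw [e]
      apply div_le_self hx0.le
      exact one_le_pow₀ hy1)
  refine le_trans ?_ h1
  push_cast
  apply pow_le_pow_left₀ (by positivity)
  exact div_le_div_of_nonneg_right hg0 (by positivity)

theorem Par.kap {K C δ θ η : ℝ} {r : ℕ} (h : Par K C δ θ η r) (V : ℝ)
    (hV : Real.exp (-(Real.log 4 * K)) ≤ V) :
    Real.exp (-(Real.log 4 * K)) * δ / 2 ≤ V - 2 * tau K r - θ - (16 * (C + 1) + 7) * η -
        (1 - δ) * (V + tau K r + θ) := by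
  have hC := h.hC
  have hδ := h.hδ
  have hδ1 := h.hδ1
  have hτ := h.hτ
  have hθ := h.hθ
  have hη := h.hη
  have hK0 : 0 ≤ K := by linarith [h.hK]
  have hv0 : 0 < Real.exp (-(Real.log 4 * K)) := Real.exp_pos _
  generalize Real.exp (-(Real.log 4 * K)) = v at *
  have h1 : (16 * (C + 1) + 7) * η = v * δ / 8 := by
    rw [hη]
    have : 16 * (C + 1) + 7 ≠ 0 := by positivity
    field_simp
  have h2 : v * δ ≤ V * δ := mul_le_mul_of_nonneg_right hV hδ.le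
  have h3 : 0 ≤ tau K r := tau_nonneg hK0 r
  have hθ0 : 0 < θ := by rw [hθ]; positivity
  have h4 : (1 - δ) * (tau K r + θ) ≤ tau K r + θ := by nlinarith
  have e : V - 2 * tau K r - θ - v * δ / 8 - (1 - δ) * (V + tau K r + θ) =
    V * δ - 2 * tau K r - θ - v * δ / 8 - (1 - δ) * (tau K r + θ) := by ring
  rw [h1, e]
  linarith

/-- the numerical facts at `x` -/
structure NX (C δ θ YM : ℝ) (r k x : ℕ) (Z y Q : ℝ) : Prop where
  hx64 : 64 ≤ x
  hZ1 : 1 ≤ Z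
  hZy : Z ≤ y
  hy2 : 2 ≤ y
  hyM : YM ≤ y
  hy8Q : y ^ 8 ≤ Q
  hy8x : y ^ 8 ≤ x
  hn1 : y ^ 2 ≤ (x : ℝ) / 64
  hn2 : (r + 3) * Z ^ (r + 1) ≤ θ * (1 / 16 * y ^ 4)
  hn3 : y ^ 3 ≤ 1 / 16 * y ^ 4
  hn4 : 32 * (C + 1) * y ^ 7 < y ^ 8
  hn6 : Q ^ 2 ≤ 1 / 16 * (x : ℝ) / y ^ 2
  hn7 : (16 * (C + 1) + C + 2) * (x : ℝ) < y ^ (k + 1)

theorem nx (C δ s θ YM : ℝ) (r k : ℕ) (hC : 1 ≤ C) (hδ1 : δ ≤ 1 / 8) (hs : 0 < s)
    (hθ : 0 < θ) (hsδ : 8 * (r + 1) * s ≤ δ / 16) (hk : 2 ≤ 8 * (r + 1) * s * (k + 1)) :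
    ∀ᶠ x : ℕ in atTop, NX C δ θ YM r k x ((x : ℝ) ^ s) ((x : ℝ) ^ (8 * (r + 1) * s))
      ((x : ℝ) ^ (1 / 2 - δ)) := by
  set t : ℝ := 8 * (r + 1) * s with ht
  have ht0 : 0 < t := by positivity
  filter_upwards [eventually_ge_atTop 64, pow_big t ht0 2, pow_big t ht0 16,
    pow_big t ht0 (32 * (C + 1) + 1), pow_big t ht0 (16 * (r + 3) / θ), pow_big t ht0 YM,
    pow_big (1 - 2 * t) (by linarith) 64, pow_big (2 * δ - 2 * t) (by linarith) 16,
    pow_big 1 one_pos (16 * (C + 1) + C + 3)] with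
    x hx64 hy2 hy16 hyC hyθ hyM hx1 hx2 hx3
  have hx64' : (64 : ℝ) ≤ x := by exact_mod_cast hx64
  have hxr : (0 : ℝ) < x := by linarith
  have hxr1 : (1 : ℝ) ≤ x := by linarith
  have hZ1 : 1 ≤ (x : ℝ) ^ s := Real.one_le_rpow hxr1 hs.le
  have hyZ : (x : ℝ) ^ t = ((x : ℝ) ^ s) ^ (8 * (r + 1)) := by
    rw [← Real.rpow_natCast, ← Real.rpow_mul hxr.le]
    congr 1
    rw [ht]
    push_cast
    ring
  have hZy : (x : ℝ) ^ s ≤ (x : ℝ) ^ t := by
    rw [hyZ]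
    calc (x : ℝ) ^ s = ((x : ℝ) ^ s) ^ 1 := (pow_one _).symm
      _ ≤ _ := pow_le_pow_right₀ hZ1 (by omega)
  have hZr : ((x : ℝ) ^ s) ^ (r + 1) ≤ (x : ℝ) ^ t := by
    rw [hyZ]
    exact pow_le_pow_right₀ hZ1 (by omega)
  have hypow : ∀ n : ℕ, ((x : ℝ) ^ t) ^ n = (x : ℝ) ^ (t * n) := by
    intro n
    rw [← Real.rpow_natCast, ← Real.rpow_mul hxr.le]
  have hy8Q : ((x : ℝ) ^ t) ^ 8 ≤ (x : ℝ) ^ (1 / 2 - δ) := by
    rw [hypow 8]
    apply Real.rpow_le_rpow_of_exponent_le hxr1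
    push_cast
    linarith
  have hQx : (x : ℝ) ^ (1 / 2 - δ) ≤ x := by
    calc (x : ℝ) ^ (1 / 2 - δ) ≤ (x : ℝ) ^ (1 : ℝ) :=
          Real.rpow_le_rpow_of_exponent_le hxr1 (by linarith)
      _ = x := Real.rpow_one _
  have hn1 : ((x : ℝ) ^ t) ^ 2 ≤ (x : ℝ) / 64 := by
    rw [le_div_iff₀ (by norm_num), hypow 2]
    have e : (x : ℝ) = (x : ℝ) ^ (1 - 2 * t) * (x : ℝ) ^ (2 * t) := by
      rw [← Real.rpow_add hxr]
      ring_nf
      rw [Real.rpow_one]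
    calc (x : ℝ) ^ (t * ((2 : ℕ) : ℝ)) * 64 = 64 * (x : ℝ) ^ (2 * t) := by
          push_cast
          rw [mul_comm t 2, mul_comm]
      _ ≤ (x : ℝ) ^ (1 - 2 * t) * (x : ℝ) ^ (2 * t) :=
          mul_le_mul_of_nonneg_right hx1 (by positivity)
      _ = x := e.symm
  have hn6 : ((x : ℝ) ^ (1 / 2 - δ)) ^ 2 ≤ 1 / 16 * (x : ℝ) / ((x : ℝ) ^ t) ^ 2 := by
    rw [le_div_iff₀ (by positivity), hypow 2, ← Real.rpow_natCast, ← Real.rpow_mul hxr.le,
      ← Real.rpow_add hxr]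
    have e : (x : ℝ) = (x : ℝ) ^ (2 * δ - 2 * t) * (x : ℝ) ^ (1 - 2 * δ + 2 * t) := by
      rw [← Real.rpow_add hxr]
      ring_nf
      rw [Real.rpow_one]
    have e2 : (1 / 2 - δ) * ((2 : ℕ) : ℝ) + t * ((2 : ℕ) : ℝ) = 1 - 2 * δ + 2 * t := by
      push_cast
      ring
    rw [e2]
    have : 16 * (x : ℝ) ^ (1 - 2 * δ + 2 * t) ≤ x := by
      calc 16 * (x : ℝ) ^ (1 - 2 * δ + 2 * t) ≤
          (x : ℝ) ^ (2 * δ - 2 * t) * (x : ℝ) ^ (1 - 2 * δ + 2 * t) :=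
            mul_le_mul_of_nonneg_right hx2 (by positivity)
        _ = x := e.symm
    linarith
  have hx2y : (x : ℝ) ^ 2 ≤ ((x : ℝ) ^ t) ^ (k + 1) := by
    rw [hypow (k + 1), ← Real.rpow_natCast]
    apply Real.rpow_le_rpow_of_exponent_le hxr1
    push_cast
    exact hk
  have hn7 : (16 * (C + 1) + C + 2) * (x : ℝ) < ((x : ℝ) ^ t) ^ (k + 1) := by
    refine lt_of_lt_of_le ?_ hx2y
    rw [Real.rpow_one] at hx3
    rw [sq]
    exact mul_lt_mul_of_pos_right (by linarith) hxr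
  generalize (x : ℝ) ^ (1 / 2 - δ) = Q at *
  generalize (x : ℝ) ^ s = Z at *
  generalize (x : ℝ) ^ t = y at *
  have hy0 : 0 < y := by linarith
  have hy1 : 1 ≤ y := by linarith
  exact
    { hx64 := hx64
      hZ1 := hZ1
      hZy := hZy
      hy2 := hy2
      hyM := hyM
      hy8Q := hy8Q
      hy8x := hy8Q.trans hQx
      hn1 := hn1
      hn2 := by
        rw [div_le_iff₀ hθ] at hyθ
        have h1 : ((r : ℝ) + 3) * Z ^ (r + 1) ≤ (r + 3) * y :=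
          mul_le_mul_of_nonneg_left hZr (by positivity)
        have h2 : (r + 3) * y ≤ (y * θ / 16) * y := by
          refine mul_le_mul_of_nonneg_right ?_ hy0.le
          linarith
        have h3 : (y * θ / 16) * y ≤ θ * (1 / 16 * y ^ 4) := by
          have h4 : y ^ 2 ≤ y ^ 4 := pow_le_pow_right₀ hy1 (by norm_num)
          have e : (y * θ / 16) * y = θ * (1 / 16 * y ^ 2) := by ring
          rw [e]
          exact mul_le_mul_of_nonneg_left (mul_le_mul_of_nonneg_left h4 (by norm_num)) hθ.le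
        linarith
      hn3 := by
        have e : 1 / 16 * y ^ 4 = (y / 16) * y ^ 3 := by ring
        rw [e]
        have : 1 ≤ y / 16 := by linarith
        have h3 : 0 ≤ y ^ 3 := by positivity
        nlinarith
      hn4 := by
        have e : y ^ 8 = y * y ^ 7 := by ring
        rw [e]
        exact mul_lt_mul_of_pos_right (by linarith) (by positivity)
      hn6 := hn6
      hn7 := hn7 }

/-- the data at `x` -/
theorem fd {K C δ θ η YM CB : ℝ} {r k x : ℕ} {Z y Q : ℝ} (hp : Par K C δ θ η r)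
    (hn : NX C δ θ YM r k x Z y Q) (hCB : BilC CB)
    (P : Finset ℕ) (a : ℕ → ℤ) (N : ℤ)
    (hP : ∀ p ∈ P, p.Prime) (hPK : ∑ p ∈ P, 1 / (p : ℝ) ≤ K) (hN : |(N : ℝ)| ≤ C * x)
    (hT : ∑ p ∈ fT P Z (y ^ 8), 1 / (p : ℝ) ≤ η)
    (hR : ∑ p ∈ fR P a N Z Q, 1 / (p : ℝ) ≤ 1 - δ) (I : ℕ)
    (hI : ∀ i : ℕ, (1 + 1 / (16 * (C + 1))) ^ i ≤ (x : ℝ) → i < I) :
    FD C CB x N P a Z y Q K θ η (1 - δ) (Real.exp (-(Real.log 4 * K)) * δ / 2) r k I
      (GG P y) (win (GG P y) (y ^ 2) (x / y ^ 8)) := by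
  have hv0 : 0 < Real.exp (-(Real.log 4 * K)) := Real.exp_pos _
  have hv1 : Real.exp (-(Real.log 4 * K)) ≤ 1 := by
    rw [Real.exp_le_one_iff]
    have h1 : 0 ≤ Real.log 4 := Real.log_nonneg (by norm_num)
    have := hp.hK
    nlinarith
  have hVge : Real.exp (-(Real.log 4 * K)) ≤ ∏ p ∈ fP₀ P Z, (1 - 1 / (p : ℝ)) := by
    apply prod_ge
    · intro p hpp
      rw [fP₀, mem_filter] at hpp
      exact hP p hpp.1
    · refine le_trans ?_ hPK
      exact sum_le_sum_of_subset_of_nonneg (filter_subset _ _) fun _ _ _ => by positivity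
  have hkap := hp.kap _ hVge
  have hη := hp.eta_le
  have hy0 : 0 < y := by linarith [hn.hy2]
  have hy1 : 1 ≤ y := by linarith [hn.hy2]
  have hδ := hp.hδ
  have hδ1 := hp.hδ1
  have hτ := hp.hτ
  have hθd := hp.hθ
  generalize Real.exp (-(Real.log 4 * K)) = v at *
  have hvδ : v * δ ≤ v * (1 / 8) := mul_le_mul_of_nonneg_left hδ1 hv0.le
  have hθ0 : 0 < θ := by rw [hθd]; positivity
  have hθ1 : θ ≤ 1 := by rw [hθd]; linarith
  exact
    { hC := hp.hC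
      hCB := hCB
      hx := hn.hx64
      hN := hN
      hP := hP
      hr := hp.hr
      hZ := hn.hZ1
      hyZ := hn.hZy
      hy := hn.hy2
      hG := fun q hq => mem_GG hy0.le hq
      hW := by
        intro w hw
        rw [mem_win (by positivity)] at hw
        obtain ⟨h1, h2, h3, h4⟩ := hw
        refine ⟨h1, h4, h2.le, ?_⟩
        have e : (x : ℝ) / y ^ 8 * y ^ 2 = x / y ^ 6 := by
          field_simp
        rw [← e]
        exact h3
      n1 := hn.hn1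
      n2 := hn.hn2
      n3 := hn.hn3
      n4 := hn.hn4
      n5 := hn.hy8Q
      n6 := hn.hn6
      n7 := hn.hn7
      n8 := hI
      hθ0 := hθ0.le
      hθ1 := hθ1
      hK := hPK
      hV := by linarith
      hη := hT
      hηK := by linarith [hp.hK, hη.2]
      hmR := by
        refine le_trans (sum_le_sum_of_subset_of_nonneg ?_ fun _ _ _ => by positivity) hR
        intro p hpp
        rw [fR, mem_filter] at hpp ⊢
        refine ⟨hpp.1, ⟨?_, hpp.2.1.2⟩, hpp.2.2⟩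
        have h1 : y ≤ y ^ 8 := by
          calc y = y ^ 1 := (pow_one y).symm
            _ ≤ _ := pow_le_pow_right₀ hy1 (by norm_num)
        linarith [hpp.2.1.1, hn.hZy]
      hmRK := by linarith [hp.hK]
      hκ := hkap
      hκ0 := by positivity }

end Pool.Agent.Lib.OC93
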