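import Pool.Agent.Lib.OC93.Asy2

set_option autoImplicit false

/-!
The theorem at one scale.
-/

namespace Pool.Agent.Lib.OC93

open Finset Filter Topology Pool.Agent.Lib.MP_ba437d_nt Pool.Agent.Lib.MP_973905_nt

/-- the error term -/
theorem err (K CB C s ι : ℝ) (r k : ℕ) (hK : 0 ≤ K) (hCB : 0 ≤ CB) (hC : 1 ≤ C) (hs : 0 < s)
    (hι : 0 < ι) :
    ∀ᶠ x : ℕ in atTop,
      ((⌊Real.log x / Real.log (1 + 1 / (16 * (C + 1)))⌋₊ + 1 : ℕ) : ℝ) *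
        Er CB x ((x : ℝ) ^ s) ((x : ℝ) ^ (8 * (r + 1) * s)) K r k ≤ ι * x := by
  have hC1 : 0 < C + 1 := by linarith
  set ρ : ℝ := 1 + 1 / (16 * (C + 1)) with hρ
  have hρ1 : 1 < ρ := by
    rw [hρ]
    have : 0 < 1 / (16 * (C + 1)) := by positivity
    linarith
  have hlρ : 0 < Real.log ρ := Real.log_pos hρ1
  set B : ℝ := (r + 2) * Real.sqrt (8 * CB * K * 4 ^ k) with hB
  have hB0 : 0 ≤ B := by positivity
  filter_upwards [eventually_ge_atTop 1, log_small (4 * s) ((1 / Real.log ρ + 1) * B) ι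
    (by positivity) hι] with x hx hx4
  have hxr1 : (1 : ℝ) ≤ x := by exact_mod_cast hx
  have hxr : (0 : ℝ) < x := by linarith
  have hlx : 0 ≤ Real.log x := Real.log_nonneg hxr1
  have f1 : ((⌊Real.log x / Real.log ρ⌋₊ + 1 : ℕ) : ℝ) ≤
      (1 / Real.log ρ + 1) * (Real.log x + 1) := by
    push_cast
    have g1 : (⌊Real.log x / Real.log ρ⌋₊ : ℝ) ≤ Real.log x / Real.log ρ :=
      Nat.floor_le (by positivity)
    have g2 : 0 < 1 / Real.log ρ := by positivity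
    have g3 : Real.log x / Real.log ρ = 1 / Real.log ρ * Real.log x := by ring
    nlinarith
  have f2 : Er CB x ((x : ℝ) ^ s) ((x : ℝ) ^ (8 * (r + 1) * s)) K r k ≤
      B * (x : ℝ) ^ (-(4 * s)) * x := by
    unfold Er
    have g1 : Real.sqrt (8 * CB * K * 4 ^ k / (x : ℝ) ^ (8 * (r + 1) * s)) =
        Real.sqrt (8 * CB * K * 4 ^ k) * (x : ℝ) ^ (-(4 * (r + 1) * s)) := by
      rw [Real.sqrt_div (by positivity), Real.rpow_neg hxr.le, ← div_eq_mul_inv]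
      congr 1
      rw [Real.sqrt_eq_rpow, ← Real.rpow_mul hxr.le]
      congr 1
      ring
    have g2 : ((x : ℝ) ^ s) ^ (2 * r) = (x : ℝ) ^ (2 * r * s) := by
      rw [← Real.rpow_natCast, ← Real.rpow_mul hxr.le]
      congr 1
      push_cast
      ring
    rw [g1, g2]
    have g3 : (x : ℝ) ^ (2 * r * s) * (x : ℝ) ^ (-(4 * (r + 1) * s)) ≤ (x : ℝ) ^ (-(4 * s)) := by
      rw [← Real.rpow_add hxr]
      apply Real.rpow_le_rpow_of_exponent_le hxr1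
      have : (0 : ℝ) ≤ r * s := by positivity
      nlinarith
    calc ((r : ℝ) + 2) * (x : ℝ) ^ (2 * r * s) * (x * (Real.sqrt (8 * CB * K * 4 ^ k) *
          (x : ℝ) ^ (-(4 * (r + 1) * s)))) = B *
          ((x : ℝ) ^ (2 * r * s) * (x : ℝ) ^ (-(4 * (r + 1) * s))) * x := by rw [hB]; ring
      _ ≤ _ := mul_le_mul_of_nonneg_right (mul_le_mul_of_nonneg_left g3 hB0) hxr.le
  have f3 : 0 ≤ Er CB x ((x : ℝ) ^ s) ((x : ℝ) ^ (8 * (r + 1) * s)) K r k := by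
    unfold Er
    positivity
  calc ((⌊Real.log x / Real.log ρ⌋₊ + 1 : ℕ) : ℝ) *
        Er CB x ((x : ℝ) ^ s) ((x : ℝ) ^ (8 * (r + 1) * s)) K r k ≤
      ((1 / Real.log ρ + 1) * (Real.log x + 1)) * (B * (x : ℝ) ^ (-(4 * s)) * x) :=
        mul_le_mul f1 f2 f3 (by positivity)
    _ = ((1 / Real.log ρ + 1) * B * (Real.log x + 1) * (x : ℝ) ^ (-(4 * s))) * x := by ring
    _ ≤ ι * x := mul_le_mul_of_nonneg_right hx4 hxr.le

/-- the conclusion from the finite form -/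
theorem concl {K C δ θ η YM CB ι : ℝ} {r k x : ℕ} {Z y Q : ℝ} (hp : Par K C δ θ η r)
    (hn : NX C δ θ YM r k x Z y Q) (hCB : BilC CB)
    (hYM : ∀ y : ℝ, YM ≤ y → ∀ (P : Finset ℕ) (η : ℝ),
      (∑ p ∈ PS y (y ^ 2) ∩ P, 1 / (p : ℝ)) ≤ η → η ≤ 1 / 10 →
      1 / 2 ≤ ∑ q ∈ GG P y, 1 / (q : ℝ) ∧ ∑ q ∈ GG P y, 1 / (q : ℝ) ≤ 1)
    (P : Finset ℕ) (a : ℕ → ℤ) (N : ℤ)
    (hP : ∀ p ∈ P, p.Prime ∧ p ≤ x) (hPK : ∑ p ∈ P, 1 / (p : ℝ) ≤ K) (hN : |(N : ℝ)| ≤ C * x)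
    (hT : ∑ p ∈ fT P Z (y ^ 8), 1 / (p : ℝ) ≤ η)
    (hR : ∑ p ∈ fR P a N Z Q, 1 / (p : ℝ) ≤ 1 - δ)
    (hι : 2 * ι = Real.exp (-(Real.log 4 * K)) * δ / 2 * (1 / 16) * (1 / 2) *
      ((1 / 2 : ℝ) / 2 ^ k) ^ (k + 1))
    (hE : ((⌊Real.log x / Real.log (1 + 1 / (16 * (C + 1)))⌋₊ + 1 : ℕ) : ℝ) *
        Er CB x Z y K r k ≤ ι * x)
    (hR2 : ∑ p ∈ fR P a N Q x, 1 / (p : ℝ) ≤ ι / 4 ^ k / 4) :
    ι / 4 ^ k / 2 * x ≤ ((unc x a P).card : ℝ) := by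
  classical
  have hC1 : 0 < C + 1 := by linarith [hp.hC]
  have hy0 : 0 < y := by linarith [hn.hy2]
  have hy1 : 1 ≤ y := by linarith [hn.hy2]
  have hρ1 : 1 < 1 + 1 / (16 * (C + 1)) := by
    have : 0 < 1 / (16 * (C + 1)) := by positivity
    linarith
  have hv0 : 0 < Real.exp (-(Real.log 4 * K)) := Real.exp_pos _
  have hδ := hp.hδ
  have h1 := (fd hp hn hCB P a N (fun p hpp => (hP p hpp).1) hPK hN hT hR
    (⌊Real.log x / Real.log (1 + 1 / (16 * (C + 1)))⌋₊ + 1) (blocks _ hρ1 x)).fin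
  have hsub : PS y (y ^ 2) ∩ P ⊆ fT P Z (y ^ 8) := by
    intro q hq
    rw [mem_inter] at hq
    obtain ⟨h1, h2, h3⟩ := mem_PS hy0.le (by positivity) hq.1
    rw [fT, mem_filter]
    refine ⟨hq.2, lt_of_le_of_lt hn.hZy h2, h3.trans ?_⟩
    exact pow_le_pow_right₀ hy1 (by norm_num)
  have hG := hYM y hn.hyM P η (le_trans (sum_le_sum_of_subset_of_nonneg hsub
    fun _ _ _ => by positivity) hT) hp.eta_le.2
  have hxy : (x : ℝ) < y ^ (k + 1) := by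
    refine lt_of_le_of_lt ?_ hn.hn7
    have := hp.hC
    have hx0 : (0 : ℝ) ≤ x := by positivity
    nlinarith
  have hwin := win_mass x y k (GG P y) hn.hy2 (fun q hq => by
    obtain ⟨h1, h2, h3, _⟩ := mem_GG hy0.le hq
    exact ⟨h1, h2, h3⟩) hn.hy8x hxy hG.1 hG.2
  have hlow : 2 * ι * x ≤ Real.exp (-(Real.log 4 * K)) * δ / 2 * (1 / 16 * x) *
      (∑ q ∈ GG P y, 1 / (q : ℝ)) * (∑ w ∈ win (GG P y) (y ^ 2) (x / y ^ 8), 1 / (w : ℝ)) := by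
    have e : 2 * ι * x = Real.exp (-(Real.log 4 * K)) * δ / 2 * (1 / 16 * x) * (1 / 2) *
        ((1 / 2 : ℝ) / 2 ^ k) ^ (k + 1) := by
      rw [hι]
      ring
    rw [e]
    have g1 : (0 : ℝ) ≤ ∑ q ∈ GG P y, 1 / (q : ℝ) := by linarith [hG.1]
    exact mul_le_mul (mul_le_mul_of_nonneg_left hG.1 (by positivity)) hwin (by positivity)
      (by positivity)
  have h5 : ι / 4 ^ k * x ≤ ((unc x a (fP P a N Q)).card : ℝ) := by
    have h6 : ι * x ≤ 4 ^ k * ((unc x a (fP P a N Q)).card : ℝ) := by linarith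
    rw [div_mul_eq_mul_div, div_le_iff₀ (by positivity)]
    linarith
  have h6 := unc_remove x a N P hP Q (ι / 4 ^ k / 4) hR2
  linarith

/-- The theorem at one scale. -/
theorem core {K C δ θ η : ℝ} {r : ℕ} (hp : Par K C δ θ η r) (s : ℝ) (hs : 0 < s)
    (hsδ : 8 * (r + 1) * s ≤ δ / 16) :
    ∃ c κ₂ : ℝ, 0 < c ∧ 0 < κ₂ ∧ ∀ᶠ x : ℕ in atTop, ∀ (P : Finset ℕ) (a : ℕ → ℤ) (N : ℤ),
      (∀ p ∈ P, p.Prime ∧ p ≤ x) → ∑ p ∈ P, 1 / (p : ℝ) ≤ K → |(N : ℝ)| ≤ C * x →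
      ∑ p ∈ fT P ((x : ℝ) ^ s) ((x : ℝ) ^ (64 * (r + 1) * s)), 1 / (p : ℝ) ≤ η →
      ∑ p ∈ fR P a N ((x : ℝ) ^ s) ((x : ℝ) ^ (1 / 2 - δ)), 1 / (p : ℝ) ≤ 1 - δ →
      ∑ p ∈ fR P a N ((x : ℝ) ^ (1 / 2 - δ)) x, 1 / (p : ℝ) ≤ κ₂ →
      c * x ≤ ((unc x a P).card : ℝ) := by
  obtain ⟨CB, hCB⟩ := exists_bilC
  obtain ⟨YM, hYM⟩ := GG_mass
  have hK0 : 0 ≤ K := by linarith [hp.hK]
  have hδ := hp.hδ
  have hv0 : 0 < Real.exp (-(Real.log 4 * K)) := Real.exp_pos _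
  have ht0 : 0 < 8 * ((r : ℝ) + 1) * s := by positivity
  have hθ0 : 0 < θ := by rw [hp.hθ]; positivity
  obtain ⟨k, hk⟩ : ∃ k : ℕ, 2 ≤ 8 * ((r : ℝ) + 1) * s * (k + 1) := by
    obtain ⟨k, hk⟩ := exists_nat_gt (2 / (8 * ((r : ℝ) + 1) * s))
    refine ⟨k, ?_⟩
    rw [div_lt_iff₀ ht0] at hk
    nlinarith
  obtain ⟨ι, hι⟩ : ∃ ι : ℝ, 2 * ι = Real.exp (-(Real.log 4 * K)) * δ / 2 * (1 / 16) * (1 / 2) *
      ((1 / 2 : ℝ) / 2 ^ k) ^ (k + 1) := ⟨_ / 2, mul_div_cancel₀ _ two_ne_zero⟩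
  have hι0 : 0 < ι := by
    have : 0 < 2 * ι := by rw [hι]; positivity
    linarith
  refine ⟨ι / 4 ^ k / 2, ι / 4 ^ k / 4, by positivity, by positivity, ?_⟩
  filter_upwards [nx C δ s θ YM r k hp.hC hp.hδ1 hs hθ0 hsδ hk,
    err K CB C s ι r k hK0 hCB.1.le hp.hC hs hι0] with x hx1 hx2 P a N hP hPK hN hT hR hR2
  have hy8 : ((x : ℝ) ^ (8 * ((r : ℝ) + 1) * s)) ^ 8 = (x : ℝ) ^ (64 * (r + 1) * s) := by
    rw [← Real.rpow_natCast, ← Real.rpow_mul (by positivity)]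
    congr 1
    push_cast
    ring
  rw [← hy8] at hT
  exact concl hp hx1 hCB hYM P a N hP hPK hN hT hR hι hx2 hR2

end Pool.Agent.Lib.OC93
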