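import Pool.Agent.Lib.OC93.Lsz

set_option autoImplicit false

/-!
The bilinear bound: the sequence `N + σ q v`, `q ∈ G`, `v` in an interval with weights `α`, in
arbitrary residue classes modulo primes larger than all `q ∈ G`, on average over the primes.
-/

namespace Pool.Agent.Lib.OC93

open Finset

theorem card_sol (p : ℕ) (hp : p.Prime) (u c : ℤ) (hu : ¬ (p : ℤ) ∣ u) :
    ((range p).filter (fun r : ℕ => u * r ≡ c [ZMOD (p : ℤ)])).card = 1 := by
  haveI : Fact p.Prime := ⟨hp⟩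
  have hu' : ((u : ℤ) : ZMod p) ≠ 0 := fun h => hu ((ZMod.intCast_zmod_eq_zero_iff_dvd u p).1 h)
  rw [card_eq_one]
  refine ⟨(((c : ℤ) : ZMod p) * ((u : ℤ) : ZMod p)⁻¹).val, ?_⟩
  ext r
  rw [mem_filter, mem_range, mem_singleton, ← ZMod.intCast_eq_intCast_iff]
  push_cast
  constructor
  · rintro ⟨h1, h2⟩
    rw [← h2, mul_comm, ← mul_assoc, inv_mul_cancel₀ hu', one_mul, ZMod.val_cast_of_lt h1]
  · rintro rfl
    refine ⟨ZMod.val_lt _, ?_⟩
    rw [ZMod.natCast_zmod_val, mul_comm, mul_assoc, inv_mul_cancel₀ hu', mul_one]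

/-- the number of `q ∈ G` with `N + σ q v` in the class `b` modulo `p` -/
def FF (G : Finset ℕ) (N σ b : ℤ) (p v : ℕ) : ℕ :=
  (G.filter (fun q : ℕ => N + σ * q * (v : ℤ) ≡ b [ZMOD (p : ℤ)])).card

theorem FF_mod (G : Finset ℕ) (N σ b : ℤ) (p v : ℕ) : FF G N σ b p v = FF G N σ b p (v % p) := by
  unfold FF
  congr 1
  apply filter_congr
  intro q _
  have h1 : ((v : ℤ)) ≡ ((v % p : ℕ) : ℤ) [ZMOD (p : ℤ)] := by
    push_cast
    exact (Int.mod_modEq _ _).symm
  have h2 : N + σ * q * (v : ℤ) ≡ N + σ * q * ((v % p : ℕ) : ℤ) [ZMOD (p : ℤ)] :=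
    (h1.mul_left _).add_left _
  exact ⟨fun h => h2.symm.trans h, fun h => h2.trans h⟩

theorem not_dvd_sq (p q : ℕ) (σ : ℤ) (hσ : σ = 1 ∨ σ = -1) (hq : 0 < q)
    (hqp : q < p) : ¬ (p : ℤ) ∣ σ * q := by
  have h1 : ¬ (p : ℤ) ∣ (q : ℤ) := by
    intro h
    have h2 : p ∣ q := by exact_mod_cast h
    exact absurd (Nat.le_of_dvd hq h2) (by omega)
  rcases hσ with rfl | rfl
  · simpa using h1
  · intro h
    rw [neg_one_mul, dvd_neg] at h
    exact h1 h

theorem FF_sum (G : Finset ℕ) (N σ b : ℤ) (p : ℕ) (hp : p.Prime) (hσ : σ = 1 ∨ σ = -1)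
    (hG : ∀ q ∈ G, 0 < q ∧ q < p) : ∑ r ∈ range p, FF G N σ b p r = G.card := by
  have h1 : ∀ r, FF G N σ b p r =
      ∑ q ∈ G, if (σ * q) * (r : ℤ) ≡ b - N [ZMOD (p : ℤ)] then 1 else 0 := by
    intro r
    unfold FF
    rw [card_filter]
    refine sum_congr rfl fun q _ => ?_
    have h2 : (N + σ * q * (r : ℤ) ≡ b [ZMOD (p : ℤ)]) ↔
        ((σ * q) * (r : ℤ) ≡ b - N [ZMOD (p : ℤ)]) := by
      constructor
      · intro h
        have := h.sub_right N
        rwa [add_sub_cancel_left] at this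
      · intro h
        have := h.add_left N
        rwa [add_sub_cancel] at this
    simp only [h2]
  rw [sum_congr rfl fun r _ => h1 r, sum_comm]
  have h3 : ∀ q ∈ G, ∑ r ∈ range p, (if (σ * q) * (r : ℤ) ≡ b - N [ZMOD (p : ℤ)] then 1 else 0) =
      1 := by
    intro q hq
    rw [← card_filter]
    exact card_sol p hp _ _ (not_dvd_sq p q σ hσ (hG q hq).1 (hG q hq).2)
  rw [sum_congr rfl h3, sum_const, smul_eq_mul, mul_one]

theorem FF_le_one (G : Finset ℕ) (N σ b : ℤ) (p : ℕ) (hp : p.Prime) (hσ : σ = 1 ∨ σ = -1)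
    (hG : ∀ q ∈ G, 0 < q ∧ q < p) (hb : ¬ b ≡ N [ZMOD (p : ℤ)]) (v : ℕ) :
    FF G N σ b p v ≤ 1 := by
  unfold FF
  rw [card_le_one]
  intro q hq q' hq'
  rw [mem_filter] at hq hq'
  have h1 : σ * (q : ℤ) * v ≡ b - N [ZMOD (p : ℤ)] := by
    have := hq.2.sub_right N
    rwa [add_sub_cancel_left] at this
  have h2 : σ * (q' : ℤ) * v ≡ b - N [ZMOD (p : ℤ)] := by
    have := hq'.2.sub_right N
    rwa [add_sub_cancel_left] at this
  have h3 : (p : ℤ) ∣ (σ * (q : ℤ) * v - σ * (q' : ℤ) * v) :=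
    (Int.modEq_iff_dvd.1 (h2.trans h1.symm))
  have e : σ * (q : ℤ) * v - σ * (q' : ℤ) * v = (σ * ((q : ℤ) - q')) * v := by ring
  rw [e] at h3
  have hpp : Prime (p : ℤ) := Nat.prime_iff_prime_int.1 hp
  rcases hpp.dvd_or_dvd h3 with h4 | h4
  · have h5 : (p : ℤ) ∣ ((q : ℤ) - q') := by
      rcases hσ with rfl | rfl
      · simpa using h4
      · rw [neg_one_mul, dvd_neg] at h4
        exact h4
    have h6 := (hG q hq.1).2
    have h7 := (hG q' hq'.1).2
    have h8 : ((q : ℤ) - q') = 0 := by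
      apply Int.eq_zero_of_abs_lt_dvd h5
      rw [abs_lt]
      constructor <;> omega
    omega
  · exfalso
    apply hb
    have h5 : σ * (q : ℤ) * v ≡ 0 [ZMOD (p : ℤ)] :=
      (Int.modEq_zero_iff_dvd).2 (h4.mul_left _)
    have h6 := (h1.symm.trans h5).add_right N
    rwa [sub_add_cancel, zero_add] at h6

/-- The bilinear bound. -/
theorem bil : ∃ C : ℝ, 0 < C ∧ ∀ (S G : Finset ℕ) (Q X A : ℕ) (α : ℕ → ℝ) (a : ℕ → ℤ) (N σ : ℤ)
    (K : ℝ), 1 ≤ X → (∀ p ∈ S, p.Prime ∧ p ≤ Q) → ∑ p ∈ S, 1 / (p : ℝ) ≤ K →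
    (σ = 1 ∨ σ = -1) → (∀ p ∈ S, ∀ q ∈ G, 0 < q ∧ q < p) →
    (∀ p ∈ S, ¬ a p ≡ N [ZMOD (p : ℤ)]) →
    ∑ p ∈ S, |∑ m ∈ range X, α (A + m) * (FF G N σ (a p) p (A + m) : ℝ) -
      ((G.card : ℝ) / p) * ∑ m ∈ range X, α (A + m)| ≤
      Real.sqrt (C * (X + (Q : ℝ) ^ 2) * (K * G.card) * ∑ m ∈ range X, α (A + m) ^ 2) := by
  obtain ⟨C, hC, h⟩ := lsz
  refine ⟨C, hC, fun S G Q X A α a N σ K hX hS hK hσ hG hb => ?_⟩
  set T : ℕ → ℝ := fun p => ∑ m ∈ range X, α (A + m) * (FF G N σ (a p) p (A + m) : ℝ) -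
      ((G.card : ℝ) / p) * ∑ m ∈ range X, α (A + m) with hT
  set e : ℕ → ℝ := fun p => if 0 ≤ T p then 1 else -1 with he
  have he1 : ∀ p, e p * T p = |T p| := by
    intro p
    simp only [he]
    split_ifs with h0
    · rw [one_mul, abs_of_nonneg h0]
    · rw [neg_one_mul, abs_of_neg (not_le.1 h0)]
  have he2 : ∀ p, e p ^ 2 = 1 := by
    intro p
    simp only [he]
    split_ifs <;> norm_num
  set g : ℕ → ℕ → ℝ := fun p v => e p * ((FF G N σ (a p) p v : ℝ) - (G.card : ℝ) / p) with hg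
  have hFs : ∀ p ∈ S, ∑ r ∈ range p, (FF G N σ (a p) p r : ℝ) = G.card := by
    intro p hp
    exact_mod_cast FF_sum G N σ (a p) p (hS p hp).1 hσ (hG p hp)
  have h1 := h S Q X A g hX hS (by
      intro p _ m
      simp only [hg]
      rw [FF_mod]) (by
      intro p hp
      have hp0 : (0 : ℝ) < p := by exact_mod_cast (hS p hp).1.pos
      simp only [hg]
      rw [← mul_sum, sum_sub_distrib, hFs p hp, sum_const, card_range, nsmul_eq_mul,
        mul_div_cancel₀ _ hp0.ne', sub_self, mul_zero])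
  have h2 : ∑ p ∈ S, (1 / (p : ℝ)) * ∑ r ∈ range p, g p r ^ 2 ≤ K * G.card := by
    calc ∑ p ∈ S, (1 / (p : ℝ)) * ∑ r ∈ range p, g p r ^ 2 ≤
        ∑ p ∈ S, (1 / (p : ℝ)) * G.card := by
          refine sum_le_sum fun p hp => mul_le_mul_of_nonneg_left ?_ (by positivity)
          have hp0 : (0 : ℝ) < p := by exact_mod_cast (hS p hp).1.pos
          have h3 : ∀ r, g p r ^ 2 = ((FF G N σ (a p) p r : ℝ) - (G.card : ℝ) / p) ^ 2 := by
            intro r
            simp only [hg]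
            rw [mul_pow, he2, one_mul]
          have h4 : ∀ r, (FF G N σ (a p) p r : ℝ) ^ 2 ≤ (FF G N σ (a p) p r : ℝ) := by
            intro r
            have h5 : (FF G N σ (a p) p r : ℝ) ≤ 1 := by
              exact_mod_cast FF_le_one G N σ (a p) p (hS p hp).1 hσ (hG p hp) (hb p hp) r
            have h6 : (0 : ℝ) ≤ (FF G N σ (a p) p r : ℝ) := by positivity
            nlinarith
          calc ∑ r ∈ range p, g p r ^ 2 =
              ∑ r ∈ range p, ((FF G N σ (a p) p r : ℝ) ^ 2 -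
                2 * ((G.card : ℝ) / p) * (FF G N σ (a p) p r : ℝ) + ((G.card : ℝ) / p) ^ 2) := by
                refine sum_congr rfl fun r _ => ?_
                rw [h3]
                ring
            _ = ∑ r ∈ range p, (FF G N σ (a p) p r : ℝ) ^ 2 -
                2 * ((G.card : ℝ) / p) * G.card + p * ((G.card : ℝ) / p) ^ 2 := by
                rw [sum_add_distrib, sum_sub_distrib, ← mul_sum, hFs p hp, sum_const, card_range,
                  nsmul_eq_mul]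
            _ ≤ ∑ r ∈ range p, (FF G N σ (a p) p r : ℝ) - (G.card : ℝ) ^ 2 / p := by
                have h7 : ∑ r ∈ range p, (FF G N σ (a p) p r : ℝ) ^ 2 ≤
                    ∑ r ∈ range p, (FF G N σ (a p) p r : ℝ) := sum_le_sum fun r _ => h4 r
                have h8 : 2 * ((G.card : ℝ) / p) * G.card - p * ((G.card : ℝ) / p) ^ 2 =
                    (G.card : ℝ) ^ 2 / p := by
                  field_simp
                  ring
                linarith
            _ ≤ G.card := by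
                rw [hFs p hp]
                have : 0 ≤ (G.card : ℝ) ^ 2 / p := by positivity
                linarith
      _ = (∑ p ∈ S, 1 / (p : ℝ)) * G.card := by rw [sum_mul]
      _ ≤ K * G.card := mul_le_mul_of_nonneg_right hK (by positivity)
  have h3 : ∑ p ∈ S, |T p| = ∑ m ∈ range X, α (A + m) * ∑ p ∈ S, g p (A + m) := by
    have h4 : ∀ p, |T p| = ∑ m ∈ range X, α (A + m) * g p (A + m) := by
      intro p
      rw [← he1]
      simp only [hT, hg]
      rw [mul_sum (s := range X) (f := fun m => α (A + m)), ← sum_sub_distrib, mul_sum]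
      exact sum_congr rfl fun m _ => by ring
    rw [sum_congr rfl fun p _ => h4 p, sum_comm]
    exact sum_congr rfl fun m _ => by rw [mul_sum]
  have h5 : (∑ m ∈ range X, α (A + m) * ∑ p ∈ S, g p (A + m)) ^ 2 ≤
      (∑ m ∈ range X, α (A + m) ^ 2) * ∑ m ∈ range X, (∑ p ∈ S, g p (A + m)) ^ 2 :=
    sum_mul_sq_le_sq_mul_sq _ _ _
  have hα : 0 ≤ ∑ m ∈ range X, α (A + m) ^ 2 := sum_nonneg fun _ _ => sq_nonneg _
  have h6 : (∑ m ∈ range X, α (A + m) * ∑ p ∈ S, g p (A + m)) ^ 2 ≤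
      C * (X + (Q : ℝ) ^ 2) * (K * G.card) * ∑ m ∈ range X, α (A + m) ^ 2 := by
    refine h5.trans ?_
    rw [mul_comm]
    refine mul_le_mul_of_nonneg_right (h1.trans ?_) hα
    exact mul_le_mul_of_nonneg_left h2 (by positivity)
  show ∑ p ∈ S, |T p| ≤ _
  rw [h3]
  exact Real.le_sqrt_of_sq_le h6

end Pool.Agent.Lib.OC93
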