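import Pool.Agent.Lib.MP_ba437d_nt.Sieve
import Pool.Agent.Lib.OC93.Bil

set_option autoImplicit false

/-!
One block: the points `N + σ q w m`, sieved by the small primes.
-/

namespace Pool.Agent.Lib.OC93

open Finset Pool.Agent.Lib.MP_ba437d_nt

/-- the point `N + σ q v` -/
def pt (N σ : ℤ) (q v : ℕ) : ℤ := N + σ * q * (v : ℤ)

/-- the number of `w ∈ W` dividing `v` -/
def al (W : Finset ℕ) (v : ℕ) : ℝ := ((W.filter (fun w => w ∣ v)).card : ℝ)

theorem al_nonneg (W : Finset ℕ) (v : ℕ) : 0 ≤ al W v := by unfold al; positivity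

/-- exchange of the sums over `w, m` and over `v` -/
theorem exch (W : Finset ℕ) (hW : ∀ w ∈ W, 0 < w) (v₁ v₂ : ℕ) (F : ℕ → ℝ) :
    ∑ w ∈ W, ∑ m ∈ Icc 1 (v₂ / w - v₁ / w), F (w * (v₁ / w + m)) =
      ∑ m ∈ range (v₂ - v₁), al W (v₁ + 1 + m) * F (v₁ + 1 + m) := by
  have h1 : ∀ w ∈ W, ∑ m ∈ Icc 1 (v₂ / w - v₁ / w), F (w * (v₁ / w + m)) =
      ∑ v ∈ (Ico (v₁ + 1) (v₂ + 1)).filter (fun v => w ∣ v), F v := by
    intro w hw
    have hw0 := hW w hw
    symm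
    apply sum_bij' (fun v _ => v / w - v₁ / w) (fun m _ => w * (v₁ / w + m))
    · intro v hv
      rw [mem_filter, mem_Ico] at hv
      obtain ⟨⟨hv1, hv2⟩, k, rfl⟩ := hv
      rw [mem_Icc, Nat.mul_div_cancel_left _ hw0]
      have h2 : v₁ / w < k := by
        rw [Nat.div_lt_iff_lt_mul hw0, mul_comm]
        omega
      have h3 : k ≤ v₂ / w := by
        rw [Nat.le_div_iff_mul_le hw0, mul_comm]
        omega
      omega
    · intro m hm
      rw [mem_Icc] at hm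
      rw [mem_filter, mem_Ico]
      refine ⟨⟨?_, ?_⟩, dvd_mul_right _ _⟩
      · have h2 : v₁ / w < v₁ / w + m := by omega
        rw [Nat.div_lt_iff_lt_mul hw0] at h2
        rw [mul_comm]
        omega
      · have h3 : v₁ / w + m ≤ v₂ / w := by omega
        rw [Nat.le_div_iff_mul_le hw0] at h3
        rw [mul_comm]
        omega
    · intro v hv
      rw [mem_filter, mem_Ico] at hv
      obtain ⟨⟨hv1, hv2⟩, k, rfl⟩ := hv
      rw [Nat.mul_div_cancel_left _ hw0]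
      have h2 : v₁ / w < k := by
        rw [Nat.div_lt_iff_lt_mul hw0, mul_comm]
        omega
      congr 1
      omega
    · intro m hm
      rw [Nat.mul_div_cancel_left _ hw0]
      omega
    · intro v hv
      rw [mem_filter, mem_Ico] at hv
      obtain ⟨⟨hv1, hv2⟩, k, rfl⟩ := hv
      rw [Nat.mul_div_cancel_left _ hw0]
      have h2 : v₁ / w < k := by
        rw [Nat.div_lt_iff_lt_mul hw0, mul_comm]
        omega
      congr 2
      omega
  rw [sum_congr rfl h1]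
  simp only [sum_filter]
  rw [sum_comm, sum_Ico_eq_sum_range, show v₂ + 1 - (v₁ + 1) = v₂ - v₁ by omega]
  refine sum_congr rfl fun m _ => ?_
  rw [← sum_filter, sum_const, nsmul_eq_mul]
  rfl

/-- transformation of the residue classes -/
theorem trans (Ps : Finset ℕ) (a : ℕ → ℤ) (N σ : ℤ) (q w B : ℕ) (hσ : σ = 1 ∨ σ = -1)
    (hP : ∀ p ∈ Ps, p.Prime ∧ ¬ p ∣ q * w) :
    ∃ a' : ℕ → ℤ, ∀ p ∈ Ps, ∀ m : ℕ,
      (pt N σ q (w * (B + m)) ≡ a p [ZMOD (p : ℤ)]) ↔ ((m : ℤ) ≡ a' p [ZMOD (p : ℤ)]) := by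
  have h1 : ∀ p : ℕ, ∃ b : ℤ, p ∈ Ps → ∀ m : ℕ,
      (pt N σ q (w * (B + m)) ≡ a p [ZMOD (p : ℤ)]) ↔ ((m : ℤ) ≡ b [ZMOD (p : ℤ)]) := by
    intro p
    by_cases hp : p ∈ Ps
    · obtain ⟨hpp, hpd⟩ := hP p hp
      have hpi : Prime (p : ℤ) := Nat.prime_iff_prime_int.1 hpp
      have hu : ¬ (p : ℤ) ∣ σ * (q * w : ℕ) := by
        intro h
        rcases hpi.dvd_or_dvd h with h2 | h2
        · rcases hσ with rfl | rfl
          · exact hpi.not_isUnit (isUnit_of_dvd_one h2)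
          · exact hpi.not_isUnit (isUnit_of_dvd_one ((dvd_neg).1 h2))
        · exact hpd (by exact_mod_cast h2)
      have hco : IsCoprime (p : ℤ) (σ * (q * w : ℕ)) := (hpi.coprime_iff_not_dvd).2 hu
      obtain ⟨x, y, hxy⟩ := hco
      set u : ℤ := σ * (q * w : ℕ) with hu'
      refine ⟨y * (a p - N) - B, fun _ m => ?_⟩
      have e : pt N σ q (w * (B + m)) = N + u * ((B : ℤ) + m) := by
        unfold pt
        rw [hu']
        push_cast
        ring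
      rw [e]
      have hyu : y * u ≡ 1 [ZMOD (p : ℤ)] := by
        rw [Int.modEq_iff_dvd]
        exact ⟨x, by linear_combination (-1 : ℤ) * hxy⟩
      constructor
      · intro h
        have h2 : u * ((B : ℤ) + m) ≡ a p - N [ZMOD (p : ℤ)] := by
          have := h.sub_right N
          rwa [add_sub_cancel_left] at this
        have h3 : y * (u * ((B : ℤ) + m)) ≡ y * (a p - N) [ZMOD (p : ℤ)] := h2.mul_left y
        have h4 : y * (u * ((B : ℤ) + m)) ≡ (B : ℤ) + m [ZMOD (p : ℤ)] := by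
          have := hyu.mul_right ((B : ℤ) + m)
          rwa [mul_assoc, one_mul] at this
        have h5 := (h4.symm.trans h3).sub_right (B : ℤ)
        rwa [add_sub_cancel_left] at h5
      · intro h
        have h2 : (B : ℤ) + m ≡ y * (a p - N) [ZMOD (p : ℤ)] := by
          have := h.add_left (B : ℤ)
          rwa [add_sub_cancel] at this
        have h3 : u * ((B : ℤ) + m) ≡ u * (y * (a p - N)) [ZMOD (p : ℤ)] := h2.mul_left u
        have h4 : u * (y * (a p - N)) ≡ a p - N [ZMOD (p : ℤ)] := by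
          have := hyu.mul_right (a p - N)
          rw [one_mul] at this
          rwa [show u * (y * (a p - N)) = y * u * (a p - N) by ring]
        have h5 := (h3.trans h4).add_left N
        rwa [add_sub_cancel] at h5
    · exact ⟨0, fun h => absurd h hp⟩
  choose a' ha' using h1
  exact ⟨a', fun p hp m => ha' p hp m⟩

/-- lower bound for the number of sieved points -/
theorem low (P₀ : Finset ℕ) (a : ℕ → ℤ) (N σ : ℤ) (q w B M : ℕ) (hσ : σ = 1 ∨ σ = -1)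
    (hP : ∀ p ∈ P₀, p.Prime ∧ ¬ p ∣ q * w) {K : ℝ} (hK : ∑ p ∈ P₀, 1 / (p : ℝ) ≤ K) (r : ℕ)
    (Z : ℝ) (hZ : 1 ≤ Z) (hPZ : (P₀.card : ℝ) ≤ Z) :
    M * (∏ p ∈ P₀, (1 - 1 / (p : ℝ))) - 2 * tau K r * M - (r + 2) * Z ^ (r + 1) ≤
      ∑ m ∈ Icc 1 M, (if ∀ p ∈ P₀, ¬ pt N σ q (w * (B + m)) ≡ a p [ZMOD (p : ℤ)] then (1 : ℝ)
        else 0) := by
  obtain ⟨a', ha'⟩ := trans P₀ a N σ q w B hσ hP
  have h1 := sieve M a' P₀ ∅ (fun p hp => (hP p hp).1) (by simp) (disjoint_empty_left _) hK r Z hZ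
    hPZ
  have h2 : ((sv M a' P₀ ∅).card : ℝ) = ∑ m ∈ Icc 1 M,
      (if ∀ p ∈ P₀, ¬ pt N σ q (w * (B + m)) ≡ a p [ZMOD (p : ℤ)] then (1 : ℝ) else 0) := by
    rw [sum_ite, sum_const_zero, add_zero, sum_const, nsmul_eq_mul, mul_one]
    congr 2
    unfold sv cl
    ext m
    simp only [mem_filter, notMem_empty, false_implies, implies_true, and_true]
    refine and_congr_right fun _ => forall₂_congr fun p hp => not_congr ?_
    exact (ha' p hp m).symm
  have h3 : W (∅ : Finset ℕ) = 1 := by unfold W; simp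
  rw [h3, mul_one] at h1
  have h4 := (abs_le.1 h1).1
  rw [← h2]
  linarith

/-- upper bound for one class -/
theorem onecl (a : ℕ → ℤ) (N σ : ℤ) (q w B M p : ℕ) (hσ : σ = 1 ∨ σ = -1)
    (hp : p.Prime) (hpd : ¬ p ∣ q * w) :
    ∑ m ∈ Icc 1 M, (if pt N σ q (w * (B + m)) ≡ a p [ZMOD (p : ℤ)] then (1 : ℝ) else 0) ≤
      (M : ℝ) / p + 1 := by
  obtain ⟨a', ha'⟩ := trans {p} a N σ q w B hσ (fun p' h => by
    rw [mem_singleton] at h
    subst h
    exact ⟨hp, hpd⟩)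
  have h1 := cl_card M a' {p} (fun p' h => by rw [mem_singleton] at h; subst h; exact hp)
  have h2 : ((cl M a' {p}).card : ℝ) = ∑ m ∈ Icc 1 M,
      (if pt N σ q (w * (B + m)) ≡ a p [ZMOD (p : ℤ)] then (1 : ℝ) else 0) := by
    rw [sum_ite, sum_const_zero, add_zero, sum_const, nsmul_eq_mul, mul_one]
    congr 2
    unfold cl
    ext m
    simp only [mem_filter, mem_singleton, forall_eq]
    exact and_congr_right fun _ => (ha' p (mem_singleton_self p) m).symm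
  have h3 : W ({p} : Finset ℕ) = 1 / (p : ℝ) := by unfold W; simp
  rw [h3] at h1
  rw [← h2]
  have h4 := (abs_le.1 h1).2
  have e : (M : ℝ) * (1 / (p : ℝ)) = M / p := by ring
  rw [e] at h4
  linarith

/-- the truncated inclusion-exclusion -/
noncomputable def Ur (a : ℕ → ℤ) (P₀ : Finset ℕ) (r : ℕ) (n : ℤ) : ℝ :=
  ∑ j ∈ range (r + 1), (-1 : ℝ) ^ j * ∑ Q ∈ powersetCard j P₀,
    (if ∀ p ∈ Q, n ≡ a p [ZMOD (p : ℤ)] then (1 : ℝ) else 0)

theorem Ur_ge (a : ℕ → ℤ) (P₀ : Finset ℕ) (r : ℕ) (hr : Even r) (n : ℤ) :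
    (if ∀ p ∈ P₀, ¬ n ≡ a p [ZMOD (p : ℤ)] then (1 : ℝ) else 0) ≤ Ur a P₀ r n := by
  classical
  set H : Finset ℕ := P₀.filter (fun p => n ≡ a p [ZMOD (p : ℤ)]) with hH
  have h1 : ∀ j, ∑ Q ∈ powersetCard j P₀,
      (if ∀ p ∈ Q, n ≡ a p [ZMOD (p : ℤ)] then (1 : ℝ) else 0) = ((H.card.choose j : ℕ) : ℝ) := by
    intro j
    rw [← card_powersetCard, sum_ite, sum_const_zero, add_zero, sum_const, nsmul_eq_mul, mul_one]
    congr 2
    ext Q
    simp only [mem_powersetCard, mem_filter, hH]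
    constructor
    · rintro ⟨⟨h, h'⟩, h''⟩
      exact ⟨fun p hp => mem_filter.2 ⟨h hp, h'' p hp⟩, h'⟩
    · rintro ⟨h, h'⟩
      exact ⟨⟨fun p hp => (mem_filter.1 (h hp)).1, h'⟩, fun p hp => (mem_filter.1 (h hp)).2⟩
  unfold Ur
  simp only [h1]
  rcases Nat.eq_zero_or_pos H.card with h0 | h0
  · rw [h0, sum_range_succ']
    simp only [Nat.choose_zero_succ, Nat.cast_zero, mul_zero, sum_const_zero, zero_add, pow_zero,
      Nat.choose_self, Nat.cast_one, mul_one]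
    split_ifs <;> norm_num
  · have hne : ¬ ∀ p ∈ P₀, ¬ n ≡ a p [ZMOD (p : ℤ)] := by
      obtain ⟨p, hp⟩ := card_pos.1 h0
      rw [hH, mem_filter] at hp
      exact fun h => h p hp.1 hp.2
    rw [if_neg hne]
    obtain ⟨m, hm⟩ : ∃ m, H.card = m + 1 := ⟨H.card - 1, by omega⟩
    rw [hm]
    have e := Int.alternating_sum_range_choose_eq_choose (n := m) (m := r)
    have e' : ∑ j ∈ range (r + 1), (-1 : ℝ) ^ j * (((m + 1).choose j : ℕ) : ℝ) =
        (-1) ^ r * ((m.choose r : ℕ) : ℝ) := by exact_mod_cast e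
    rw [e', hr.neg_one_pow]
    positivity

theorem Ur_nonneg (a : ℕ → ℤ) (P₀ : Finset ℕ) (r : ℕ) (hr : Even r) (n : ℤ) : 0 ≤ Ur a P₀ r n := by
  refine le_trans ?_ (Ur_ge a P₀ r hr n)
  split_ifs <;> norm_num

/-- upper bound for the sum of `Ur` -/
theorem Ur_sum (P₀ : Finset ℕ) (a : ℕ → ℤ) (N σ : ℤ) (q w B M : ℕ) (hσ : σ = 1 ∨ σ = -1)
    (hP : ∀ p ∈ P₀, p.Prime ∧ ¬ p ∣ q * w) {K : ℝ} (hK : ∑ p ∈ P₀, 1 / (p : ℝ) ≤ K) (r : ℕ)
    (Z : ℝ) (hZ : 1 ≤ Z) (hPZ : (P₀.card : ℝ) ≤ Z) :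
    ∑ m ∈ Icc 1 M, Ur a P₀ r (pt N σ q (w * (B + m))) ≤
      M * (∏ p ∈ P₀, (1 - 1 / (p : ℝ)) + tau K r) + (r + 1) * Z ^ (r + 1) := by
  classical
  obtain ⟨a', ha'⟩ := trans P₀ a N σ q w B hσ hP
  have h1 : ∀ j, ∀ Q ∈ powersetCard j P₀, ∑ m ∈ Icc 1 M,
      (if ∀ p ∈ Q, pt N σ q (w * (B + m)) ≡ a p [ZMOD (p : ℤ)] then (1 : ℝ) else 0) =
        ((cl M a' Q).card : ℝ) := by
    intro j Q hQ
    rw [mem_powersetCard] at hQ
    rw [sum_ite, sum_const_zero, add_zero, sum_const, nsmul_eq_mul, mul_one]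
    congr 2
    unfold cl
    ext m
    simp only [mem_filter]
    exact and_congr_right fun _ => forall₂_congr fun p hp => ha' p (hQ.1 hp) m
  have h2 : ∑ m ∈ Icc 1 M, Ur a P₀ r (pt N σ q (w * (B + m))) =
      ∑ j ∈ range (r + 1), (-1 : ℝ) ^ j * ∑ Q ∈ powersetCard j P₀, ((cl M a' Q).card : ℝ) := by
    unfold Ur
    rw [sum_comm]
    refine sum_congr rfl fun j _ => ?_
    rw [← mul_sum, sum_comm, sum_congr rfl (h1 j)]
  have h3 : ∀ j ∈ range (r + 1), (-1 : ℝ) ^ j * ∑ Q ∈ powersetCard j P₀, ((cl M a' Q).card : ℝ) ≤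
      M * ((-1 : ℝ) ^ j * E j P₀) + Z ^ (r + 1) := by
    intro j hj
    rw [mem_range] at hj
    have h4 : |∑ Q ∈ powersetCard j P₀, ((cl M a' Q).card : ℝ) - M * E j P₀| ≤ Z ^ (r + 1) := by
      unfold E
      rw [mul_sum, ← sum_sub_distrib]
      refine (abs_sum_le_sum_abs _ _).trans ((sum_le_sum (fun Q hQ => ?_)).trans
        (b := ∑ Q ∈ powersetCard j P₀, (1 : ℝ)) ?_)
      · rw [mem_powersetCard] at hQ
        exact cl_card M a' Q fun p hp => (hP p (hQ.1 hp)).1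
      · rw [sum_const, nsmul_eq_mul, mul_one]
        exact card_pow_le P₀ Z hZ hPZ j (r + 1) (by omega)
    have e : (-1 : ℝ) ^ j * ∑ Q ∈ powersetCard j P₀, ((cl M a' Q).card : ℝ) =
        M * ((-1 : ℝ) ^ j * E j P₀) + (-1 : ℝ) ^ j *
          (∑ Q ∈ powersetCard j P₀, ((cl M a' Q).card : ℝ) - M * E j P₀) := by ring
    rw [e]
    have h5 : (-1 : ℝ) ^ j * (∑ Q ∈ powersetCard j P₀, ((cl M a' Q).card : ℝ) - M * E j P₀) ≤
        Z ^ (r + 1) := by
      refine (le_abs_self _).trans ?_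
      rw [abs_mul, abs_pow, abs_neg, abs_one, one_pow, one_mul]
      exact h4
    linarith
  rw [h2]
  refine (sum_le_sum h3).trans ?_
  rw [sum_add_distrib, ← mul_sum, sum_const, card_range, nsmul_eq_mul]
  have h6 := (abs_le.1 (trunc P₀ hK r)).2
  have h7 : (M : ℝ) * ∑ j ∈ range (r + 1), (-1 : ℝ) ^ j * E j P₀ ≤
      M * (∏ p ∈ P₀, (1 - 1 / (p : ℝ)) + tau K r) :=
    mul_le_mul_of_nonneg_left (by linarith) (by positivity)
  push_cast
  linarith

end Pool.Agent.Lib.OC93
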