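import Pool.Agent.Lib.OC93.Blk1

set_option autoImplicit false

/-!
One block: the classes modulo the large primes, by the bilinear bound.
-/

namespace Pool.Agent.Lib.OC93

open Finset Pool.Agent.Lib.MP_ba437d_nt

/-- weighted number of points of the block in the classes of `Q` -/
noncomputable def TQ (a : ℕ → ℤ) (N σ : ℤ) (G : Finset ℕ) (α : ℕ → ℝ) (A X : ℕ)
    (Q : Finset ℕ) : ℝ :=
  ∑ q ∈ G, ∑ m ∈ range X, α (A + m) *
    (if ∀ p' ∈ Q, pt N σ q (A + m) ≡ a p' [ZMOD (p' : ℤ)] then (1 : ℝ) else 0)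

/-- weighted number of points of the block in the classes of `Q` and in the class of `p` -/
noncomputable def TQp (a : ℕ → ℤ) (N σ : ℤ) (G : Finset ℕ) (α : ℕ → ℝ) (A X : ℕ)
    (Q : Finset ℕ) (p : ℕ) : ℝ :=
  ∑ q ∈ G, ∑ m ∈ range X, α (A + m) *
    (if ∀ p' ∈ Q, pt N σ q (A + m) ≡ a p' [ZMOD (p' : ℤ)] then (1 : ℝ) else 0) *
    (if pt N σ q (A + m) ≡ a p [ZMOD (p : ℤ)] then (1 : ℝ) else 0)

/-- the `q ∈ G` whose point for `v ≡ f` lies in the classes of `Q` -/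
def Gf (a : ℕ → ℤ) (N σ : ℤ) (G Q : Finset ℕ) (f : ℕ) : Finset ℕ :=
  G.filter (fun q => ∀ p' ∈ Q, pt N σ q f ≡ a p' [ZMOD (p' : ℤ)])

theorem pt_mod (N σ : ℤ) (q v d p : ℕ) (hpd : p ∣ d) (b : ℤ) :
    (pt N σ q (v % d) ≡ b [ZMOD (p : ℤ)]) ↔ (pt N σ q v ≡ b [ZMOD (p : ℤ)]) := by
  have h1 : ((v % d : ℕ) : ℤ) ≡ (v : ℤ) [ZMOD (d : ℤ)] := by
    push_cast
    exact Int.mod_modEq _ _
  have h2 : ((v % d : ℕ) : ℤ) ≡ (v : ℤ) [ZMOD (p : ℤ)] := h1.of_dvd (by exact_mod_cast hpd)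
  have h3 : pt N σ q (v % d) ≡ pt N σ q v [ZMOD (p : ℤ)] := by
    unfold pt
    exact (h2.mul_left _).add_left _
  exact ⟨fun h => h3.symm.trans h, fun h => h3.trans h⟩

theorem TQp_eq (a : ℕ → ℤ) (N σ : ℤ) (G : Finset ℕ) (α : ℕ → ℝ) (A X : ℕ) (Q : Finset ℕ)
    (hQ : 0 < ∏ p ∈ Q, p) (p : ℕ) :
    TQp a N σ G α A X Q p = ∑ f ∈ range (∏ p ∈ Q, p), ∑ m ∈ range X,
      (if (A + m) % (∏ p ∈ Q, p) = f then α (A + m) else 0) *
        (FF (Gf a N σ G Q f) N σ (a p) p (A + m) : ℝ) := by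
  unfold TQp
  rw [sum_comm, sum_comm (s := range (∏ p ∈ Q, p))]
  refine sum_congr rfl fun m _ => ?_
  have hf : (A + m) % (∏ p ∈ Q, p) ∈ range (∏ p ∈ Q, p) := mem_range.2 (Nat.mod_lt _ hQ)
  rw [sum_eq_single_of_mem _ hf (fun f _ hne => by
    rw [if_neg (fun h => hne h.symm), zero_mul]), if_pos rfl]
  unfold FF Gf
  rw [filter_filter, card_filter, Nat.cast_sum, mul_sum]
  refine sum_congr rfl fun q _ => ?_
  have h1 : (∀ p' ∈ Q, pt N σ q ((A + m) % (∏ p ∈ Q, p)) ≡ a p' [ZMOD (p' : ℤ)]) ↔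
      (∀ p' ∈ Q, pt N σ q (A + m) ≡ a p' [ZMOD (p' : ℤ)]) :=
    forall₂_congr fun p' hp' => pt_mod N σ q (A + m) _ p' (dvd_prod_of_mem _ hp') _
  have h2 : (N + σ * q * ((A + m : ℕ) : ℤ) ≡ a p [ZMOD (p : ℤ)]) ↔
      (pt N σ q (A + m) ≡ a p [ZMOD (p : ℤ)]) := Iff.rfl
  simp only [h1, h2, Nat.cast_ite, Nat.cast_one, Nat.cast_zero]
  by_cases c1 : ∀ p' ∈ Q, pt N σ q (A + m) ≡ a p' [ZMOD (p' : ℤ)]
  · by_cases c2 : pt N σ q (A + m) ≡ a p [ZMOD (p : ℤ)]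
    · rw [if_pos c1, if_pos c2, if_pos ⟨c1, c2⟩]
      ring
    · rw [if_pos c1, if_neg c2, if_neg (fun h => c2 h.2)]
      ring
  · simp only [c1, false_and, if_false, mul_zero, zero_mul]

theorem TQ_eq (a : ℕ → ℤ) (N σ : ℤ) (G : Finset ℕ) (α : ℕ → ℝ) (A X : ℕ) (Q : Finset ℕ)
    (hQ : 0 < ∏ p ∈ Q, p) :
    TQ a N σ G α A X Q = ∑ f ∈ range (∏ p ∈ Q, p), ((Gf a N σ G Q f).card : ℝ) *
      ∑ m ∈ range X, (if (A + m) % (∏ p ∈ Q, p) = f then α (A + m) else 0) := by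
  unfold TQ
  simp only [mul_sum]
  rw [sum_comm, sum_comm (s := range (∏ p ∈ Q, p))]
  refine sum_congr rfl fun m _ => ?_
  have hf : (A + m) % (∏ p ∈ Q, p) ∈ range (∏ p ∈ Q, p) := mem_range.2 (Nat.mod_lt _ hQ)
  rw [sum_eq_single_of_mem _ hf (fun f _ hne => by
    rw [if_neg (fun h => hne h.symm), mul_zero]), if_pos rfl]
  unfold Gf
  rw [card_filter]
  push_cast
  rw [sum_mul]
  refine sum_congr rfl fun q _ => ?_
  have h1 : (∀ p' ∈ Q, pt N σ q ((A + m) % (∏ p ∈ Q, p)) ≡ a p' [ZMOD (p' : ℤ)]) ↔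
      (∀ p' ∈ Q, pt N σ q (A + m) ≡ a p' [ZMOD (p' : ℤ)]) :=
    forall₂_congr fun p' hp' => pt_mod N σ q (A + m) _ p' (dvd_prod_of_mem _ hp') _
  simp only [h1]
  ring

/-- the constant of the bilinear bound -/
def BilC (C : ℝ) : Prop :=
  0 < C ∧ ∀ (S G : Finset ℕ) (Q X A : ℕ) (α : ℕ → ℝ) (a : ℕ → ℤ) (N σ : ℤ)
    (K : ℝ), 1 ≤ X → (∀ p ∈ S, p.Prime ∧ p ≤ Q) → ∑ p ∈ S, 1 / (p : ℝ) ≤ K →
    (σ = 1 ∨ σ = -1) → (∀ p ∈ S, ∀ q ∈ G, 0 < q ∧ q < p) →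
    (∀ p ∈ S, ¬ a p ≡ N [ZMOD (p : ℤ)]) →
    ∑ p ∈ S, |∑ m ∈ range X, α (A + m) * (FF G N σ (a p) p (A + m) : ℝ) -
      ((G.card : ℝ) / p) * ∑ m ∈ range X, α (A + m)| ≤
      Real.sqrt (C * (X + (Q : ℝ) ^ 2) * (K * G.card) * ∑ m ∈ range X, α (A + m) ^ 2)

theorem exists_bilC : ∃ C : ℝ, BilC C := by
  obtain ⟨C, hC, h⟩ := bil
  exact ⟨C, hC, h⟩

/-- the size of the error for one block -/
noncomputable def Dv (C : ℝ) (X Q g : ℕ) (K B : ℝ) : ℝ :=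
  Real.sqrt (C * (X + (Q : ℝ) ^ 2) * (K * g) * B)

theorem dev (C : ℝ) (hC : BilC C) (S G : Finset ℕ) (Q₀ X A : ℕ) (α : ℕ → ℝ) (a : ℕ → ℤ) (N σ : ℤ)
    (K : ℝ) (hX : 1 ≤ X) (hS : ∀ p ∈ S, p.Prime ∧ p ≤ Q₀) (hK : ∑ p ∈ S, 1 / (p : ℝ) ≤ K)
    (hσ : σ = 1 ∨ σ = -1) (hG : ∀ p ∈ S, ∀ q ∈ G, 0 < q ∧ q < p)
    (hb : ∀ p ∈ S, ¬ a p ≡ N [ZMOD (p : ℤ)]) (Q : Finset ℕ) (hQ : 0 < ∏ p ∈ Q, p) :
    ∑ p ∈ S, |TQp a N σ G α A X Q p - (1 / (p : ℝ)) * TQ a N σ G α A X Q| ≤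
      ((∏ p ∈ Q, p : ℕ) : ℝ) * Dv C X Q₀ G.card K (∑ m ∈ range X, α (A + m) ^ 2) := by
  have hK0 : 0 ≤ K := le_trans (sum_nonneg fun p _ => by positivity) hK
  have h1 : ∀ p ∈ S, |TQp a N σ G α A X Q p - (1 / (p : ℝ)) * TQ a N σ G α A X Q| ≤
      ∑ f ∈ range (∏ p ∈ Q, p), |∑ m ∈ range X,
        (if (A + m) % (∏ p ∈ Q, p) = f then α (A + m) else 0) *
        (FF (Gf a N σ G Q f) N σ (a p) p (A + m) : ℝ) -
        (((Gf a N σ G Q f).card : ℝ) / p) * ∑ m ∈ range X,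
          (if (A + m) % (∏ p ∈ Q, p) = f then α (A + m) else 0)| := by
    intro p _
    rw [TQp_eq a N σ G α A X Q hQ p, TQ_eq a N σ G α A X Q hQ, mul_sum, ← sum_sub_distrib]
    refine (abs_sum_le_sum_abs _ _).trans (le_of_eq (sum_congr rfl fun f _ => ?_))
    congr 2
    ring
  refine (sum_le_sum h1).trans ?_
  rw [sum_comm]
  calc _ ≤ ∑ f ∈ range (∏ p ∈ Q, p),
        Dv C X Q₀ G.card K (∑ m ∈ range X, α (A + m) ^ 2) := by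
        refine sum_le_sum fun f _ => ?_
        have h2 := hC.2 S (Gf a N σ G Q f) Q₀ X A
          (fun v => if v % (∏ p ∈ Q, p) = f then α v else 0) a N σ K hX hS hK hσ
          (fun p hp q hq => hG p hp q (mem_filter.1 hq).1) hb
        refine h2.trans ?_
        unfold Dv
        apply Real.sqrt_le_sqrt
        have h3 : ((Gf a N σ G Q f).card : ℝ) ≤ G.card := by
          exact_mod_cast card_le_card (filter_subset _ _)
        have h4 : ∑ m ∈ range X, (if (A + m) % (∏ p ∈ Q, p) = f then α (A + m) else 0) ^ 2 ≤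
            ∑ m ∈ range X, α (A + m) ^ 2 := by
          refine sum_le_sum fun m _ => ?_
          split_ifs
          · exact le_rfl
          · rw [zero_pow two_ne_zero]
            exact sq_nonneg _
        have hC0 := hC.1
        have h5 : 0 ≤ C * (X + (Q₀ : ℝ) ^ 2) := by positivity
        exact mul_le_mul (mul_le_mul_of_nonneg_left (mul_le_mul_of_nonneg_left h3 hK0) h5) h4
          (sum_nonneg fun _ _ => sq_nonneg _) (by positivity)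
    _ = _ := by rw [sum_const, card_range, nsmul_eq_mul]

theorem swap4 {β γ δ ε : Type} (G : Finset β) (R : Finset γ) (J : Finset δ) (H : δ → Finset ε)
    (F : β → γ → δ → ε → ℝ) :
    ∑ q ∈ G, ∑ m ∈ R, ∑ j ∈ J, ∑ Q ∈ H j, F q m j Q =
      ∑ j ∈ J, ∑ Q ∈ H j, ∑ q ∈ G, ∑ m ∈ R, F q m j Q := by
  calc _ = ∑ q ∈ G, ∑ j ∈ J, ∑ m ∈ R, ∑ Q ∈ H j, F q m j Q :=
        sum_congr rfl fun q _ => sum_comm
    _ = ∑ j ∈ J, ∑ q ∈ G, ∑ m ∈ R, ∑ Q ∈ H j, F q m j Q := sum_comm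
    _ = ∑ j ∈ J, ∑ q ∈ G, ∑ Q ∈ H j, ∑ m ∈ R, F q m j Q :=
        sum_congr rfl fun j _ => sum_congr rfl fun q _ => sum_comm
    _ = _ := sum_congr rfl fun j _ => sum_comm

/-- weighted sum of the truncated inclusion-exclusion over the points in the class of `p` -/
theorem devU (C : ℝ) (hC : BilC C) (S G : Finset ℕ) (Q₀ X A : ℕ) (α : ℕ → ℝ) (a : ℕ → ℤ) (N σ : ℤ)
    (K : ℝ) (hX : 1 ≤ X) (hS : ∀ p ∈ S, p.Prime ∧ p ≤ Q₀) (hK : ∑ p ∈ S, 1 / (p : ℝ) ≤ K)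
    (hσ : σ = 1 ∨ σ = -1) (hG : ∀ p ∈ S, ∀ q ∈ G, 0 < q ∧ q < p)
    (hb : ∀ p ∈ S, ¬ a p ≡ N [ZMOD (p : ℤ)]) (P₀ : Finset ℕ) (Z : ℝ) (hZ : 1 ≤ Z)
    (hP₀ : ∀ p ∈ P₀, 0 < p ∧ (p : ℝ) ≤ Z) (hPZ : (P₀.card : ℝ) ≤ Z) (r : ℕ) :
    ∑ p ∈ S, ∑ q ∈ G, ∑ m ∈ range X, α (A + m) * (Ur a P₀ r (pt N σ q (A + m)) *
      (if pt N σ q (A + m) ≡ a p [ZMOD (p : ℤ)] then (1 : ℝ) else 0)) ≤
      (∑ p ∈ S, 1 / (p : ℝ)) *
        ∑ q ∈ G, ∑ m ∈ range X, α (A + m) * Ur a P₀ r (pt N σ q (A + m)) +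
      (r + 1) * Z ^ (2 * r) * Dv C X Q₀ G.card K (∑ m ∈ range X, α (A + m) ^ 2) := by
  have hD0 : 0 ≤ Dv C X Q₀ G.card K (∑ m ∈ range X, α (A + m) ^ 2) := Real.sqrt_nonneg _
  have hZ0 : 0 ≤ Z := by linarith
  have h1 : ∀ p : ℕ, ∑ q ∈ G, ∑ m ∈ range X, α (A + m) * (Ur a P₀ r (pt N σ q (A + m)) *
      (if pt N σ q (A + m) ≡ a p [ZMOD (p : ℤ)] then (1 : ℝ) else 0)) =
      ∑ j ∈ range (r + 1), ∑ Q ∈ powersetCard j P₀, (-1 : ℝ) ^ j * TQp a N σ G α A X Q p := by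
    intro p
    unfold TQp Ur
    simp only [mul_sum, sum_mul]
    rw [swap4]
    refine sum_congr rfl fun j _ => sum_congr rfl fun Q _ => sum_congr rfl fun q _ =>
      sum_congr rfl fun m _ => ?_
    ring
  have h2 : ∑ q ∈ G, ∑ m ∈ range X, α (A + m) * Ur a P₀ r (pt N σ q (A + m)) =
      ∑ j ∈ range (r + 1), ∑ Q ∈ powersetCard j P₀, (-1 : ℝ) ^ j * TQ a N σ G α A X Q := by
    unfold TQ Ur
    simp only [mul_sum]
    rw [swap4]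
    refine sum_congr rfl fun j _ => sum_congr rfl fun Q _ => sum_congr rfl fun q _ =>
      sum_congr rfl fun m _ => ?_
    ring
  have h3 : ∑ p ∈ S, ∑ q ∈ G, ∑ m ∈ range X, α (A + m) * (Ur a P₀ r (pt N σ q (A + m)) *
      (if pt N σ q (A + m) ≡ a p [ZMOD (p : ℤ)] then (1 : ℝ) else 0)) -
      (∑ p ∈ S, 1 / (p : ℝ)) *
        ∑ q ∈ G, ∑ m ∈ range X, α (A + m) * Ur a P₀ r (pt N σ q (A + m)) =
      ∑ j ∈ range (r + 1), ∑ Q ∈ powersetCard j P₀, (-1 : ℝ) ^ j *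
        ∑ p ∈ S, (TQp a N σ G α A X Q p - (1 / (p : ℝ)) * TQ a N σ G α A X Q) := by
    rw [sum_congr rfl fun p _ => h1 p, h2, sum_mul, ← sum_sub_distrib]
    simp only [mul_sum, ← sum_sub_distrib]
    rw [sum_comm]
    refine sum_congr rfl fun j _ => ?_
    rw [sum_comm]
    refine sum_congr rfl fun Q _ => sum_congr rfl fun p _ => ?_
    ring
  have h4 : ∀ j ∈ range (r + 1), ∑ Q ∈ powersetCard j P₀, (-1 : ℝ) ^ j *
        ∑ p ∈ S, (TQp a N σ G α A X Q p - (1 / (p : ℝ)) * TQ a N σ G α A X Q) ≤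
      Z ^ (2 * r) * Dv C X Q₀ G.card K (∑ m ∈ range X, α (A + m) ^ 2) := by
    intro j hj
    rw [mem_range] at hj
    calc _ ≤ ∑ Q ∈ powersetCard j P₀, Z ^ r *
          Dv C X Q₀ G.card K (∑ m ∈ range X, α (A + m) ^ 2) := by
          refine sum_le_sum fun Q hQ => ?_
          rw [mem_powersetCard] at hQ
          have hpos : 0 < ∏ p ∈ Q, p := prod_pos fun p hp => (hP₀ p (hQ.1 hp)).1
          have h5 := dev C hC S G Q₀ X A α a N σ K hX hS hK hσ hG hb Q hpos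
          have h6 : ((∏ p ∈ Q, p : ℕ) : ℝ) ≤ Z ^ r := by
            push_cast
            calc ∏ p ∈ Q, (p : ℝ) ≤ ∏ _p ∈ Q, Z := prod_le_prod (fun _ _ => by positivity)
                  fun p hp => (hP₀ p (hQ.1 hp)).2
              _ = Z ^ j := by rw [prod_const, hQ.2]
              _ ≤ Z ^ r := pow_le_pow_right₀ hZ (by omega)
          refine (le_abs_self _).trans ?_
          rw [abs_mul, abs_pow, abs_neg, abs_one, one_pow, one_mul]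
          refine (abs_sum_le_sum_abs _ _).trans (h5.trans ?_)
          exact mul_le_mul_of_nonneg_right h6 hD0
      _ = ((powersetCard j P₀).card : ℝ) * (Z ^ r *
          Dv C X Q₀ G.card K (∑ m ∈ range X, α (A + m) ^ 2)) := by
          rw [sum_const, nsmul_eq_mul]
      _ ≤ Z ^ r * (Z ^ r * Dv C X Q₀ G.card K (∑ m ∈ range X, α (A + m) ^ 2)) :=
          mul_le_mul_of_nonneg_right (card_pow_le P₀ Z hZ hPZ j r (by omega)) (by positivity)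
      _ = _ := by rw [← mul_assoc, ← pow_add, two_mul]
  have h7 := sum_le_sum h4
  rw [sum_const, card_range, nsmul_eq_mul] at h7
  push_cast at h7
  linarith

end Pool.Agent.Lib.OC93
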