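import Pool.Agent.Lib.OC93.Blk2

set_option autoImplicit false

/-!
One block: the final inequality.
-/

namespace Pool.Agent.Lib.OC93

open Finset Pool.Agent.Lib.MP_ba437d_nt

/-- sum of `f` over the points of a block -/
noncomputable def SS (N σ : ℤ) (G W : Finset ℕ) (v₁ v₂ : ℕ) (f : ℤ → ℝ) : ℝ :=
  ∑ q ∈ G, ∑ w ∈ W, ∑ m ∈ Icc 1 (v₂ / w - v₁ / w), f (pt N σ q (w * (v₁ / w + m)))

/-- indicator of the class of `p` -/
noncomputable def ip (a : ℕ → ℤ) (p : ℕ) (n : ℤ) : ℝ := if n ≡ a p [ZMOD (p : ℤ)] then 1 else 0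

/-- indicator of the integers in no class of `P` -/
noncomputable def av (a : ℕ → ℤ) (P : Finset ℕ) (n : ℤ) : ℝ :=
  if ∀ p ∈ P, ¬ n ≡ a p [ZMOD (p : ℤ)] then 1 else 0

theorem ip_nonneg (a : ℕ → ℤ) (p : ℕ) (n : ℤ) : 0 ≤ ip a p n := by
  unfold ip; split_ifs <;> norm_num

theorem SS_alpha (N σ : ℤ) (G W : Finset ℕ) (hW : ∀ w ∈ W, 0 < w) (v₁ v₂ : ℕ) (f : ℤ → ℝ) :
    SS N σ G W v₁ v₂ f = ∑ q ∈ G, ∑ m ∈ range (v₂ - v₁),
      al W (v₁ + 1 + m) * f (pt N σ q (v₁ + 1 + m)) := by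
  unfold SS
  exact sum_congr rfl fun q _ => exch W hW v₁ v₂ (fun v => f (pt N σ q v))

theorem SS_le (N σ : ℤ) (G W : Finset ℕ) (v₁ v₂ : ℕ) (f g : ℤ → ℝ) (h : ∀ n, f n ≤ g n) :
    SS N σ G W v₁ v₂ f ≤ SS N σ G W v₁ v₂ g :=
  sum_le_sum fun _ _ => sum_le_sum fun _ _ => sum_le_sum fun _ _ => h _

theorem SS_sum (N σ : ℤ) (G W : Finset ℕ) (v₁ v₂ : ℕ) (T : Finset ℕ) (f : ℕ → ℤ → ℝ) :
    SS N σ G W v₁ v₂ (fun n => ∑ p ∈ T, f p n) = ∑ p ∈ T, SS N σ G W v₁ v₂ (f p) := by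
  unfold SS
  rw [sum_comm (s := T)]
  refine sum_congr rfl fun q _ => ?_
  rw [sum_comm (s := T)]
  refine sum_congr rfl fun w _ => ?_
  rw [sum_comm (s := T)]

theorem SS_add (N σ : ℤ) (G W : Finset ℕ) (v₁ v₂ : ℕ) (f g : ℤ → ℝ) :
    SS N σ G W v₁ v₂ (fun n => f n + g n) = SS N σ G W v₁ v₂ f + SS N σ G W v₁ v₂ g := by
  unfold SS
  simp only [sum_add_distrib]

/-- pointwise inequality -/
theorem ptw (a : ℕ → ℤ) (P₀ T S R : Finset ℕ) (r : ℕ) (hr : Even r) (n : ℤ) :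
    av a P₀ n ≤ av a (P₀ ∪ T ∪ S ∪ R) n + ∑ p ∈ T, ip a p n + ∑ p ∈ S, ip a p n +
      ∑ p ∈ R, Ur a P₀ r n * ip a p n := by
  classical
  have h1 : 0 ≤ ∑ p ∈ T, ip a p n := sum_nonneg fun p _ => ip_nonneg a p n
  have h2 : 0 ≤ ∑ p ∈ S, ip a p n := sum_nonneg fun p _ => ip_nonneg a p n
  have h3 : 0 ≤ ∑ p ∈ R, Ur a P₀ r n * ip a p n :=
    sum_nonneg fun p _ => mul_nonneg (Ur_nonneg a P₀ r hr n) (ip_nonneg a p n)
  have h4 : 0 ≤ av a (P₀ ∪ T ∪ S ∪ R) n := by unfold av; split_ifs <;> norm_num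
  by_cases c0 : ∀ p ∈ P₀, ¬ n ≡ a p [ZMOD (p : ℤ)]
  · have e0 : av a P₀ n = 1 := if_pos c0
    rw [e0]
    have hU : 1 ≤ Ur a P₀ r n := by
      have := Ur_ge a P₀ r hr n
      rwa [if_pos c0] at this
    by_cases c1 : ∃ p ∈ T, n ≡ a p [ZMOD (p : ℤ)]
    · obtain ⟨p, hp, hpn⟩ := c1
      have h5 : (1 : ℝ) ≤ ∑ p ∈ T, ip a p n := by
        calc (1 : ℝ) = ip a p n := (if_pos hpn).symm
          _ ≤ _ := single_le_sum (f := fun p => ip a p n) (fun p _ => ip_nonneg a p n) hp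
      linarith
    · by_cases c2 : ∃ p ∈ S, n ≡ a p [ZMOD (p : ℤ)]
      · obtain ⟨p, hp, hpn⟩ := c2
        have h5 : (1 : ℝ) ≤ ∑ p ∈ S, ip a p n := by
          calc (1 : ℝ) = ip a p n := (if_pos hpn).symm
            _ ≤ _ := single_le_sum (f := fun p => ip a p n) (fun p _ => ip_nonneg a p n) hp
        linarith
      · by_cases c3 : ∃ p ∈ R, n ≡ a p [ZMOD (p : ℤ)]
        · obtain ⟨p, hp, hpn⟩ := c3
          have h5 : (1 : ℝ) ≤ ∑ p ∈ R, Ur a P₀ r n * ip a p n := by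
            calc (1 : ℝ) ≤ Ur a P₀ r n * ip a p n := by
                  rw [show ip a p n = 1 from if_pos hpn, mul_one]
                  exact hU
              _ ≤ _ := single_le_sum (f := fun p => Ur a P₀ r n * ip a p n)
                (fun p _ => mul_nonneg (Ur_nonneg a P₀ r hr n) (ip_nonneg a p n)) hp
          linarith
        · have e1 : av a (P₀ ∪ T ∪ S ∪ R) n = 1 := by
            apply if_pos
            intro p hp
            simp only [mem_union] at hp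
            push Not at c1 c2 c3
            rcases hp with ((hp | hp) | hp) | hp
            · exact c0 p hp
            · exact c1 p hp
            · exact c2 p hp
            · exact c3 p hp
          rw [e1]
          linarith
  · have e0 : av a P₀ n = 0 := if_neg c0
    rw [e0]
    linarith

/-- the number of the `m` -/
theorem Mw_bound (v₁ v₂ w : ℕ) (hw : 0 < w) (h12 : v₁ ≤ v₂) :
    (((v₂ - v₁ : ℕ) : ℝ) / w - 1 ≤ ((v₂ / w - v₁ / w : ℕ) : ℝ)) ∧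
      (((v₂ / w - v₁ / w : ℕ) : ℝ) ≤ ((v₂ - v₁ : ℕ) : ℝ) / w + 1) := by
  have hw0 : (0 : ℝ) < w := by exact_mod_cast hw
  have hdiv : v₁ / w ≤ v₂ / w := Nat.div_le_div_right h12
  have e1 : (v₁ : ℝ) = w * ((v₁ / w : ℕ) : ℝ) + ((v₁ % w : ℕ) : ℝ) := by
    exact_mod_cast (Nat.div_add_mod v₁ w).symm
  have e2 : (v₂ : ℝ) = w * ((v₂ / w : ℕ) : ℝ) + ((v₂ % w : ℕ) : ℝ) := by
    exact_mod_cast (Nat.div_add_mod v₂ w).symm
  have l1 : ((v₁ % w : ℕ) : ℝ) ≤ w := by exact_mod_cast (Nat.mod_lt v₁ hw).le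
  have l2 : ((v₂ % w : ℕ) : ℝ) ≤ w := by exact_mod_cast (Nat.mod_lt v₂ hw).le
  have n1 : (0 : ℝ) ≤ ((v₁ % w : ℕ) : ℝ) := by positivity
  have n2 : (0 : ℝ) ≤ ((v₂ % w : ℕ) : ℝ) := by positivity
  rw [Nat.cast_sub h12, Nat.cast_sub hdiv]
  constructor
  · rw [sub_le_iff_le_add, div_le_iff₀ hw0]
    nlinarith
  · rw [← sub_le_iff_le_add, le_div_iff₀ hw0]
    nlinarith

end Pool.Agent.Lib.OC93
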