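import Pool.Agent.Lib.OC93.Blk3

set_option autoImplicit false

/-!
One block: the final inequality.
-/

namespace Pool.Agent.Lib.OC93

open Finset Pool.Agent.Lib.MP_ba437d_nt

/-- the hypotheses for one block -/
structure BH (a : ℕ → ℤ) (N σ : ℤ) (P₀ T₁ TA TB ST R₁ G W : Finset ℕ) (v₁ v₂ Q₀ r : ℕ)
    (K Z θ η mR C₀ B : ℝ) : Prop where
  hσ : σ = 1 ∨ σ = -1
  hv : v₁ < v₂
  hW : ∀ w ∈ W, 0 < w
  hZ : 1 ≤ Z
  hr : Even r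
  hP₀ : ∀ p ∈ P₀, p.Prime ∧ (p : ℝ) ≤ Z ∧ ∀ q ∈ G, ∀ w ∈ W, ¬ p ∣ q * w
  hPZ : (P₀.card : ℝ) ≤ Z
  hK : ∑ p ∈ P₀, 1 / (p : ℝ) ≤ K
  hT₁ : ∀ p ∈ T₁, p.Prime ∧ ∀ q ∈ G, ∀ w ∈ W, ¬ p ∣ q * w ∧ (p : ℝ) ≤ ((v₂ - v₁ : ℕ) : ℝ) / w
  hTA : ∀ p ∈ TA, p.Prime ∧ a p ≡ N [ZMOD (p : ℤ)] ∧ ∀ q ∈ G, ∀ w ∈ W, ¬ p ∣ q * w
  hTB : ∀ p ∈ TB, p.Prime ∧ a p ≡ N [ZMOD (p : ℤ)] ∧ ∀ q ∈ G, ∀ w ∈ W, ¬ p ∣ q * w ∧ v₂ / w < p
  hST : ∀ p ∈ ST, p.Prime ∧ p ≤ Q₀ ∧ (∀ q ∈ G, 0 < q ∧ q < p) ∧ ¬ a p ≡ N [ZMOD (p : ℤ)]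
  hR₁ : ∀ p ∈ R₁, p.Prime ∧ p ≤ Q₀ ∧ (∀ q ∈ G, 0 < q ∧ q < p) ∧ ¬ a p ≡ N [ZMOD (p : ℤ)]
  hV : 2 * tau K r ≤ ∏ p ∈ P₀, (1 - 1 / (p : ℝ))
  hθ : ∀ w ∈ W, (r + 3) * Z ^ (r + 1) ≤ θ * (((v₂ - v₁ : ℕ) : ℝ) / w)
  hθ1 : θ ≤ 1
  hC₀ : (v₂ : ℝ) ≤ C₀ * ((v₂ - v₁ : ℕ) : ℝ)
  mT₁ : ∑ p ∈ T₁, 1 / (p : ℝ) ≤ η
  mTA : ∑ p ∈ TA, 1 / (p : ℝ) ≤ η
  mST : ∑ p ∈ ST, 1 / (p : ℝ) ≤ η
  mR₁ : ∑ p ∈ R₁, 1 / (p : ℝ) ≤ mR
  hη : η ≤ K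
  hmR : mR ≤ K
  hB : ∑ m ∈ range (v₂ - v₁), al W (v₁ + 1 + m) ^ 2 ≤ B

section

variable {a : ℕ → ℤ} {N σ : ℤ} {P₀ T₁ TA TB ST R₁ G W : Finset ℕ} {v₁ v₂ Q₀ r : ℕ}
  {K Z θ η mR C₀ B : ℝ}

theorem BH.XW (h : BH a N σ P₀ T₁ TA TB ST R₁ G W v₁ v₂ Q₀ r K Z θ η mR C₀ B) {w : ℕ}
    (hw : w ∈ W) : 1 ≤ ((v₂ - v₁ : ℕ) : ℝ) / w := by
  have h1 := h.hθ w hw
  have h0 : (0 : ℝ) ≤ ((v₂ - v₁ : ℕ) : ℝ) / w := by positivity
  have h2 : (1 : ℝ) ≤ Z ^ (r + 1) := one_le_pow₀ h.hZ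
  have h3 : θ * (((v₂ - v₁ : ℕ) : ℝ) / w) ≤ 1 * (((v₂ - v₁ : ℕ) : ℝ) / w) :=
    mul_le_mul_of_nonneg_right h.hθ1 h0
  have h4 : (1 : ℝ) * 1 ≤ (r + 3) * Z ^ (r + 1) := by
    apply mul_le_mul _ h2 (by norm_num) (by positivity)
    have : (0 : ℝ) ≤ r := by positivity
    linarith
  linarith

/-- the sieved points -/
theorem BH.S0 (h : BH a N σ P₀ T₁ TA TB ST R₁ G W v₁ v₂ Q₀ r K Z θ η mR C₀ B) :
    (G.card : ℝ) * (∑ w ∈ W, ((v₂ - v₁ : ℕ) : ℝ) / w) *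
      (∏ p ∈ P₀, (1 - 1 / (p : ℝ)) - 2 * tau K r - θ) ≤ SS N σ G W v₁ v₂ (av a P₀) := by
  have hK0 : 0 ≤ K := le_trans (sum_nonneg fun p _ => by positivity) h.hK
  have hV1 := prod_le_one' P₀ fun p hp => (h.hP₀ p hp).1
  have hτ := tau_nonneg hK0 r
  unfold SS
  rw [mul_assoc, ← nsmul_eq_mul, ← sum_const, sum_mul]
  refine sum_le_sum fun q hq => ?_
  refine sum_le_sum fun w hw => ?_
  have h1 := low P₀ a N σ q w (v₁ / w) (v₂ / w - v₁ / w) h.hσ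
    (fun p hp => ⟨(h.hP₀ p hp).1, (h.hP₀ p hp).2.2 q hq w hw⟩) h.hK r Z h.hZ h.hPZ
  have h2 := (Mw_bound v₁ v₂ w (h.hW w hw) h.hv.le).1
  have h3 := h.hθ w hw
  have h4 : (1 : ℝ) ≤ Z ^ (r + 1) := one_le_pow₀ h.hZ
  unfold av
  refine le_trans ?_ h1
  have h5 : (((v₂ - v₁ : ℕ) : ℝ) / w - 1) * (∏ p ∈ P₀, (1 - 1 / (p : ℝ)) - 2 * tau K r) ≤
      ((v₂ / w - v₁ / w : ℕ) : ℝ) * (∏ p ∈ P₀, (1 - 1 / (p : ℝ)) - 2 * tau K r) :=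
    mul_le_mul_of_nonneg_right h2 (by linarith [h.hV])
  nlinarith

/-- one class, primes up to the length -/
theorem BH.ST1 (h : BH a N σ P₀ T₁ TA TB ST R₁ G W v₁ v₂ Q₀ r K Z θ η mR C₀ B) :
    ∑ p ∈ T₁, SS N σ G W v₁ v₂ (ip a p) ≤
      (G.card : ℝ) * (∑ w ∈ W, ((v₂ - v₁ : ℕ) : ℝ) / w) * (3 * η) := by
  have h0 : ∀ p ∈ T₁, SS N σ G W v₁ v₂ (ip a p) ≤
      (G.card : ℝ) * (∑ w ∈ W, ((v₂ - v₁ : ℕ) : ℝ) / w) * (3 * (1 / (p : ℝ))) := by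
    intro p hp
    obtain ⟨hpp, hp2⟩ := h.hT₁ p hp
    have hp0 : (0 : ℝ) < p := by exact_mod_cast hpp.pos
    unfold SS
    rw [mul_assoc, ← nsmul_eq_mul, ← sum_const, sum_mul]
    refine sum_le_sum fun q hq => ?_
    refine sum_le_sum fun w hw => ?_
    have h1 := onecl a N σ q w (v₁ / w) (v₂ / w - v₁ / w) p h.hσ hpp (hp2 q hq w hw).1
    have h2 := (Mw_bound v₁ v₂ w (h.hW w hw) h.hv.le).2
    have h3 := h.XW hw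
    have h4 := (hp2 q hq w hw).2
    unfold ip
    refine h1.trans ?_
    rw [div_add_one hp0.ne', div_le_iff₀ hp0]
    have e : ((v₂ - v₁ : ℕ) : ℝ) / w * (3 * (1 / (p : ℝ))) * p = 3 * (((v₂ - v₁ : ℕ) : ℝ) / w) := by
      field_simp
    rw [e]
    linarith
  refine (sum_le_sum h0).trans ?_
  rw [← mul_sum, ← mul_sum]
  have h5 := h.mT₁
  refine mul_le_mul_of_nonneg_left (by linarith) ?_
  exact mul_nonneg (by positivity) (sum_nonneg fun _ _ => by positivity)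

/-- the class `N`, moderate primes -/
theorem BH.STA (h : BH a N σ P₀ T₁ TA TB ST R₁ G W v₁ v₂ Q₀ r K Z θ η mR C₀ B) :
    ∑ p ∈ TA, SS N σ G W v₁ v₂ (ip a p) ≤
      (G.card : ℝ) * (∑ w ∈ W, ((v₂ - v₁ : ℕ) : ℝ) / w) * ((C₀ + 2) * η) := by
  have hX0 : (0 : ℝ) < ((v₂ - v₁ : ℕ) : ℝ) := by
    have := h.hv
    exact_mod_cast (by omega : 0 < v₂ - v₁)
  have hC₀0 : 0 ≤ C₀ := by
    have h1 : (0 : ℝ) ≤ v₂ := by positivity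
    by_contra hc
    push Not at hc
    have := h.hC₀
    nlinarith
  have h0 : ∀ p ∈ TA, SS N σ G W v₁ v₂ (ip a p) ≤
      (G.card : ℝ) * (∑ w ∈ W, ((v₂ - v₁ : ℕ) : ℝ) / w) * ((C₀ + 2) * (1 / (p : ℝ))) := by
    intro p hp
    obtain ⟨hpp, hpN, hp2⟩ := h.hTA p hp
    have hp0 : (0 : ℝ) < p := by exact_mod_cast hpp.pos
    unfold SS
    rw [mul_assoc, ← nsmul_eq_mul, ← sum_const, sum_mul]
    refine sum_le_sum fun q hq => ?_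
    refine sum_le_sum fun w hw => ?_
    have hw0 : (0 : ℝ) < w := by exact_mod_cast h.hW w hw
    have h1 := onecl a N σ q w (v₁ / w) (v₂ / w - v₁ / w) p h.hσ hpp (hp2 q hq w hw)
    have h2 := (Mw_bound v₁ v₂ w (h.hW w hw) h.hv.le).2
    have h3 := h.XW hw
    rcases Nat.lt_or_ge (v₂ / w) p with hlt | hge
    · have h5 : ∑ m ∈ Icc 1 (v₂ / w - v₁ / w), ip a p (pt N σ q (w * (v₁ / w + m))) = 0 := by
        apply sum_eq_zero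
        intro m hm
        rw [mem_Icc] at hm
        unfold ip
        apply if_neg
        intro hc
        have h6 : pt N σ q (w * (v₁ / w + m)) ≡ N [ZMOD (p : ℤ)] := hc.trans hpN
        have h7 : (p : ℤ) ∣ σ * ((q * w : ℕ) : ℤ) * ((v₁ / w + m : ℕ) : ℤ) := by
          have h8 := (Int.modEq_iff_dvd.1 h6.symm)
          have e : pt N σ q (w * (v₁ / w + m)) - N =
              σ * ((q * w : ℕ) : ℤ) * ((v₁ / w + m : ℕ) : ℤ) := by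
            unfold pt
            push_cast
            ring
          rwa [e] at h8
        have hpi : Prime (p : ℤ) := Nat.prime_iff_prime_int.1 hpp
        rcases hpi.dvd_or_dvd h7 with h8 | h8
        · rcases hpi.dvd_or_dvd h8 with h9 | h9
          · rcases h.hσ with hs | hs
            · rw [hs] at h9
              exact hpi.not_isUnit (isUnit_of_dvd_one h9)
            · rw [hs] at h9
              exact hpi.not_isUnit (isUnit_of_dvd_one ((dvd_neg).1 h9))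
          · exact hp2 q hq w hw (by exact_mod_cast h9)
        · have h9 : p ∣ v₁ / w + m := by exact_mod_cast h8
          have h10 := Nat.le_of_dvd (Nat.add_pos_right _ (by omega)) h9
          omega
      rw [h5]
      positivity
    · have h5 : (p : ℝ) ≤ C₀ * (((v₂ - v₁ : ℕ) : ℝ) / w) := by
        have h6 : (p : ℝ) ≤ ((v₂ / w : ℕ) : ℝ) := by exact_mod_cast hge
        have h7 : ((v₂ / w : ℕ) : ℝ) ≤ (v₂ : ℝ) / w := Nat.cast_div_le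
        have h8 : (v₂ : ℝ) / w ≤ C₀ * ((v₂ - v₁ : ℕ) : ℝ) / w :=
          div_le_div_of_nonneg_right h.hC₀ hw0.le
        calc (p : ℝ) ≤ C₀ * ((v₂ - v₁ : ℕ) : ℝ) / w := h6.trans (h7.trans h8)
          _ = _ := by ring
      unfold ip
      refine h1.trans ?_
      rw [div_add_one hp0.ne', div_le_iff₀ hp0]
      have e : ((v₂ - v₁ : ℕ) : ℝ) / w * ((C₀ + 2) * (1 / (p : ℝ))) * p =
          (C₀ + 2) * (((v₂ - v₁ : ℕ) : ℝ) / w) := by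
        field_simp
      rw [e]
      linarith
  refine (sum_le_sum h0).trans ?_
  rw [← mul_sum, ← mul_sum]
  have h5 := h.mTA
  refine mul_le_mul_of_nonneg_left (mul_le_mul_of_nonneg_left h5 (by linarith)) ?_
  exact mul_nonneg (by positivity) (sum_nonneg fun _ _ => by positivity)

/-- the class `N`, large primes -/
theorem BH.STB (h : BH a N σ P₀ T₁ TA TB ST R₁ G W v₁ v₂ Q₀ r K Z θ η mR C₀ B) :
    ∑ p ∈ TB, SS N σ G W v₁ v₂ (ip a p) = 0 := by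
  apply sum_eq_zero
  intro p hp
  obtain ⟨hpp, hpN, hp2⟩ := h.hTB p hp
  unfold SS
  apply sum_eq_zero
  intro q hq
  apply sum_eq_zero
  intro w hw
  obtain ⟨hpd, hlt⟩ := hp2 q hq w hw
  apply sum_eq_zero
  intro m hm
  rw [mem_Icc] at hm
  unfold ip
  apply if_neg
  intro hc
  have h6 : pt N σ q (w * (v₁ / w + m)) ≡ N [ZMOD (p : ℤ)] := hc.trans hpN
  have h7 : (p : ℤ) ∣ σ * ((q * w : ℕ) : ℤ) * ((v₁ / w + m : ℕ) : ℤ) := by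
    have h8 := (Int.modEq_iff_dvd.1 h6.symm)
    have e : pt N σ q (w * (v₁ / w + m)) - N =
        σ * ((q * w : ℕ) : ℤ) * ((v₁ / w + m : ℕ) : ℤ) := by
      unfold pt
      push_cast
      ring
    rwa [e] at h8
  have hpi : Prime (p : ℤ) := Nat.prime_iff_prime_int.1 hpp
  rcases hpi.dvd_or_dvd h7 with h8 | h8
  · rcases hpi.dvd_or_dvd h8 with h9 | h9
    · rcases h.hσ with hs | hs
      · rw [hs] at h9
        exact hpi.not_isUnit (isUnit_of_dvd_one h9)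
      · rw [hs] at h9
        exact hpi.not_isUnit (isUnit_of_dvd_one ((dvd_neg).1 h9))
    · exact hpd (by exact_mod_cast h9)
  · have h9 : p ∣ v₁ / w + m := by exact_mod_cast h8
    have h10 := Nat.le_of_dvd (Nat.add_pos_right _ (by omega)) h9
    omega

/-- total weight -/
theorem BH.al_sum (h : BH a N σ P₀ T₁ TA TB ST R₁ G W v₁ v₂ Q₀ r K Z θ η mR C₀ B) :
    ∑ m ∈ range (v₂ - v₁), al W (v₁ + 1 + m) ≤ 2 * ∑ w ∈ W, ((v₂ - v₁ : ℕ) : ℝ) / w := by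
  have h1 := exch W h.hW v₁ v₂ (fun _ => (1 : ℝ))
  simp only [mul_one, sum_const, nsmul_eq_mul, Nat.card_Icc, Nat.add_sub_cancel] at h1
  rw [← h1, mul_sum]
  refine sum_le_sum fun w hw => ?_
  have h2 := (Mw_bound v₁ v₂ w (h.hW w hw) h.hv.le).2
  have h3 := h.XW hw
  linarith

/-- moderate primes, arbitrary classes -/
theorem BH.SST (h : BH a N σ P₀ T₁ TA TB ST R₁ G W v₁ v₂ Q₀ r K Z θ η mR C₀ B) {C : ℝ}
    (hC : BilC C) :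
    ∑ p ∈ ST, SS N σ G W v₁ v₂ (ip a p) ≤
      (G.card : ℝ) * (∑ w ∈ W, ((v₂ - v₁ : ℕ) : ℝ) / w) * (2 * η) +
        Dv C (v₂ - v₁) Q₀ G.card K B := by
  have hK0 : 0 ≤ K := le_trans (sum_nonneg fun p _ => by positivity) h.hK
  have hX : 1 ≤ v₂ - v₁ := by have := h.hv; omega
  have h1 := dev C hC ST G Q₀ (v₂ - v₁) (v₁ + 1) (al W) a N σ K hX
    (fun p hp => ⟨(h.hST p hp).1, (h.hST p hp).2.1⟩) (h.mST.trans h.hη) h.hσ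
    (fun p hp => (h.hST p hp).2.2.1) (fun p hp => (h.hST p hp).2.2.2) ∅ (by simp)
  rw [prod_empty, Nat.cast_one, one_mul] at h1
  have h2 : Dv C (v₂ - v₁) Q₀ G.card K (∑ m ∈ range (v₂ - v₁), al W (v₁ + 1 + m) ^ 2) ≤
      Dv C (v₂ - v₁) Q₀ G.card K B := by
    unfold Dv
    apply Real.sqrt_le_sqrt
    have := hC.1
    exact mul_le_mul_of_nonneg_left h.hB (by positivity)
  have h3 : ∀ p, SS N σ G W v₁ v₂ (ip a p) =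
      TQp a N σ G (al W) (v₁ + 1) (v₂ - v₁) ∅ p := by
    intro p
    rw [SS_alpha N σ G W h.hW v₁ v₂]
    unfold TQp ip
    refine sum_congr rfl fun q _ => sum_congr rfl fun m _ => ?_
    simp only [notMem_empty, false_implies, implies_true, if_true, mul_one]
  have h4 : TQ a N σ G (al W) (v₁ + 1) (v₂ - v₁) ∅ =
      (G.card : ℝ) * ∑ m ∈ range (v₂ - v₁), al W (v₁ + 1 + m) := by
    unfold TQ
    rw [← nsmul_eq_mul, ← sum_const]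
    refine sum_congr rfl fun q _ => sum_congr rfl fun m _ => ?_
    simp only [notMem_empty, false_implies, implies_true, if_true, mul_one]
  have h5 : ∑ p ∈ ST, SS N σ G W v₁ v₂ (ip a p) ≤
      (∑ p ∈ ST, 1 / (p : ℝ)) * TQ a N σ G (al W) (v₁ + 1) (v₂ - v₁) ∅ +
      ∑ p ∈ ST, |TQp a N σ G (al W) (v₁ + 1) (v₂ - v₁) ∅ p -
        (1 / (p : ℝ)) * TQ a N σ G (al W) (v₁ + 1) (v₂ - v₁) ∅| := by
    rw [sum_mul, ← sum_add_distrib]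
    refine sum_le_sum fun p _ => ?_
    rw [h3]
    have := le_abs_self (TQp a N σ G (al W) (v₁ + 1) (v₂ - v₁) ∅ p -
        (1 / (p : ℝ)) * TQ a N σ G (al W) (v₁ + 1) (v₂ - v₁) ∅)
    linarith
  have h6 := h.al_sum
  have hm := h.mST
  have h7 : (∑ p ∈ ST, 1 / (p : ℝ)) * TQ a N σ G (al W) (v₁ + 1) (v₂ - v₁) ∅ ≤
      (G.card : ℝ) * (∑ w ∈ W, ((v₂ - v₁ : ℕ) : ℝ) / w) * (2 * η) := by
    rw [h4]
    have h0 : 0 ≤ ∑ p ∈ ST, 1 / (p : ℝ) := sum_nonneg fun _ _ => by positivity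
    have hA : 0 ≤ ∑ w ∈ W, ((v₂ - v₁ : ℕ) : ℝ) / w := sum_nonneg fun _ _ => by positivity
    calc (∑ p ∈ ST, 1 / (p : ℝ)) * ((G.card : ℝ) * ∑ m ∈ range (v₂ - v₁), al W (v₁ + 1 + m)) ≤
        η * ((G.card : ℝ) * (2 * ∑ w ∈ W, ((v₂ - v₁ : ℕ) : ℝ) / w)) := by
          refine mul_le_mul hm (mul_le_mul_of_nonneg_left h6 (by positivity)) ?_
            (h0.trans hm)
          exact mul_nonneg (by positivity) (sum_nonneg fun m _ => al_nonneg W _)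
      _ = _ := by ring
  linarith

/-- large primes, arbitrary classes -/
theorem BH.SR (h : BH a N σ P₀ T₁ TA TB ST R₁ G W v₁ v₂ Q₀ r K Z θ η mR C₀ B) {C : ℝ}
    (hC : BilC C) :
    ∑ p ∈ R₁, SS N σ G W v₁ v₂ (fun n => Ur a P₀ r n * ip a p n) ≤
      (G.card : ℝ) * (∑ w ∈ W, ((v₂ - v₁ : ℕ) : ℝ) / w) *
        (mR * (∏ p ∈ P₀, (1 - 1 / (p : ℝ)) + tau K r + θ)) +
        (r + 1) * Z ^ (2 * r) * Dv C (v₂ - v₁) Q₀ G.card K B := by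
  have hK0 : 0 ≤ K := le_trans (sum_nonneg fun p _ => by positivity) h.hK
  have hX : 1 ≤ v₂ - v₁ := by have := h.hv; omega
  have hV1 := prod_le_one' P₀ fun p hp => (h.hP₀ p hp).1
  have hτ := tau_nonneg hK0 r
  have hZ0 : (0 : ℝ) ≤ Z := by linarith [h.hZ]
  have h1 := devU C hC R₁ G Q₀ (v₂ - v₁) (v₁ + 1) (al W) a N σ K hX
    (fun p hp => ⟨(h.hR₁ p hp).1, (h.hR₁ p hp).2.1⟩) (h.mR₁.trans h.hmR) h.hσ
    (fun p hp => (h.hR₁ p hp).2.2.1) (fun p hp => (h.hR₁ p hp).2.2.2) P₀ Z h.hZ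
    (fun p hp => ⟨(h.hP₀ p hp).1.pos, (h.hP₀ p hp).2.1⟩) h.hPZ r
  have h2 : Dv C (v₂ - v₁) Q₀ G.card K (∑ m ∈ range (v₂ - v₁), al W (v₁ + 1 + m) ^ 2) ≤
      Dv C (v₂ - v₁) Q₀ G.card K B := by
    unfold Dv
    apply Real.sqrt_le_sqrt
    have := hC.1
    exact mul_le_mul_of_nonneg_left h.hB (by positivity)
  have h3 : ∑ p ∈ R₁, SS N σ G W v₁ v₂ (fun n => Ur a P₀ r n * ip a p n) =
      ∑ p ∈ R₁, ∑ q ∈ G, ∑ m ∈ range (v₂ - v₁), al W (v₁ + 1 + m) *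
        (Ur a P₀ r (pt N σ q (v₁ + 1 + m)) *
        (if pt N σ q (v₁ + 1 + m) ≡ a p [ZMOD (p : ℤ)] then (1 : ℝ) else 0)) := by
    refine sum_congr rfl fun p _ => ?_
    rw [SS_alpha N σ G W h.hW v₁ v₂]
    rfl
  have h4 : ∑ q ∈ G, ∑ m ∈ range (v₂ - v₁), al W (v₁ + 1 + m) *
        Ur a P₀ r (pt N σ q (v₁ + 1 + m)) = SS N σ G W v₁ v₂ (Ur a P₀ r) :=
    (SS_alpha N σ G W h.hW v₁ v₂ _).symm
  have h5 : SS N σ G W v₁ v₂ (Ur a P₀ r) ≤ (G.card : ℝ) *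
      (∑ w ∈ W, ((v₂ - v₁ : ℕ) : ℝ) / w) *
        (∏ p ∈ P₀, (1 - 1 / (p : ℝ)) + tau K r + θ) := by
    unfold SS
    rw [mul_assoc, ← nsmul_eq_mul, ← sum_const, sum_mul]
    refine sum_le_sum fun q hq => ?_
    refine sum_le_sum fun w hw => ?_
    have h6 := Ur_sum P₀ a N σ q w (v₁ / w) (v₂ / w - v₁ / w) h.hσ
      (fun p hp => ⟨(h.hP₀ p hp).1, (h.hP₀ p hp).2.2 q hq w hw⟩) h.hK r Z h.hZ h.hPZ
    have h7 := (Mw_bound v₁ v₂ w (h.hW w hw) h.hv.le).2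
    have h8 := h.hθ w hw
    have h9 : (1 : ℝ) ≤ Z ^ (r + 1) := one_le_pow₀ h.hZ
    refine h6.trans ?_
    have h10 : ((v₂ / w - v₁ / w : ℕ) : ℝ) * (∏ p ∈ P₀, (1 - 1 / (p : ℝ)) + tau K r) ≤
        (((v₂ - v₁ : ℕ) : ℝ) / w + 1) * (∏ p ∈ P₀, (1 - 1 / (p : ℝ)) + tau K r) := by
      refine mul_le_mul_of_nonneg_right h7 ?_
      have := h.hV
      linarith
    have h11 : ∏ p ∈ P₀, (1 - 1 / (p : ℝ)) + tau K r ≤ 2 := by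
      have := h.hV
      linarith
    nlinarith
  have hm0 : 0 ≤ ∑ p ∈ R₁, 1 / (p : ℝ) := sum_nonneg fun _ _ => by positivity
  have h6 : 0 ≤ SS N σ G W v₁ v₂ (Ur a P₀ r) :=
    sum_nonneg fun _ _ => sum_nonneg fun _ _ => sum_nonneg fun _ _ => Ur_nonneg a P₀ r h.hr _
  rw [h3]
  refine h1.trans ?_
  rw [h4]
  have h7 : (∑ p ∈ R₁, 1 / (p : ℝ)) * SS N σ G W v₁ v₂ (Ur a P₀ r) ≤
      (G.card : ℝ) * (∑ w ∈ W, ((v₂ - v₁ : ℕ) : ℝ) / w) *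
        (mR * (∏ p ∈ P₀, (1 - 1 / (p : ℝ)) + tau K r + θ)) := by
    calc _ ≤ mR * ((G.card : ℝ) * (∑ w ∈ W, ((v₂ - v₁ : ℕ) : ℝ) / w) *
        (∏ p ∈ P₀, (1 - 1 / (p : ℝ)) + tau K r + θ)) :=
          mul_le_mul h.mR₁ h5 h6 (hm0.trans h.mR₁)
      _ = _ := by ring
  have h8 : (r + 1) * Z ^ (2 * r) * Dv C (v₂ - v₁) Q₀ G.card K
      (∑ m ∈ range (v₂ - v₁), al W (v₁ + 1 + m) ^ 2) ≤
      (r + 1) * Z ^ (2 * r) * Dv C (v₂ - v₁) Q₀ G.card K B :=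
    mul_le_mul_of_nonneg_left h2 (by positivity)
  linarith

/-- The block inequality. -/
theorem BH.main (h : BH a N σ P₀ T₁ TA TB ST R₁ G W v₁ v₂ Q₀ r K Z θ η mR C₀ B) {C : ℝ}
    (hC : BilC C) :
    (G.card : ℝ) * (∑ w ∈ W, ((v₂ - v₁ : ℕ) : ℝ) / w) *
      (∏ p ∈ P₀, (1 - 1 / (p : ℝ)) - 2 * tau K r - θ - (C₀ + 7) * η -
        mR * (∏ p ∈ P₀, (1 - 1 / (p : ℝ)) + tau K r + θ)) -
      (1 + (r + 1) * Z ^ (2 * r)) * Dv C (v₂ - v₁) Q₀ G.card K B ≤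
      SS N σ G W v₁ v₂ (av a (P₀ ∪ (T₁ ∪ TA ∪ TB) ∪ ST ∪ R₁)) := by
  classical
  have h1 : SS N σ G W v₁ v₂ (av a P₀) ≤ SS N σ G W v₁ v₂
      (av a (P₀ ∪ (T₁ ∪ TA ∪ TB) ∪ ST ∪ R₁)) + ∑ p ∈ T₁ ∪ TA ∪ TB, SS N σ G W v₁ v₂ (ip a p) +
      ∑ p ∈ ST, SS N σ G W v₁ v₂ (ip a p) +
      ∑ p ∈ R₁, SS N σ G W v₁ v₂ (fun n => Ur a P₀ r n * ip a p n) := by
    rw [← SS_sum, ← SS_sum, ← SS_sum, ← SS_add, ← SS_add, ← SS_add]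
    exact SS_le N σ G W v₁ v₂ _ _ fun n => ptw a P₀ (T₁ ∪ TA ∪ TB) ST R₁ r h.hr n
  have hnn : ∀ p, 0 ≤ SS N σ G W v₁ v₂ (ip a p) := fun p =>
    sum_nonneg fun _ _ => sum_nonneg fun _ _ => sum_nonneg fun _ _ => ip_nonneg _ _ _
  have h2 : ∑ p ∈ T₁ ∪ TA ∪ TB, SS N σ G W v₁ v₂ (ip a p) ≤
      ∑ p ∈ T₁, SS N σ G W v₁ v₂ (ip a p) + ∑ p ∈ TA, SS N σ G W v₁ v₂ (ip a p) +
        ∑ p ∈ TB, SS N σ G W v₁ v₂ (ip a p) := by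
    have e1 := sum_union_inter (s₁ := T₁ ∪ TA) (s₂ := TB) (f := fun p => SS N σ G W v₁ v₂ (ip a p))
    have e2 := sum_union_inter (s₁ := T₁) (s₂ := TA) (f := fun p => SS N σ G W v₁ v₂ (ip a p))
    have e3 : 0 ≤ ∑ p ∈ (T₁ ∪ TA) ∩ TB, SS N σ G W v₁ v₂ (ip a p) := sum_nonneg fun p _ => hnn p
    have e4 : 0 ≤ ∑ p ∈ T₁ ∩ TA, SS N σ G W v₁ v₂ (ip a p) := sum_nonneg fun p _ => hnn p
    linarith
  have h3 := h.S0
  have h4 := h.ST1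
  have h5 := h.STA
  have h6 := h.STB
  have h7 := h.SST hC
  have h8 := h.SR hC
  generalize (G.card : ℝ) * (∑ w ∈ W, ((v₂ - v₁ : ℕ) : ℝ) / w) = A at *
  generalize ∏ p ∈ P₀, (1 - 1 / (p : ℝ)) = V at *
  generalize Dv C (v₂ - v₁) Q₀ G.card K B = D at *
  have e : A * (V - 2 * tau K r - θ - (C₀ + 7) * η - mR * (V + tau K r + θ)) -
      (1 + (r + 1) * Z ^ (2 * r)) * D = A * (V - 2 * tau K r - θ) - A * (3 * η) -
        A * ((C₀ + 2) * η) - (A * (2 * η) + D) -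
        (A * (mR * (V + tau K r + θ)) + (r + 1) * Z ^ (2 * r) * D) := by ring
  linarith

end

end Pool.Agent.Lib.OC93
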