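import Pool.Agent.Lib.OC93.Geo

set_option autoImplicit false

/-!
All blocks together: the finite form of the theorem.
-/

namespace Pool.Agent.Lib.OC93

open Finset Pool.Agent.Lib.MP_ba437d_nt

open scoped Classical in
/-- primes up to `Z` -/
noncomputable def fP₀ (P : Finset ℕ) (Z : ℝ) : Finset ℕ := P.filter (fun p => (p : ℝ) ≤ Z)

open scoped Classical in
/-- primes in `(s, t]` -/
noncomputable def fT (P : Finset ℕ) (s t : ℝ) : Finset ℕ :=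
  P.filter (fun p => s < (p : ℝ) ∧ (p : ℝ) ≤ t)

open scoped Classical in
/-- primes in `(s, t]` whose class is that of `N` -/
noncomputable def fA (P : Finset ℕ) (a : ℕ → ℤ) (N : ℤ) (s t : ℝ) : Finset ℕ :=
  P.filter (fun p => (s < (p : ℝ) ∧ (p : ℝ) ≤ t) ∧ a p ≡ N [ZMOD (p : ℤ)])

open scoped Classical in
/-- primes beyond `s` whose class is that of `N` -/
noncomputable def fB (P : Finset ℕ) (a : ℕ → ℤ) (N : ℤ) (s : ℝ) : Finset ℕ :=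
  P.filter (fun p => s < (p : ℝ) ∧ a p ≡ N [ZMOD (p : ℤ)])

open scoped Classical in
/-- primes in `(s, t]` whose class is not that of `N` -/
noncomputable def fR (P : Finset ℕ) (a : ℕ → ℤ) (N : ℤ) (s t : ℝ) : Finset ℕ :=
  P.filter (fun p => (s < (p : ℝ) ∧ (p : ℝ) ≤ t) ∧ ¬ a p ≡ N [ZMOD (p : ℤ)])

open scoped Classical in
/-- all primes except those beyond `Q` whose class is not that of `N` -/
noncomputable def fP (P : Finset ℕ) (a : ℕ → ℤ) (N : ℤ) (Q : ℝ) : Finset ℕ :=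
  P.filter (fun p => ¬ (Q < (p : ℝ) ∧ ¬ a p ≡ N [ZMOD (p : ℤ)]))

theorem fP_eq (P : Finset ℕ) (a : ℕ → ℤ) (N : ℤ) (Z y3 y8 Q : ℝ) (h1 : Z ≤ y3) (h2 : y3 ≤ y8)
    (h3 : y8 ≤ Q) : fP₀ P Z ∪ (fT P Z y3 ∪ fA P a N y3 y8 ∪ fB P a N y8) ∪ fR P a N y3 y8 ∪
      fR P a N y8 Q = fP P a N Q := by
  classical
  ext p
  simp only [fP₀, fT, fA, fB, fR, fP, mem_union, mem_filter]
  by_cases hp : p ∈ P
  · simp only [hp, true_and]
    by_cases hc : a p ≡ N [ZMOD (p : ℤ)]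
    · simp only [hc, and_true, not_true_eq_false, and_false, or_false, not_false_eq_true, iff_true]
      rcases le_or_gt (p : ℝ) Z with h | h
      · exact Or.inl h
      · right
        rcases le_or_gt (p : ℝ) y3 with h' | h'
        · exact Or.inl (Or.inl ⟨h, h'⟩)
        · rcases le_or_gt (p : ℝ) y8 with h'' | h''
          · exact Or.inl (Or.inr ⟨h', h''⟩)
          · exact Or.inr h''
    · simp only [hc, and_false, or_false, not_false_eq_true, and_true, not_lt]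
      constructor
      · rintro (((h | h) | h) | h)
        · linarith
        · linarith [h.2]
        · linarith [h.2]
        · exact h.2
      · intro hQ
        rcases le_or_gt (p : ℝ) Z with h | h
        · exact Or.inl (Or.inl (Or.inl h))
        · rcases le_or_gt (p : ℝ) y3 with h' | h'
          · exact Or.inl (Or.inl (Or.inr ⟨h, h'⟩))
          · rcases le_or_gt (p : ℝ) y8 with h'' | h''
            · exact Or.inl (Or.inr ⟨h', h''⟩)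
            · exact Or.inr ⟨h'', hQ⟩
  · simp [hp]

/-- the data of the finite form -/
structure FD (C CB : ℝ) (x : ℕ) (N : ℤ) (P : Finset ℕ) (a : ℕ → ℤ) (Z y Q K θ η mR κ : ℝ)
    (r k I : ℕ) (G W : Finset ℕ) : Prop where
  hC : 1 ≤ C
  hCB : BilC CB
  hx : 64 ≤ x
  hN : |(N : ℝ)| ≤ C * x
  hP : ∀ p ∈ P, p.Prime
  hr : Even r
  hZ : 1 ≤ Z
  hyZ : Z ≤ y
  hy : 2 ≤ y
  hG : ∀ q ∈ G, q.Prime ∧ y < (q : ℝ) ∧ (q : ℝ) ≤ y ^ 2 ∧ q ∉ P
  hW : ∀ w ∈ W, 0 < w ∧ w.primeFactors ⊆ G ∧ (x : ℝ) / y ^ 8 ≤ (w : ℝ) ∧ (w : ℝ) ≤ x / y ^ 6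
  n1 : y ^ 2 ≤ x / 64
  n2 : (r + 3) * Z ^ (r + 1) ≤ θ * (1 / 16 * y ^ 4)
  n3 : y ^ 3 ≤ 1 / 16 * y ^ 4
  n4 : 32 * (C + 1) * y ^ 7 < y ^ 8
  n5 : y ^ 8 ≤ Q
  n6 : Q ^ 2 ≤ 1 / 16 * x / y ^ 2
  n7 : (16 * (C + 1) + C + 2) * x < y ^ (k + 1)
  n8 : ∀ i : ℕ, (1 + 1 / (16 * (C + 1))) ^ i ≤ (x : ℝ) → i < I
  hθ0 : 0 ≤ θ
  hθ1 : θ ≤ 1
  hK : ∑ p ∈ P, 1 / (p : ℝ) ≤ K
  hV : 2 * tau K r ≤ ∏ p ∈ fP₀ P Z, (1 - 1 / (p : ℝ))
  hη : ∑ p ∈ fT P Z (y ^ 8), 1 / (p : ℝ) ≤ η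
  hηK : η ≤ K
  hmR : ∑ p ∈ fR P a N (y ^ 8) Q, 1 / (p : ℝ) ≤ mR
  hmRK : mR ≤ K
  hκ : κ ≤ ∏ p ∈ fP₀ P Z, (1 - 1 / (p : ℝ)) - 2 * tau K r - θ - (16 * (C + 1) + 7) * η -
        mR * (∏ p ∈ fP₀ P Z, (1 - 1 / (p : ℝ)) + tau K r + θ)
  hκ0 : 0 ≤ κ

section

variable {C CB : ℝ} {x : ℕ} {N : ℤ} {P : Finset ℕ} {a : ℕ → ℤ} {Z y Q K θ η mR κ : ℝ}
    {r k I : ℕ} {G W : Finset ℕ}

theorem FD.notdvd (h : FD C CB x N P a Z y Q K θ η mR κ r k I G W) {p : ℕ} (hp : p ∈ P) {q w : ℕ}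
    (hq : q ∈ G) (hw : w ∈ W) : ¬ p ∣ q * w := by
  intro hd
  have hpp := h.hP p hp
  rcases (hpp.dvd_mul).1 hd with h1 | h1
  · have h2 : p = q := (Nat.prime_dvd_prime_iff_eq hpp (h.hG q hq).1).1 h1
    exact (h.hG q hq).2.2.2 (h2 ▸ hp)
  · obtain ⟨hw0, hwG, _⟩ := h.hW w hw
    have h2 : p ∈ w.primeFactors := Nat.mem_primeFactors.2 ⟨hpp, h1, hw0.ne'⟩
    exact (h.hG p (hwG h2)).2.2.2 hp

/-- the hypotheses of the block inequality for one block -/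
theorem FD.bh (h : FD C CB x N P a Z y Q K θ η mR κ r k I G W) {σ : ℤ} (hσ : σ = 1 ∨ σ = -1)
    {u : ℝ} (hu1 : 1 ≤ u) (huy : y ≤ 2 * u) (huy2 : u ≤ y ^ 2) {v₁ v₂ : ℕ}
    (hg : GI x N σ (1 + 1 / (16 * (C + 1))) (1 / 16) (16 * (C + 1)) u v₁ v₂)
    (G' : Finset ℕ) (hG' : G' ⊆ G) :
    BH a N σ (fP₀ P Z) (fT P Z (y ^ 3)) (fA P a N (y ^ 3) (y ^ 8)) (fB P a N (y ^ 8))
      (fR P a N (y ^ 3) (y ^ 8)) (fR P a N (y ^ 8) Q) G' W v₁ v₂ ⌊Q⌋₊ r K Z θ η mR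
      (16 * (C + 1)) (4 ^ k * ((v₂ - v₁ : ℕ) : ℝ)) := by
  classical
  have hy0 : 0 < y := by linarith [h.hy]
  have hy1 : 1 ≤ y := by linarith [h.hy]
  have hu0 : 0 < u := by linarith
  have hxr : (0 : ℝ) < x := by
    have := h.hx
    exact_mod_cast (by omega : 0 < x)
  have hC1 : 0 < C + 1 := by linarith [h.hC]
  have hXw : ∀ w ∈ W, 1 / 16 * y ^ 4 ≤ ((v₂ - v₁ : ℕ) : ℝ) / w := by
    intro w hw
    obtain ⟨hw0, _, _, hw2⟩ := h.hW w hw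
    have hw0' : (0 : ℝ) < w := by exact_mod_cast hw0
    rw [le_div_iff₀ hw0']
    refine le_trans ?_ hg.low
    rw [le_div_iff₀ hu0]
    rw [le_div_iff₀ (by positivity)] at hw2
    have e1 : 1 / 16 * y ^ 4 * (w : ℝ) * u ≤ 1 / 16 * y ^ 4 * w * y ^ 2 :=
      mul_le_mul_of_nonneg_left huy2 (by positivity)
    have e2 : 1 / 16 * y ^ 4 * (w : ℝ) * y ^ 2 = 1 / 16 * (w * y ^ 6) := by ring
    linarith
  have hy48 : y ^ 3 ≤ y ^ 8 := pow_le_pow_right₀ hy1 (by norm_num)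
  have hqy3 : ∀ q ∈ G', ∀ p : ℕ, y ^ 3 < (p : ℝ) → 0 < q ∧ q < p := by
    intro q hq p hp
    obtain ⟨hqp, _, hq2, _⟩ := h.hG q (hG' hq)
    refine ⟨hqp.pos, ?_⟩
    have : (q : ℝ) < p := by
      have : y ^ 2 ≤ y ^ 3 := pow_le_pow_right₀ hy1 (by norm_num)
      linarith
    exact_mod_cast this
  have hfl : ∀ p : ℕ, (p : ℝ) ≤ Q → p ≤ ⌊Q⌋₊ := fun p hp => Nat.le_floor hp
  have hv2u : (v₂ : ℝ) ≤ 16 * (C + 1) * (x / u) := by
    refine hg.loc.trans (mul_le_mul_of_nonneg_left hg.up (by positivity))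
  refine
    { hσ := hσ
      hv := hg.lt
      hW := fun w hw => (h.hW w hw).1
      hZ := h.hZ
      hr := h.hr
      hP₀ := ?_
      hPZ := ?_
      hK := ?_
      hT₁ := ?_
      hTA := ?_
      hTB := ?_
      hST := ?_
      hR₁ := ?_
      hV := h.hV
      hθ := ?_
      hθ1 := h.hθ1
      hC₀ := hg.loc
      mT₁ := ?_
      mTA := ?_
      mST := ?_
      mR₁ := h.hmR
      hη := h.hηK
      hmR := h.hmRK
      hB := ?_ }
  · intro p hp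
    rw [fP₀, mem_filter] at hp
    exact ⟨h.hP p hp.1, hp.2, fun q hq w hw => h.notdvd hp.1 (hG' hq) hw⟩
  · have h1 : fP₀ P Z ⊆ Icc 1 ⌊Z⌋₊ := by
      intro p hp
      rw [fP₀, mem_filter] at hp
      rw [mem_Icc]
      exact ⟨(h.hP p hp.1).one_le, Nat.le_floor hp.2⟩
    have h2 := card_le_card h1
    rw [Nat.card_Icc, Nat.add_sub_cancel] at h2
    have hZ0 : 0 ≤ Z := by linarith [h.hZ]
    calc ((fP₀ P Z).card : ℝ) ≤ (⌊Z⌋₊ : ℝ) := by exact_mod_cast h2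
      _ ≤ Z := Nat.floor_le hZ0
  · refine le_trans ?_ h.hK
    exact sum_le_sum_of_subset_of_nonneg (filter_subset _ _) fun _ _ _ => by positivity
  · intro p hp
    rw [fT, mem_filter] at hp
    refine ⟨h.hP p hp.1, fun q hq w hw => ⟨h.notdvd hp.1 (hG' hq) hw, ?_⟩⟩
    have := hXw w hw
    linarith [h.n3, hp.2.2]
  · intro p hp
    rw [fA, mem_filter] at hp
    exact ⟨h.hP p hp.1, hp.2.2, fun q hq w hw => h.notdvd hp.1 (hG' hq) hw⟩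
  · intro p hp
    rw [fB, mem_filter] at hp
    refine ⟨h.hP p hp.1, hp.2.2, fun q hq w hw => ⟨h.notdvd hp.1 (hG' hq) hw, ?_⟩⟩
    obtain ⟨hw0, _, hw1, _⟩ := h.hW w hw
    have hw0' : (0 : ℝ) < w := by exact_mod_cast hw0
    have e1 : ((v₂ / w : ℕ) : ℝ) ≤ (v₂ : ℝ) / w := Nat.cast_div_le
    have e2 : (v₂ : ℝ) / w < p := by
      refine lt_of_le_of_lt ?_ (h.n4.trans hp.2.1)
      rw [div_le_iff₀ hw0']
      refine hv2u.trans ?_
      have e3 : (x : ℝ) / u ≤ 2 * x / y := by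
        rw [div_le_div_iff₀ hu0 hy0]
        nlinarith
      have e4 : 2 * (x : ℝ) / y = 2 * y ^ 7 * (x / y ^ 8) := by
        field_simp
      have e5 : 2 * y ^ 7 * ((x : ℝ) / y ^ 8) ≤ 2 * y ^ 7 * w :=
        mul_le_mul_of_nonneg_left hw1 (by positivity)
      calc 16 * (C + 1) * ((x : ℝ) / u) ≤ 16 * (C + 1) * (2 * y ^ 7 * w) :=
            mul_le_mul_of_nonneg_left (by linarith) (by positivity)
        _ = 32 * (C + 1) * y ^ 7 * w := by ring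
    exact_mod_cast lt_of_le_of_lt e1 e2
  · intro p hp
    rw [fR, mem_filter] at hp
    exact ⟨h.hP p hp.1, hfl p (hp.2.1.2.trans h.n5), fun q hq => hqy3 q hq p hp.2.1.1, hp.2.2⟩
  · intro p hp
    rw [fR, mem_filter] at hp
    exact ⟨h.hP p hp.1, hfl p hp.2.1.2, fun q hq => hqy3 q hq p (lt_of_le_of_lt hy48 hp.2.1.1),
      hp.2.2⟩
  · intro w hw
    exact h.n2.trans (mul_le_mul_of_nonneg_left (hXw w hw) h.hθ0)
  · refine le_trans (sum_le_sum_of_subset_of_nonneg ?_ fun _ _ _ => by positivity) h.hη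
    intro p hp
    rw [fT, mem_filter] at hp ⊢
    exact ⟨hp.1, hp.2.1, hp.2.2.trans hy48⟩
  · refine le_trans (sum_le_sum_of_subset_of_nonneg ?_ fun _ _ _ => by positivity) h.hη
    intro p hp
    rw [fA, mem_filter] at hp
    rw [fT, mem_filter]
    refine ⟨hp.1, ?_, hp.2.1.2⟩
    have : y ≤ y ^ 3 := by
      calc y = y ^ 1 := (pow_one y).symm
        _ ≤ y ^ 3 := pow_le_pow_right₀ hy1 (by norm_num)
    linarith [h.hyZ, hp.2.1.1]
  · refine le_trans (sum_le_sum_of_subset_of_nonneg ?_ fun _ _ _ => by positivity) h.hη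
    intro p hp
    rw [fR, mem_filter] at hp
    rw [fT, mem_filter]
    refine ⟨hp.1, ?_, hp.2.1.2⟩
    have : y ≤ y ^ 3 := by
      calc y = y ^ 1 := (pow_one y).symm
        _ ≤ y ^ 3 := pow_le_pow_right₀ hy1 (by norm_num)
    linarith [h.hyZ, hp.2.1.1]
  · have h1 : ∀ m ∈ range (v₂ - v₁), al W (v₁ + 1 + m) ^ 2 ≤ 4 ^ k := by
      intro m hm
      rw [mem_range] at hm
      have h2 := al_le G W y k hy1 (fun q hq => ⟨(h.hG q hq).1, (h.hG q hq).2.1.le⟩)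
        (fun w hw => ⟨(h.hW w hw).1, (h.hW w hw).2.1⟩) (v₁ + 1 + m) (by omega) (by
        have h3 : ((v₁ + 1 + m : ℕ) : ℝ) ≤ v₂ := by exact_mod_cast (by omega : v₁ + 1 + m ≤ v₂)
        refine lt_of_le_of_lt (h3.trans hv2u) (lt_of_le_of_lt ?_ h.n7)
        have h4 : (x : ℝ) / u ≤ x := div_le_self hxr.le hu1
        have h5 : 16 * (C + 1) * ((x : ℝ) / u) ≤ 16 * (C + 1) * x :=
          mul_le_mul_of_nonneg_left h4 (by positivity)
        nlinarith [h.hC])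
      calc al W (v₁ + 1 + m) ^ 2 ≤ ((2 : ℝ) ^ k) ^ 2 := pow_le_pow_left₀ (al_nonneg W _) h2 2
        _ = 4 ^ k := by rw [← pow_mul, mul_comm, pow_mul]; norm_num
    refine (sum_le_sum h1).trans ?_
    rw [sum_const, card_range, nsmul_eq_mul, mul_comm]

end

end Pool.Agent.Lib.OC93
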