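import Pool.Agent.Lib.OC93.Fin1

set_option autoImplicit false

/-!
All blocks together: the finite form of the theorem.
-/

namespace Pool.Agent.Lib.OC93

open Finset Pool.Agent.Lib.MP_ba437d_nt

section

variable {C CB : ℝ} {x : ℕ} {N : ℤ} {P : Finset ℕ} {a : ℕ → ℤ} {Z y Q K θ η mR κ : ℝ}
    {r k I : ℕ} {G W : Finset ℕ}

/-- error for one block -/
noncomputable def Er (CB : ℝ) (x : ℕ) (Z y K : ℝ) (r k : ℕ) : ℝ :=
  (r + 2) * Z ^ (2 * r) * (x * Real.sqrt (8 * CB * K * 4 ^ k / y))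

theorem FD.blk (h : FD C CB x N P a Z y Q K θ η mR κ r k I G W) {σ : ℤ} (hσ : σ = 1 ∨ σ = -1)
    {u : ℝ} (hu1 : 1 ≤ u) {v₁ v₂ : ℕ}
    (hg : GI x N σ (1 + 1 / (16 * (C + 1))) (1 / 16) (16 * (C + 1)) u v₁ v₂)
    (G' : Finset ℕ) (hG' : G' ⊆ G) (hne : G'.Nonempty)
    (hq : ∀ q ∈ G', u ≤ (q : ℝ) ∧ (q : ℝ) ≤ (1 + 1 / (16 * (C + 1))) * u) :
    κ * (1 / 16 * x) * (∑ q ∈ G', 1 / (q : ℝ)) * (∑ w ∈ W, 1 / (w : ℝ)) - Er CB x Z y K r k ≤
      ∑ q ∈ G', ∑ w ∈ W, (((unc x a (fP P a N Q)).filter (fun n : ℕ =>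
        0 < ((n : ℤ) - N).natAbs ∧ q ∣ ((n : ℤ) - N).natAbs ∧
        w ∣ ((n : ℤ) - N).natAbs)).card : ℝ) := by
  classical
  have hy0 : 0 < y := by linarith [h.hy]
  have hy1 : 1 ≤ y := by linarith [h.hy]
  have hu0 : 0 < u := by linarith
  have hxr : (0 : ℝ) < x := by
    have := h.hx
    exact_mod_cast (by omega : 0 < x)
  have hC1 : 0 < C + 1 := by linarith [h.hC]
  have hCB0 := h.hCB.1
  have hK0 : 0 ≤ K := le_trans (sum_nonneg fun p _ => by positivity) h.hK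
  have hρ2 : 1 + 1 / (16 * (C + 1)) ≤ 2 := by
    have : 1 / (16 * (C + 1)) ≤ 1 := by
      rw [div_le_one (by positivity)]
      linarith [h.hC]
    linarith
  obtain ⟨q₀, hq₀⟩ := hne
  have huy : y ≤ 2 * u := by
    have h1 := (h.hG q₀ (hG' hq₀)).2.1
    have h2 := (hq q₀ hq₀).2
    nlinarith
  have huy2 : u ≤ y ^ 2 := ((hq q₀ hq₀).1).trans (h.hG q₀ (hG' hq₀)).2.2.1
  have hb := (h.bh hσ hu1 huy huy2 hg G' hG').main h.hCB
  have hy38 : y ^ 3 ≤ y ^ 8 := pow_le_pow_right₀ hy1 (by norm_num)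
  have hZy3 : Z ≤ y ^ 3 := by
    have : y ≤ y ^ 3 := by
      calc y = y ^ 1 := (pow_one y).symm
        _ ≤ y ^ 3 := pow_le_pow_right₀ hy1 (by norm_num)
    linarith [h.hyZ]
  rw [fP_eq P a N Z (y ^ 3) (y ^ 8) Q hZy3 hy38 h.n5] at hb
  set X : ℝ := ((v₂ - v₁ : ℕ) : ℝ) with hX
  have hX0 : 0 ≤ X := by positivity
  -- lower bound for the main term
  have hmain : κ * (1 / 16 * x) * (∑ q ∈ G', 1 / (q : ℝ)) * (∑ w ∈ W, 1 / (w : ℝ)) ≤
      (G'.card : ℝ) * (∑ w ∈ W, X / w) *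
      (∏ p ∈ fP₀ P Z, (1 - 1 / (p : ℝ)) - 2 * tau K r - θ - (16 * (C + 1) + 7) * η -
        mR * (∏ p ∈ fP₀ P Z, (1 - 1 / (p : ℝ)) + tau K r + θ)) := by
    have e1 : κ * (1 / 16 * x) * (∑ q ∈ G', 1 / (q : ℝ)) * (∑ w ∈ W, 1 / (w : ℝ)) =
        ((∑ q ∈ G', 1 / 16 * x / (q : ℝ)) * (∑ w ∈ W, 1 / (w : ℝ))) * κ := by
      have : ∑ q ∈ G', 1 / 16 * x / (q : ℝ) = (1 / 16 * x) * ∑ q ∈ G', 1 / (q : ℝ) := by
        rw [mul_sum]
        exact sum_congr rfl fun q _ => by ring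
      rw [this]
      ring
    have e2 : ∑ w ∈ W, X / w = X * ∑ w ∈ W, 1 / (w : ℝ) := by
      rw [mul_sum]
      exact sum_congr rfl fun w _ => by ring
    have hW0 : 0 ≤ ∑ w ∈ W, 1 / (w : ℝ) := sum_nonneg fun _ _ => by positivity
    have e3 : ∑ q ∈ G', 1 / 16 * (x : ℝ) / (q : ℝ) ≤ (G'.card : ℝ) * X := by
      rw [← nsmul_eq_mul, ← sum_const]
      refine sum_le_sum fun q hqm => ?_
      refine le_trans ?_ hg.low
      exact div_le_div_of_nonneg_left (by positivity) hu0 (hq q hqm).1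
    rw [e1, e2]
    refine mul_le_mul ?_ h.hκ h.hκ0 (by positivity)
    rw [← mul_assoc]
    exact mul_le_mul_of_nonneg_right e3 hW0
  -- the error
  have hDv : Dv CB (v₂ - v₁) ⌊Q⌋₊ G'.card K (4 ^ k * X) ≤
      x * Real.sqrt (8 * CB * K * 4 ^ k / y) := by
    have hQ0 : 0 ≤ Q := by
      have : 0 ≤ y ^ 8 := by positivity
      linarith [h.n5]
    have f1 : ((⌊Q⌋₊ : ℕ) : ℝ) ^ 2 ≤ x / u := by
      have g1 : ((⌊Q⌋₊ : ℕ) : ℝ) ≤ Q := Nat.floor_le hQ0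
      have g2 : ((⌊Q⌋₊ : ℕ) : ℝ) ^ 2 ≤ Q ^ 2 := pow_le_pow_left₀ (by positivity) g1 2
      refine g2.trans (h.n6.trans ?_)
      rw [div_le_div_iff₀ (by positivity) hu0]
      have g3 : 1 / 16 * (x : ℝ) * u ≤ x * u := by
        have : (0 : ℝ) ≤ x * u := by positivity
        linarith
      exact g3.trans (mul_le_mul_of_nonneg_left huy2 hxr.le)
    have f2 : (G'.card : ℝ) ≤ 2 * u := by
      have g1 : G' ⊆ Icc 1 ⌊2 * u⌋₊ := by
        intro q hqm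
        rw [mem_Icc]
        refine ⟨(h.hG q (hG' hqm)).1.one_le, Nat.le_floor ?_⟩
        exact ((hq q hqm).2).trans (mul_le_mul_of_nonneg_right hρ2 hu0.le)
      have g2 := card_le_card g1
      rw [Nat.card_Icc, Nat.add_sub_cancel] at g2
      calc (G'.card : ℝ) ≤ (⌊2 * u⌋₊ : ℝ) := by exact_mod_cast g2
        _ ≤ 2 * u := Nat.floor_le (by positivity)
    unfold Dv
    rw [← hX]
    have f3 : CB * (X + ((⌊Q⌋₊ : ℕ) : ℝ) ^ 2) * (K * G'.card) * (4 ^ k * X) ≤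
        x ^ 2 * (8 * CB * K * 4 ^ k / y) := by
      have g0 : X ≤ x / u := hg.up
      have g1 : X + ((⌊Q⌋₊ : ℕ) : ℝ) ^ 2 ≤ 2 * (x / u) := by linarith
      calc CB * (X + ((⌊Q⌋₊ : ℕ) : ℝ) ^ 2) * (K * G'.card) * (4 ^ k * X) ≤
          CB * (2 * (x / u)) * (K * (2 * u)) * (4 ^ k * (x / u)) := by gcongr
        _ = x ^ 2 * (4 * CB * K * 4 ^ k * (1 / u)) := by
            field_simp
            ring
        _ ≤ x ^ 2 * (4 * CB * K * 4 ^ k * (2 / y)) := by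
            have g2 : 1 / u ≤ 2 / y := by
              rw [div_le_div_iff₀ hu0 hy0]
              linarith
            gcongr
        _ = _ := by ring
    calc Real.sqrt (CB * (X + ((⌊Q⌋₊ : ℕ) : ℝ) ^ 2) * (K * G'.card) * (4 ^ k * X)) ≤
        Real.sqrt (x ^ 2 * (8 * CB * K * 4 ^ k / y)) := Real.sqrt_le_sqrt f3
      _ = _ := by rw [Real.sqrt_mul (by positivity), Real.sqrt_sq hxr.le]
  have hErr : (1 + (r + 1) * Z ^ (2 * r)) * Dv CB (v₂ - v₁) ⌊Q⌋₊ G'.card K (4 ^ k * X) ≤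
      Er CB x Z y K r k := by
    unfold Er
    have hZ1 : (1 : ℝ) ≤ Z ^ (2 * r) := one_le_pow₀ h.hZ
    have : 1 + ((r : ℝ) + 1) * Z ^ (2 * r) ≤ (r + 2) * Z ^ (2 * r) := by nlinarith
    exact mul_le_mul this hDv (Real.sqrt_nonneg _) (by positivity)
  -- upper bound
  have hup : SS N σ G' W v₁ v₂ (av a (fP P a N Q)) ≤
      ∑ q ∈ G', ∑ w ∈ W, (((unc x a (fP P a N Q)).filter (fun n : ℕ =>
        0 < ((n : ℤ) - N).natAbs ∧ q ∣ ((n : ℤ) - N).natAbs ∧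
        w ∣ ((n : ℤ) - N).natAbs)).card : ℝ) := by
    unfold SS
    refine sum_le_sum fun q hqm => sum_le_sum fun w hw => ?_
    obtain ⟨hw0, _⟩ := h.hW w hw
    apply mult_one x a (fP P a N Q) N σ hσ q w (v₁ / w) (v₂ / w - v₁ / w)
      (h.hG q (hG' hqm)).1.pos hw0
    intro m hm
    rw [mem_Icc] at hm
    apply hg.mem q (w * (v₁ / w + m)) (hq q hqm).1 (hq q hqm).2
    · have h2 : v₁ / w < v₁ / w + m := by omega
      rw [Nat.div_lt_iff_lt_mul hw0] at h2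
      rw [mul_comm]
      exact h2
    · have h3 : v₁ / w + m ≤ v₂ / w := by
        have : v₁ / w ≤ v₂ / w := Nat.div_le_div_right hg.lt.le
        omega
      rw [Nat.le_div_iff_mul_le hw0] at h3
      rw [mul_comm]
      exact h3
  linarith

/-- The finite form of the theorem. -/
theorem FD.fin (h : FD C CB x N P a Z y Q K θ η mR κ r k I G W) :
    κ * (1 / 16 * x) * (∑ q ∈ G, 1 / (q : ℝ)) * (∑ w ∈ W, 1 / (w : ℝ)) -
      I * Er CB x Z y K r k ≤ 4 ^ k * ((unc x a (fP P a N Q)).card : ℝ) := by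
  classical
  have hy0 : 0 < y := by linarith [h.hy]
  have hy1 : 1 ≤ y := by linarith [h.hy]
  have hxr : (0 : ℝ) < x := by
    have := h.hx
    exact_mod_cast (by omega : 0 < x)
  have hC1 : 0 < C + 1 := by linarith [h.hC]
  have hCB0 := h.hCB.1
  have hK0 : 0 ≤ K := le_trans (sum_nonneg fun p _ => by positivity) h.hK
  have hZ0 : 0 ≤ Z := by linarith [h.hZ]
  have hE0 : 0 ≤ Er CB x Z y K r k := by unfold Er; positivity
  obtain ⟨σ, hσ, hgeo⟩ := geo C h.hC x h.hx N h.hN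
  set ρ : ℝ := 1 + 1 / (16 * (C + 1)) with hρ
  have hρ1 : 1 < ρ := by
    rw [hρ]
    have : 0 < 1 / (16 * (C + 1)) := by positivity
    linarith
  have hρ0 : 0 < ρ := by linarith
  have hex : ∀ q : ℕ, ∃ i : ℕ, q ∈ G → ρ ^ i ≤ (q : ℝ) ∧ (q : ℝ) < ρ ^ (i + 1) := by
    intro q
    by_cases hq : q ∈ G
    · have hq1 : (1 : ℝ) ≤ q := by exact_mod_cast (h.hG q hq).1.one_le
      obtain ⟨i, hi⟩ := exists_nat_pow_near hq1 hρ1
      exact ⟨i, fun _ => hi⟩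
    · exact ⟨0, fun h => absurd h hq⟩
  choose idx hidx using hex
  have hqx : ∀ q ∈ G, (q : ℝ) ≤ x / 64 := fun q hq => ((h.hG q hq).2.2.1).trans h.n1
  have hblk : ∀ i ∈ G.image idx, κ * (1 / 16 * x) *
      (∑ q ∈ G.filter (fun q => idx q = i), 1 / (q : ℝ)) * (∑ w ∈ W, 1 / (w : ℝ)) -
      Er CB x Z y K r k ≤ ∑ q ∈ G.filter (fun q => idx q = i),
        ∑ w ∈ W, (((unc x a (fP P a N Q)).filter (fun n : ℕ =>
        0 < ((n : ℤ) - N).natAbs ∧ q ∣ ((n : ℤ) - N).natAbs ∧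
        w ∣ ((n : ℤ) - N).natAbs)).card : ℝ) := by
    intro i hi
    obtain ⟨q₀, hq₀, rfl⟩ := mem_image.1 hi
    have hu1 : 1 ≤ ρ ^ idx q₀ := one_le_pow₀ hρ1.le
    have hu2 : ρ ^ idx q₀ ≤ x / 64 := ((hidx q₀ hq₀).1).trans (hqx q₀ hq₀)
    obtain ⟨v₁, v₂, hg⟩ := hgeo (ρ ^ idx q₀) hu1 hu2
    refine h.blk hσ hu1 hg _ (filter_subset _ _) ⟨q₀, mem_filter.2 ⟨hq₀, rfl⟩⟩ ?_
    intro q hq
    rw [mem_filter] at hq
    have h1 := hidx q hq.1
    rw [hq.2] at h1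
    refine ⟨h1.1, ?_⟩
    have h2 := h1.2.le
    rw [pow_succ, mul_comm] at h2
    exact h2
  have hI : ((G.image idx).card : ℝ) ≤ I := by
    have h1 : G.image idx ⊆ range I := by
      intro i hi
      obtain ⟨q₀, hq₀, rfl⟩ := mem_image.1 hi
      rw [mem_range]
      apply h.n8
      have h2 := hqx q₀ hq₀
      have h3 := (hidx q₀ hq₀).1
      have h4 : (x : ℝ) / 64 ≤ x := by linarith
      linarith
    have h2 := card_le_card h1
    rw [card_range] at h2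
    exact_mod_cast h2
  have hsum := sum_le_sum hblk
  rw [sum_sub_distrib, sum_const, nsmul_eq_mul] at hsum
  have e1 : ∑ i ∈ G.image idx, κ * (1 / 16 * x) *
      (∑ q ∈ G.filter (fun q => idx q = i), 1 / (q : ℝ)) * (∑ w ∈ W, 1 / (w : ℝ)) =
      κ * (1 / 16 * x) * (∑ q ∈ G, 1 / (q : ℝ)) * (∑ w ∈ W, 1 / (w : ℝ)) := by
    rw [← sum_mul, ← mul_sum,
      sum_fiberwise_of_maps_to (fun q hq => mem_image_of_mem idx hq)]
  have e2 : ∑ i ∈ G.image idx, ∑ q ∈ G.filter (fun q => idx q = i),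
        ∑ w ∈ W, (((unc x a (fP P a N Q)).filter (fun n : ℕ =>
        0 < ((n : ℤ) - N).natAbs ∧ q ∣ ((n : ℤ) - N).natAbs ∧
        w ∣ ((n : ℤ) - N).natAbs)).card : ℝ) = ∑ q ∈ G,
        ∑ w ∈ W, (((unc x a (fP P a N Q)).filter (fun n : ℕ =>
        0 < ((n : ℤ) - N).natAbs ∧ q ∣ ((n : ℤ) - N).natAbs ∧
        w ∣ ((n : ℤ) - N).natAbs)).card : ℝ) :=
    sum_fiberwise_of_maps_to (fun q hq => mem_image_of_mem idx hq) _
  rw [e1, e2] at hsum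
  have hm := mult x a (fP P a N Q) N G W y k hy1
    (fun q hq => ⟨(h.hG q hq).1, (h.hG q hq).2.1.le⟩)
    (fun w hw => ⟨(h.hW w hw).1, (h.hW w hw).2.1⟩) (by
      intro n hn
      rw [mem_Icc] at hn
      refine lt_of_le_of_lt ?_ h.n7
      have e : (((((n : ℤ) - N).natAbs) : ℕ) : ℝ) = |(n : ℝ) - N| := by
        rw [Nat.cast_natAbs]
        push_cast
        rfl
      rw [e]
      have h1 : |(n : ℝ) - N| ≤ |(n : ℝ)| + |(N : ℝ)| := abs_sub _ _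
      have h2 : |(n : ℝ)| ≤ x := by
        rw [abs_of_nonneg (by positivity)]
        exact_mod_cast hn.2
      have h3 := h.hN
      nlinarith)
  have hIE : ((G.image idx).card : ℝ) * Er CB x Z y K r k ≤ I * Er CB x Z y K r k :=
    mul_le_mul_of_nonneg_right hI hE0
  linarith

end

end Pool.Agent.Lib.OC93
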