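import Mathlib

set_option autoImplicit false

/-!
Products of primes of a set `G`: harmonic sums over windows, and the number of such divisors.
-/

namespace Pool.Agent.Lib.OC93

open Finset

/-- the `G`-smooth numbers in `(z, z Y]` -/
noncomputable def win (G : Finset ℕ) (Y z : ℝ) : Finset ℕ := by
  classical
  exact (Icc 1 ⌊z * Y⌋₊).filter (fun w => z < (w : ℝ) ∧ w.primeFactors ⊆ G)

theorem mem_win {G : Finset ℕ} {Y z : ℝ} {w : ℕ} (hz : 0 ≤ z * Y) :
    w ∈ win G Y z ↔ 0 < w ∧ z < (w : ℝ) ∧ (w : ℝ) ≤ z * Y ∧ w.primeFactors ⊆ G := by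
  unfold win
  rw [mem_filter, mem_Icc, Nat.le_floor_iff hz]
  constructor
  · rintro ⟨⟨h1, h2⟩, h3, h4⟩; exact ⟨h1, h3, h2, h4⟩
  · rintro ⟨h1, h3, h2, h4⟩; exact ⟨⟨h1, h2⟩, h3, h4⟩

/-- harmonic sums over windows -/
theorem win_sum (G : Finset ℕ) (Y y : ℝ) (hG : ∀ q ∈ G, q.Prime ∧ y < (q : ℝ) ∧ (q : ℝ) ≤ Y)
    (hY : 1 ≤ Y) (hy : 1 ≤ y) (b : ℕ) (hb : 1 ≤ b) (B : ℝ)
    (hcard : ∀ w : ℕ, 0 < w → (w : ℝ) ≤ B → (G.filter (fun q => q ∣ w)).card ≤ b)
    (hg1 : ∑ q ∈ G, 1 / (q : ℝ) ≤ 1) (k : ℕ) :
    ∀ z : ℝ, 1 / Y ≤ z → z < y ^ k → z * Y ≤ B →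
      ((∑ q ∈ G, 1 / (q : ℝ)) / b) ^ k ≤ ∑ w ∈ win G Y z, 1 / (w : ℝ) := by
  classical
  have hY0 : 0 < Y := by linarith
  have hg0 : 0 ≤ ∑ q ∈ G, 1 / (q : ℝ) := sum_nonneg fun _ _ => by positivity
  have hb' : (1 : ℝ) ≤ b := by exact_mod_cast hb
  have hgb0 : 0 ≤ (∑ q ∈ G, 1 / (q : ℝ)) / b := div_nonneg hg0 (by positivity)
  have hgb : (∑ q ∈ G, 1 / (q : ℝ)) / b ≤ 1 := by
    rw [div_le_one (by positivity)]
    linarith
  -- the case z < 1
  have hsmall : ∀ z : ℝ, 1 / Y ≤ z → z < 1 → 1 ≤ ∑ w ∈ win G Y z, 1 / (w : ℝ) := by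
    intro z hz hz1
    have hz0 : 0 < z := lt_of_lt_of_le (by positivity) hz
    have hm : 1 ∈ win G Y z := by
      rw [mem_win (by positivity)]
      refine ⟨one_pos, by push_cast; exact hz1, ?_, by simp⟩
      push_cast
      rw [div_le_iff₀ hY0] at hz
      exact hz
    calc (1 : ℝ) = 1 / ((1 : ℕ) : ℝ) := by norm_num
      _ ≤ _ := single_le_sum (f := fun w : ℕ => 1 / (w : ℝ)) (fun _ _ => by positivity) hm
  induction k with
  | zero =>
    intro z hz hz1 _
    rw [pow_zero] at hz1 ⊢
    exact hsmall z hz hz1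
  | succ k ih =>
    intro z hz hzk hzB
    have hz0 : 0 < z := lt_of_lt_of_le (by positivity) hz
    rcases lt_or_ge z 1 with h1 | h1
    · exact (pow_le_one₀ hgb0 hgb).trans (hsmall z hz h1)
    · have hstep : ∀ q ∈ G, 1 / (q : ℝ) * ((∑ q ∈ G, 1 / (q : ℝ)) / b) ^ k ≤
          ∑ w ∈ (win G Y z).filter (fun w => q ∣ w), 1 / (w : ℝ) := by
        intro q hq
        obtain ⟨hqp, hq1, hq2⟩ := hG q hq
        have hq0 : (0 : ℝ) < q := by exact_mod_cast hqp.pos
        have h2 := ih (z / q) (by
          rw [div_le_div_iff₀ hY0 hq0]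
          nlinarith) (by
          rw [div_lt_iff₀ hq0]
          calc z < y ^ (k + 1) := hzk
            _ = y ^ k * y := pow_succ _ _
            _ ≤ y ^ k * q := mul_le_mul_of_nonneg_left hq1.le (by positivity)) (by
          refine le_trans ?_ hzB
          refine mul_le_mul_of_nonneg_right ?_ hY0.le
          exact div_le_self hz0.le (by exact_mod_cast hqp.one_le))
        calc 1 / (q : ℝ) * ((∑ q ∈ G, 1 / (q : ℝ)) / b) ^ k ≤
            1 / (q : ℝ) * ∑ w ∈ win G Y (z / q), 1 / (w : ℝ) :=
              mul_le_mul_of_nonneg_left h2 (by positivity)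
          _ = ∑ w ∈ (win G Y (z / q)).image (fun w => q * w), 1 / (w : ℝ) := by
              rw [sum_image, mul_sum]
              · refine sum_congr rfl fun w _ => ?_
                push_cast
                rw [one_div_mul_one_div]
              · intro w _ w' _ h
                exact Nat.eq_of_mul_eq_mul_left hqp.pos h
          _ ≤ _ := by
              refine sum_le_sum_of_subset_of_nonneg ?_ fun _ _ _ => by positivity
              intro w hw
              obtain ⟨w', hw', rfl⟩ := mem_image.1 hw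
              rw [mem_win (by positivity)] at hw'
              rw [mem_filter, mem_win (by positivity)]
              obtain ⟨h3, h4, h5, h6⟩ := hw'
              refine ⟨⟨Nat.mul_pos hqp.pos h3, ?_, ?_, ?_⟩, dvd_mul_right _ _⟩
              · push_cast
                rw [div_lt_iff₀ hq0] at h4
                linarith
              · push_cast
                have : z / q * Y = z * Y / q := by ring
                rw [this, le_div_iff₀ hq0] at h5
                linarith
              · rw [Nat.primeFactors_mul hqp.ne_zero h3.ne', hqp.primeFactors, union_subset_iff]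
                exact ⟨singleton_subset_iff.2 hq, h6⟩
      have hsum := sum_le_sum hstep
      rw [← sum_mul] at hsum
      have hswap : ∑ q ∈ G, ∑ w ∈ (win G Y z).filter (fun w => q ∣ w), 1 / (w : ℝ) ≤
          b * ∑ w ∈ win G Y z, 1 / (w : ℝ) := by
        simp only [sum_filter]
        rw [sum_comm, mul_sum]
        refine sum_le_sum fun w hw => ?_
        rw [mem_win (by positivity)] at hw
        rw [← sum_filter, sum_const, nsmul_eq_mul]
        refine mul_le_mul_of_nonneg_right ?_ (by positivity)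
        exact_mod_cast hcard w hw.1 (hw.2.2.1.trans hzB)
      have h3 := hsum.trans hswap
      rw [pow_succ, mul_comm _ ((∑ q ∈ G, 1 / (q : ℝ)) / b), div_mul_eq_mul_div,
        div_le_iff₀ (by positivity)]
      linarith

/-- the number of `G`-smooth divisors -/
theorem card_smooth (G : Finset ℕ) (y : ℝ) (hG : ∀ q ∈ G, q.Prime ∧ y ≤ (q : ℝ)) (hy : 1 ≤ y)
    (k : ℕ) : ∀ n : ℕ, 0 < n → (n : ℝ) < y ^ (k + 1) →
      (n.divisors.filter (fun w => w.primeFactors ⊆ G)).card ≤ 2 ^ k := by
  classical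
  have hnone : ∀ n : ℕ, (∀ q ∈ G, ¬ q ∣ n) →
      (n.divisors.filter (fun w => w.primeFactors ⊆ G)).card ≤ 1 := by
    intro n hn
    rw [card_le_one]
    have key : ∀ w ∈ n.divisors.filter (fun w => w.primeFactors ⊆ G), w = 1 := by
      intro w hw
      rw [mem_filter, Nat.mem_divisors] at hw
      by_contra h1
      obtain ⟨p, hp, hpw⟩ := Nat.exists_prime_and_dvd h1
      have hw0 : w ≠ 0 := fun h => hw.1.2 (by
        have := hw.1.1
        rw [h] at this
        exact Nat.eq_zero_of_zero_dvd this)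
      exact hn p (hw.2 (Nat.mem_primeFactors.2 ⟨hp, hpw, hw0⟩)) (hpw.trans hw.1.1)
    intro u hu v hv
    rw [key u hu, key v hv]
  induction k with
  | zero =>
    intro n hn hny
    rw [pow_zero]
    refine hnone n fun q hq hqn => ?_
    have h1 : (q : ℝ) ≤ n := by exact_mod_cast Nat.le_of_dvd hn hqn
    rw [zero_add, pow_one] at hny
    linarith [(hG q hq).2]
  | succ k ih =>
    intro n hn hny
    by_cases h : ∃ q ∈ G, q ∣ n
    · obtain ⟨q, hq, n', rfl⟩ := h
      obtain ⟨hqp, hqy⟩ := hG q hq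
      have hn' : 0 < n' := Nat.pos_of_ne_zero fun h => by
        rw [h, mul_zero] at hn
        exact lt_irrefl _ hn
      have hq0 : (0 : ℝ) < q := by exact_mod_cast hqp.pos
      have hy0 : 0 < y := by linarith
      have h1 : (n' : ℝ) < y ^ (k + 1) := by
        by_contra hcon
        push Not at hcon
        have : y ^ (k + 1 + 1) ≤ ((q * n' : ℕ) : ℝ) := by
          push_cast
          rw [pow_succ, mul_comm]
          exact mul_le_mul hqy hcon (by positivity) hq0.le
        linarith
      have h2 := ih n' hn' h1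
      have hsub : (q * n').divisors.filter (fun w => w.primeFactors ⊆ G) ⊆
          n'.divisors.filter (fun w => w.primeFactors ⊆ G) ∪
          (n'.divisors.filter (fun w => w.primeFactors ⊆ G)).image (fun w => q * w) := by
        intro w hw
        rw [mem_filter, Nat.mem_divisors] at hw
        obtain ⟨⟨hw1, hw2⟩, hw3⟩ := hw
        rw [mem_union]
        by_cases hqw : q ∣ w
        · right
          obtain ⟨w', rfl⟩ := hqw
          have hw' : w' ≠ 0 := fun h => by
            rw [h, mul_zero] at hw1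
            exact hw2 (Nat.eq_zero_of_zero_dvd hw1)
          refine mem_image.2 ⟨w', ?_, rfl⟩
          rw [mem_filter, Nat.mem_divisors]
          refine ⟨⟨Nat.dvd_of_mul_dvd_mul_left hqp.pos hw1, hn'.ne'⟩, ?_⟩
          refine subset_trans ?_ hw3
          exact Nat.primeFactors_mono (dvd_mul_left _ _) (Nat.mul_ne_zero hqp.ne_zero hw')
        · left
          rw [mem_filter, Nat.mem_divisors]
          refine ⟨⟨?_, hn'.ne'⟩, hw3⟩
          exact (((Nat.Prime.coprime_iff_not_dvd hqp).2 hqw).symm).dvd_of_dvd_mul_left hw1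
      calc ((q * n').divisors.filter (fun w => w.primeFactors ⊆ G)).card ≤ _ :=
            card_le_card hsub
        _ ≤ _ := card_union_le _ _
        _ ≤ 2 ^ k + 2 ^ k := Nat.add_le_add h2 (card_image_le.trans h2)
        _ = 2 ^ (k + 1) := by ring
    · push Not at h
      exact (hnone n h).trans (Nat.one_le_two_pow)

end Pool.Agent.Lib.OC93
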