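import Pool.Agent.Lib.OC93.Blk4
import Pool.Agent.Lib.OC93.Win

set_option autoImplicit false

/-!
Geometry: intervals of `v` such that `N + σ q v` lies in `[1, x]`; multiplicities.
-/

namespace Pool.Agent.Lib.OC93

open Finset

/-- the property of the interval `(v₁, v₂]` for the block `[u, ρ u]` -/
structure GI (x : ℕ) (N σ : ℤ) (ρ c₀ C₀ u : ℝ) (v₁ v₂ : ℕ) : Prop where
  lt : v₁ < v₂
  mem : ∀ q v : ℕ, u ≤ (q : ℝ) → (q : ℝ) ≤ ρ * u → v₁ < v → v ≤ v₂ →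
    1 ≤ pt N σ q v ∧ pt N σ q v ≤ x
  low : c₀ * x / u ≤ ((v₂ - v₁ : ℕ) : ℝ)
  up : ((v₂ - v₁ : ℕ) : ℝ) ≤ x / u
  loc : (v₂ : ℝ) ≤ C₀ * ((v₂ - v₁ : ℕ) : ℝ)

theorem geo_aux (C : ℝ) (hC : 1 ≤ C) (x : ℕ) (hx : 64 ≤ x) (N σ : ℤ) (Y₁ Y₂ : ℝ)
    (hY : Y₂ - Y₁ = x / 4) (hY1 : (x : ℝ) / 8 ≤ Y₁) (hY2 : Y₂ ≤ (C + 1) * x)
    (hmem : ∀ y : ℕ, Y₁ < (y : ℝ) → (y : ℝ) ≤ Y₂ → 1 ≤ N + σ * (y : ℤ) ∧ N + σ * (y : ℤ) ≤ x)
    (u : ℝ) (hu1 : 1 ≤ u) (hu2 : u ≤ x / 64) :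
    ∃ v₁ v₂ : ℕ, GI x N σ (1 + 1 / (16 * (C + 1))) (1 / 16) (16 * (C + 1)) u v₁ v₂ := by
  have hx0 : (64 : ℝ) ≤ x := by exact_mod_cast hx
  have hu0 : 0 < u := by linarith
  set ρ : ℝ := 1 + 1 / (16 * (C + 1)) with hρ
  have hC1 : 0 < C + 1 := by linarith
  have hρ1 : 1 < ρ := by
    rw [hρ]
    have : 0 < 1 / (16 * (C + 1)) := by positivity
    linarith
  have hρ2 : ρ ≤ 2 := by
    rw [hρ]
    have : 1 / (16 * (C + 1)) ≤ 1 := by
      rw [div_le_one (by positivity)]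
      linarith
    linarith
  have hρ0 : 0 < ρ := by linarith
  have hY10 : 0 < Y₁ := by linarith
  have hY20 : 0 < Y₂ := by linarith
  have hρY : (ρ - 1) * Y₁ ≤ x / 16 := by
    rw [hρ, add_sub_cancel_left, one_div_mul_eq_div, div_le_iff₀ (by positivity)]
    have : (x : ℝ) / 16 * (16 * (C + 1)) = (C + 1) * x := by ring
    rw [this]
    linarith
  refine ⟨⌈Y₁ / u⌉₊, ⌊Y₂ / (ρ * u)⌋₊, ?_⟩
  have h1 : Y₁ / u ≤ (⌈Y₁ / u⌉₊ : ℝ) := Nat.le_ceil _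
  have h2 : (⌈Y₁ / u⌉₊ : ℝ) < Y₁ / u + 1 := Nat.ceil_lt_add_one (by positivity)
  have h3 : (⌊Y₂ / (ρ * u)⌋₊ : ℝ) ≤ Y₂ / (ρ * u) := Nat.floor_le (by positivity)
  have h4 : Y₂ / (ρ * u) < (⌊Y₂ / (ρ * u)⌋₊ : ℝ) + 1 := Nat.lt_floor_add_one _
  have h5 : 3 / 32 * (x / u) ≤ Y₂ / (ρ * u) - Y₁ / u := by
    have e : Y₂ / (ρ * u) - Y₁ / u = (Y₂ - ρ * Y₁) / (ρ * u) := by
      field_simp
    rw [e, le_div_iff₀ (by positivity)]
    have e2 : 3 / 32 * ((x : ℝ) / u) * (ρ * u) = 3 / 32 * x * ρ := by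
      field_simp
    rw [e2]
    have e3 : Y₂ - ρ * Y₁ = x / 4 - (ρ - 1) * Y₁ := by
      linear_combination hY
    rw [e3]
    have : 3 / 32 * (x : ℝ) * ρ ≤ 3 / 32 * x * 2 := mul_le_mul_of_nonneg_left hρ2 (by positivity)
    linarith
  have h6 : 64 ≤ (x : ℝ) / u := by
    rw [le_div_iff₀ hu0]
    linarith
  have h7 : 1 / 16 * (x / u) ≤ (⌊Y₂ / (ρ * u)⌋₊ : ℝ) - (⌈Y₁ / u⌉₊ : ℝ) := by linarith
  have h8 : (⌈Y₁ / u⌉₊ : ℝ) < (⌊Y₂ / (ρ * u)⌋₊ : ℝ) := by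
    have : 0 < 1 / 16 * ((x : ℝ) / u) := by positivity
    linarith
  have h9 : ⌈Y₁ / u⌉₊ < ⌊Y₂ / (ρ * u)⌋₊ := by exact_mod_cast h8
  have h10 : ((⌊Y₂ / (ρ * u)⌋₊ - ⌈Y₁ / u⌉₊ : ℕ) : ℝ) =
      (⌊Y₂ / (ρ * u)⌋₊ : ℝ) - (⌈Y₁ / u⌉₊ : ℝ) := Nat.cast_sub h9.le
  constructor
  · exact h9
  · intro q v hq1 hq2 hv1 hv2
    have hv1' : (⌈Y₁ / u⌉₊ : ℝ) < v := by exact_mod_cast hv1
    have hv2' : (v : ℝ) ≤ (⌊Y₂ / (ρ * u)⌋₊ : ℝ) := by exact_mod_cast hv2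
    have hv0 : (0 : ℝ) < v := lt_of_le_of_lt (by positivity) hv1'
    have a1 : Y₁ < ((q * v : ℕ) : ℝ) := by
      have : Y₁ / u < v := lt_of_le_of_lt h1 hv1'
      rw [div_lt_iff₀ hu0] at this
      push_cast
      nlinarith
    have a2 : ((q * v : ℕ) : ℝ) ≤ Y₂ := by
      have : (v : ℝ) ≤ Y₂ / (ρ * u) := hv2'.trans h3
      rw [le_div_iff₀ (by positivity)] at this
      push_cast
      nlinarith
    have h := hmem (q * v) a1 a2
    have e : pt N σ q v = N + σ * ((q * v : ℕ) : ℤ) := by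
      unfold pt
      push_cast
      ring
    rw [e]
    exact h
  · rw [h10]
    calc 1 / 16 * (x : ℝ) / u = 1 / 16 * (x / u) := by ring
      _ ≤ _ := h7
  · rw [h10]
    have : Y₂ / (ρ * u) ≤ Y₂ / u := by
      apply div_le_div_of_nonneg_left hY20.le hu0
      nlinarith
    have e : Y₂ / u - Y₁ / u = x / u / 4 := by
      rw [← sub_div, hY]
      ring
    have : 0 ≤ (x : ℝ) / u := by positivity
    linarith
  · rw [h10]
    have : Y₂ / (ρ * u) ≤ (C + 1) * (x / u) := by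
      rw [div_le_iff₀ (by positivity)]
      have e : (C + 1) * ((x : ℝ) / u) * (ρ * u) = (C + 1) * x * ρ := by
        field_simp
      rw [e]
      have : (C + 1) * (x : ℝ) * 1 ≤ (C + 1) * x * ρ :=
        mul_le_mul_of_nonneg_left hρ1.le (by positivity)
      linarith
    calc (⌊Y₂ / (ρ * u)⌋₊ : ℝ) ≤ (C + 1) * (x / u) := h3.trans this
      _ = 16 * (C + 1) * (1 / 16 * (x / u)) := by ring
      _ ≤ _ := mul_le_mul_of_nonneg_left h7 (by positivity)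

theorem geo (C : ℝ) (hC : 1 ≤ C) (x : ℕ) (hx : 64 ≤ x) (N : ℤ) (hN : |(N : ℝ)| ≤ C * x) :
    ∃ σ : ℤ, (σ = 1 ∨ σ = -1) ∧ ∀ u : ℝ, 1 ≤ u → u ≤ x / 64 →
      ∃ v₁ v₂ : ℕ, GI x N σ (1 + 1 / (16 * (C + 1))) (1 / 16) (16 * (C + 1)) u v₁ v₂ := by
  have hx0 : (64 : ℝ) ≤ x := by exact_mod_cast hx
  obtain ⟨hN1, hN2⟩ := abs_le.1 hN
  rcases le_total (N : ℝ) (x / 2) with h | h
  · refine ⟨1, Or.inl rfl, fun u hu1 hu2 => geo_aux C hC x hx N 1 (3 * x / 4 - N) (x - N)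
      (by ring) (by linarith) (by linarith) ?_ u hu1 hu2⟩
    intro y hy1 hy2
    rw [one_mul]
    constructor
    · have : (0 : ℝ) < N + (y : ℝ) := by linarith
      have : (0 : ℤ) < N + (y : ℤ) := by exact_mod_cast this
      omega
    · have : (N : ℝ) + (y : ℝ) ≤ x := by linarith
      exact_mod_cast this
  · refine ⟨-1, Or.inr rfl, fun u hu1 hu2 => geo_aux C hC x hx N (-1) (N - 1 - x / 4) (N - 1)
      (by ring) (by linarith) (by linarith) ?_ u hu1 hu2⟩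
    intro y hy1 hy2
    constructor
    · have : (1 : ℝ) ≤ N + -1 * (y : ℝ) := by linarith
      exact_mod_cast this
    · have : (N : ℝ) + -1 * (y : ℝ) ≤ x := by linarith
      exact_mod_cast this

/-- the uncovered integers -/
def unc (x : ℕ) (a : ℕ → ℤ) (P : Finset ℕ) : Finset ℕ :=
  (Icc 1 x).filter (fun n : ℕ => ∀ p ∈ P, ¬ (n : ℤ) ≡ a p [ZMOD (p : ℤ)])

/-- for given `q, w` -/
theorem mult_one (x : ℕ) (a : ℕ → ℤ) (P : Finset ℕ) (N σ : ℤ) (hσ : σ = 1 ∨ σ = -1) (q w B M : ℕ)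
    (hq : 0 < q) (hw : 0 < w)
    (hmem : ∀ m ∈ Icc 1 M, 1 ≤ pt N σ q (w * (B + m)) ∧ pt N σ q (w * (B + m)) ≤ x) :
    ∑ m ∈ Icc 1 M, av a P (pt N σ q (w * (B + m))) ≤
      (((unc x a P).filter (fun n : ℕ => 0 < ((n : ℤ) - N).natAbs ∧ q ∣ ((n : ℤ) - N).natAbs ∧
        w ∣ ((n : ℤ) - N).natAbs)).card : ℝ) := by
  classical
  unfold av
  rw [sum_ite, sum_const_zero, add_zero, sum_const, nsmul_eq_mul, mul_one, Nat.cast_le]
  apply card_le_card_of_injOn (fun m => (pt N σ q (w * (B + m))).toNat)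
  · intro m hm
    rw [mem_coe, mem_filter] at hm
    obtain ⟨hm1, hm2⟩ := hm
    obtain ⟨h1, h2⟩ := hmem m hm1
    have e : (((pt N σ q (w * (B + m))).toNat : ℕ) : ℤ) = pt N σ q (w * (B + m)) :=
      Int.toNat_of_nonneg (by omega)
    rw [mem_coe, mem_filter]
    unfold unc
    rw [mem_filter, mem_Icc]
    have e2 : ((((pt N σ q (w * (B + m))).toNat : ℕ) : ℤ) - N).natAbs = q * (w * (B + m)) := by
      rw [e]
      unfold pt
      rw [add_sub_cancel_left, mul_assoc, Int.natAbs_mul]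
      have : σ.natAbs = 1 := by rcases hσ with h | h <;> rw [h] <;> rfl
      rw [this, one_mul]
      have : ((q : ℤ) * ((w * (B + m) : ℕ) : ℤ)) = ((q * (w * (B + m)) : ℕ) : ℤ) := by push_cast; ring
      rw [this, Int.natAbs_natCast]
    beta_reduce
    refine ⟨⟨⟨by omega, by omega⟩, ?_⟩, ?_, ?_, ?_⟩
    · intro p hp
      rw [e]
      exact hm2 p hp
    · rw [e2]
      exact Nat.mul_pos hq (Nat.mul_pos hw (Nat.add_pos_right _ (mem_Icc.1 hm1).1))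
    · rw [e2]; exact dvd_mul_right _ _
    · rw [e2]; exact ⟨q * (B + m), by ring⟩
  · intro m hm m' hm' h
    rw [mem_coe, mem_filter] at hm hm'
    have h1 := hmem m hm.1
    have h2 := hmem m' hm'.1
    have h3 : pt N σ q (w * (B + m)) = pt N σ q (w * (B + m')) := by
      have e : (((pt N σ q (w * (B + m))).toNat : ℕ) : ℤ) = pt N σ q (w * (B + m)) :=
        Int.toNat_of_nonneg (by omega)
      have e' : (((pt N σ q (w * (B + m'))).toNat : ℕ) : ℤ) = pt N σ q (w * (B + m')) :=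
        Int.toNat_of_nonneg (by omega)
      rw [← e, ← e']
      exact congrArg _ h
    unfold pt at h3
    have h4 : σ * (q : ℤ) * ((w * (B + m) : ℕ) : ℤ) = σ * (q : ℤ) * ((w * (B + m') : ℕ) : ℤ) :=
      add_left_cancel h3
    have hσ0 : σ ≠ 0 := by rcases hσ with h | h <;> rw [h] <;> norm_num
    have h5 : ((w * (B + m) : ℕ) : ℤ) = ((w * (B + m') : ℕ) : ℤ) :=
      mul_left_cancel₀ (mul_ne_zero hσ0 (by exact_mod_cast hq.ne')) h4
    have h6 : w * (B + m) = w * (B + m') := by exact_mod_cast h5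
    have h7 := Nat.eq_of_mul_eq_mul_left hw h6
    omega

/-- multiplicities -/
theorem mult (x : ℕ) (a : ℕ → ℤ) (P : Finset ℕ) (N : ℤ) (G W : Finset ℕ) (y : ℝ) (k : ℕ)
    (hy : 1 ≤ y) (hG : ∀ q ∈ G, q.Prime ∧ y ≤ (q : ℝ)) (hW : ∀ w ∈ W, 0 < w ∧ w.primeFactors ⊆ G)
    (hN : ∀ n ∈ Icc 1 x, (((((n : ℤ) - N).natAbs) : ℕ) : ℝ) < y ^ (k + 1)) :
    ∑ q ∈ G, ∑ w ∈ W, (((unc x a P).filter (fun n : ℕ => 0 < ((n : ℤ) - N).natAbs ∧
      q ∣ ((n : ℤ) - N).natAbs ∧ w ∣ ((n : ℤ) - N).natAbs)).card : ℝ) ≤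
      4 ^ k * ((unc x a P).card : ℝ) := by
  classical
  have h1 : ∀ q w, (((unc x a P).filter (fun n : ℕ => 0 < ((n : ℤ) - N).natAbs ∧
      q ∣ ((n : ℤ) - N).natAbs ∧ w ∣ ((n : ℤ) - N).natAbs)).card : ℝ) =
      ∑ n ∈ (unc x a P).filter (fun n : ℕ => 0 < ((n : ℤ) - N).natAbs),
        (if q ∣ ((n : ℤ) - N).natAbs then (1 : ℝ) else 0) *
        (if w ∣ ((n : ℤ) - N).natAbs then (1 : ℝ) else 0) := by
    intro q w
    rw [← filter_filter, card_filter]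
    push_cast
    refine sum_congr rfl fun n _ => ?_
    by_cases c1 : q ∣ ((n : ℤ) - N).natAbs
    · by_cases c2 : w ∣ ((n : ℤ) - N).natAbs
      · simp [c1, c2]
      · simp [c1, c2]
    · simp [c1]
  simp only [h1]
  have h2 : ∑ q ∈ G, ∑ w ∈ W, ∑ n ∈ (unc x a P).filter (fun n : ℕ => 0 < ((n : ℤ) - N).natAbs),
        (if q ∣ ((n : ℤ) - N).natAbs then (1 : ℝ) else 0) *
        (if w ∣ ((n : ℤ) - N).natAbs then (1 : ℝ) else 0) =
      ∑ n ∈ (unc x a P).filter (fun n : ℕ => 0 < ((n : ℤ) - N).natAbs),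
        (∑ q ∈ G, (if q ∣ ((n : ℤ) - N).natAbs then (1 : ℝ) else 0)) *
        ∑ w ∈ W, (if w ∣ ((n : ℤ) - N).natAbs then (1 : ℝ) else 0) := by
    have e1 : ∀ q ∈ G, ∑ w ∈ W, ∑ n ∈ (unc x a P).filter
        (fun n : ℕ => 0 < ((n : ℤ) - N).natAbs),
        (if q ∣ ((n : ℤ) - N).natAbs then (1 : ℝ) else 0) *
        (if w ∣ ((n : ℤ) - N).natAbs then (1 : ℝ) else 0) =
        ∑ n ∈ (unc x a P).filter (fun n : ℕ => 0 < ((n : ℤ) - N).natAbs),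
        (if q ∣ ((n : ℤ) - N).natAbs then (1 : ℝ) else 0) *
          ∑ w ∈ W, (if w ∣ ((n : ℤ) - N).natAbs then (1 : ℝ) else 0) := by
      intro q _
      rw [sum_comm]
      exact sum_congr rfl fun n _ => (mul_sum _ _ _).symm
    rw [sum_congr rfl e1, sum_comm]
    exact sum_congr rfl fun n _ => (sum_mul _ _ _).symm
  rw [h2]
  have h3 : ∀ n ∈ (unc x a P).filter (fun n : ℕ => 0 < ((n : ℤ) - N).natAbs),
      (∑ q ∈ G, (if q ∣ ((n : ℤ) - N).natAbs then (1 : ℝ) else 0)) *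
        ∑ w ∈ W, (if w ∣ ((n : ℤ) - N).natAbs then (1 : ℝ) else 0) ≤ 4 ^ k := by
    intro n hn
    rw [mem_filter] at hn
    have hn1 : n ∈ Icc 1 x := by
      have := hn.1
      unfold unc at this
      exact (mem_filter.1 this).1
    have h4 := card_smooth G y hG hy k _ hn.2 (hN n hn1)
    have h5 : ∑ q ∈ G, (if q ∣ ((n : ℤ) - N).natAbs then (1 : ℝ) else 0) ≤ 2 ^ k := by
      rw [sum_ite, sum_const_zero, add_zero, sum_const, nsmul_eq_mul, mul_one]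
      have : (G.filter (fun q => q ∣ ((n : ℤ) - N).natAbs)).card ≤ 2 ^ k := by
        refine le_trans (card_le_card ?_) h4
        intro q hq
        rw [mem_filter] at hq ⊢
        rw [Nat.mem_divisors, (hG q hq.1).1.primeFactors]
        exact ⟨⟨hq.2, hn.2.ne'⟩, singleton_subset_iff.2 hq.1⟩
      exact_mod_cast this
    have h6 : ∑ w ∈ W, (if w ∣ ((n : ℤ) - N).natAbs then (1 : ℝ) else 0) ≤ 2 ^ k := by
      rw [sum_ite, sum_const_zero, add_zero, sum_const, nsmul_eq_mul, mul_one]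
      have : (W.filter (fun w => w ∣ ((n : ℤ) - N).natAbs)).card ≤ 2 ^ k := by
        refine le_trans (card_le_card ?_) h4
        intro w hw
        rw [mem_filter] at hw ⊢
        rw [Nat.mem_divisors]
        exact ⟨⟨hw.2, hn.2.ne'⟩, (hW w hw.1).2⟩
      exact_mod_cast this
    have h7 : (0 : ℝ) ≤ ∑ w ∈ W, (if w ∣ ((n : ℤ) - N).natAbs then (1 : ℝ) else 0) :=
      sum_nonneg fun w _ => by split_ifs <;> norm_num
    calc _ ≤ (2 : ℝ) ^ k * 2 ^ k := mul_le_mul h5 h6 h7 (by positivity)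
      _ = 4 ^ k := by rw [← mul_pow]; norm_num
  refine (sum_le_sum h3).trans ?_
  rw [sum_const, nsmul_eq_mul, mul_comm]
  refine mul_le_mul_of_nonneg_left ?_ (by positivity)
  exact_mod_cast card_le_card (filter_subset _ _)

/-- the weights `al` are bounded -/
theorem al_le (G W : Finset ℕ) (y : ℝ) (k : ℕ) (hy : 1 ≤ y)
    (hG : ∀ q ∈ G, q.Prime ∧ y ≤ (q : ℝ)) (hW : ∀ w ∈ W, 0 < w ∧ w.primeFactors ⊆ G)
    (v : ℕ) (hv : 0 < v) (hvy : (v : ℝ) < y ^ (k + 1)) : al W v ≤ 2 ^ k := by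
  have h4 := card_smooth G y hG hy k _ hv hvy
  unfold al
  have : (W.filter (fun w => w ∣ v)).card ≤ 2 ^ k := by
    refine le_trans (card_le_card ?_) h4
    intro w hw
    rw [mem_filter] at hw ⊢
    rw [Nat.mem_divisors]
    exact ⟨⟨hw.2, hv.ne'⟩, (hW w hw.1).2⟩
  exact_mod_cast this

end Pool.Agent.Lib.OC93
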