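import Pool.Agent.Lib.OC93.Lsv

set_option autoImplicit false

/-!
The large sieve for sums of periodic functions of mean zero modulo primes.
-/

namespace Pool.Agent.Lib.OC93

open Finset
open scoped ComplexConjugate

/-- the point `exp (2 π i a / p)` -/
noncomputable def zt (p a : ℕ) : ℂ :=
  Complex.exp (Complex.I * ((2 * Real.pi * ((a : ℝ) / (p : ℝ)) : ℝ) : ℂ))

theorem zt_norm (p a : ℕ) : ‖zt p a‖ = 1 := by
  unfold zt
  rw [mul_comm]
  exact Complex.norm_exp_ofReal_mul_I _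

theorem zt_eq_pow (p a : ℕ) : zt p a = zt p 1 ^ a := by
  unfold zt
  rw [← Complex.exp_nat_mul]
  congr 1
  push_cast
  ring

theorem zt_one_prim (p : ℕ) (hp : 0 < p) : IsPrimitiveRoot (zt p 1) p := by
  have h := Complex.isPrimitiveRoot_exp p hp.ne'
  have e : zt p 1 = Complex.exp (2 * Real.pi * Complex.I / p) := by
    unfold zt
    congr 1
    push_cast
    ring
  rw [e]
  exact h

theorem zt_conj (p a : ℕ) (hp : 0 < p) : conj (zt p a) = zt p a ^ (p - 1) := by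
  have h1 : zt p a * conj (zt p a) = 1 := by
    rw [Complex.mul_conj, Complex.normSq_eq_norm_sq, zt_norm]
    simp
  have h2 : zt p a ^ p = 1 := by
    rw [zt_eq_pow, ← pow_mul, mul_comm, pow_mul, (zt_one_prim p hp).pow_eq_one, one_pow]
  have h3 : zt p a * zt p a ^ (p - 1) = 1 := by
    rw [← pow_succ', Nat.sub_add_cancel hp, h2]
  have h0 : zt p a ≠ 0 := by
    intro h
    rw [h, zero_mul] at h1
    exact zero_ne_one h1
  exact mul_left_cancel₀ h0 (h1.trans h3.symm)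

theorem orth (p : ℕ) (hp : 0 < p) (s t : ℕ) :
    ∑ a ∈ range p, zt p a ^ t * conj (zt p a) ^ s =
      if t % p = s % p then (p : ℂ) else 0 := by
  have h0 : ∀ a, zt p a ^ t * conj (zt p a) ^ s = (zt p 1 ^ (t + (p - 1) * s)) ^ a := by
    intro a
    rw [zt_conj p a hp, ← pow_mul, ← pow_add, zt_eq_pow p a, ← pow_mul, ← pow_mul, mul_comm a]
  rw [sum_congr rfl fun a _ => h0 a]
  have hprim := zt_one_prim p hp
  have key : (t % p = s % p) ↔ p ∣ t + (p - 1) * s := by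
    have e : t + (p - 1) * s + s = t + p * s := by
      obtain ⟨k, rfl⟩ : ∃ k, p = k + 1 := ⟨p - 1, by omega⟩
      simp only [Nat.add_sub_cancel]
      ring
    constructor
    · intro h
      have h2 : t ≡ s [MOD p] := h
      have h3 : t + (p - 1) * s + s ≡ 0 + s [MOD p] := by
        rw [e]
        have : t + p * s ≡ s + 0 [MOD p] := h2.add ((Nat.modEq_zero_iff_dvd.2 ⟨s, rfl⟩))
        rw [zero_add]
        rw [add_zero] at this
        exact this
      exact (Nat.modEq_zero_iff_dvd).1 (Nat.ModEq.add_right_cancel' s h3)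
    · intro h
      have h2 : t + (p - 1) * s ≡ 0 [MOD p] := Nat.modEq_zero_iff_dvd.2 h
      have h3 : t + (p - 1) * s + s ≡ 0 + s [MOD p] := h2.add_right s
      rw [e, zero_add] at h3
      have h4 : t + p * s ≡ t + 0 [MOD p] := Nat.ModEq.add_left t (Nat.modEq_zero_iff_dvd.2 ⟨s, rfl⟩)
      rw [add_zero] at h4
      exact h4.symm.trans h3
  by_cases hk : p ∣ t + (p - 1) * s
  · rw [if_pos (key.2 hk)]
    have : zt p 1 ^ (t + (p - 1) * s) = 1 := (hprim.pow_eq_one_iff_dvd _).2 hk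
    simp [this]
  · rw [if_neg (fun h => hk (key.1 h))]
    set w := zt p 1 ^ (t + (p - 1) * s) with hw
    have hw1 : w ≠ 1 := fun h => hk ((hprim.pow_eq_one_iff_dvd _).1 h)
    have hwp : w ^ p = 1 := by
      rw [hw, ← pow_mul, mul_comm, pow_mul, hprim.pow_eq_one, one_pow]
    rw [geom_sum_eq hw1, hwp, sub_self, zero_div]

/-- the Fourier coefficient -/
noncomputable def fc (g : ℕ → ℝ) (p a : ℕ) : ℂ :=
  ∑ s ∈ range p, (g s : ℂ) * conj (zt p a) ^ s

theorem fc_inv (g : ℕ → ℝ) (p : ℕ) (hp : 0 < p) (t : ℕ) :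
    ∑ a ∈ range p, fc g p a * zt p a ^ t = (p : ℂ) * (g (t % p) : ℂ) := by
  unfold fc
  have h1 : ∀ a, (∑ s ∈ range p, (g s : ℂ) * conj (zt p a) ^ s) * zt p a ^ t =
      ∑ s ∈ range p, (g s : ℂ) * (zt p a ^ t * conj (zt p a) ^ s) := by
    intro a
    rw [sum_mul]
    exact sum_congr rfl fun s _ => by ring
  rw [sum_congr rfl fun a _ => h1 a, sum_comm]
  simp only [← mul_sum, orth p hp]
  have hm : t % p ∈ range p := mem_range.2 (Nat.mod_lt _ hp)
  rw [sum_eq_single_of_mem (t % p) hm]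
  · rw [Nat.mod_mod, if_pos rfl]
    ring
  · intro s hs hne
    rw [Nat.mod_eq_of_lt (mem_range.1 hs), if_neg (fun h => hne h.symm), mul_zero]

theorem fc_sq (g : ℕ → ℝ) (p : ℕ) (hp : 0 < p) :
    ∑ a ∈ range p, ‖fc g p a‖ ^ 2 = (p : ℝ) * ∑ s ∈ range p, g s ^ 2 := by
  have h1 : ((∑ a ∈ range p, ‖fc g p a‖ ^ 2 : ℝ) : ℂ) =
      (((p : ℝ) * ∑ s ∈ range p, g s ^ 2 : ℝ) : ℂ) := by
    push_cast
    have h2 : ∀ a, ((‖fc g p a‖ : ℂ)) ^ 2 = ∑ t ∈ range p, (g t : ℂ) * (fc g p a * zt p a ^ t) := by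
      intro a
      have h3 : ((‖fc g p a‖ : ℂ)) ^ 2 = fc g p a * conj (fc g p a) := by
        rw [Complex.mul_conj, Complex.normSq_eq_norm_sq]
        push_cast
        rfl
      rw [h3]
      conv_lhs => rw [show conj (fc g p a) = ∑ t ∈ range p, (g t : ℂ) * zt p a ^ t by
        unfold fc
        rw [map_sum]
        refine sum_congr rfl fun t _ => ?_
        rw [map_mul, map_pow, Complex.conj_conj, Complex.conj_ofReal]]
      rw [mul_sum]
      exact sum_congr rfl fun t _ => by ring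
    rw [sum_congr rfl fun a _ => h2 a, sum_comm, mul_sum]
    refine sum_congr rfl fun t ht => ?_
    rw [← mul_sum, fc_inv g p hp t, Nat.mod_eq_of_lt (mem_range.1 ht)]
    ring
  exact_mod_cast h1

/-- lower bound for the sine -/
theorem sin_lower (u : ℝ) (c n : ℕ) (hn : 0 < n) (hc0 : 0 < c) (hcn : c < n)
    (hu : u = Real.pi * ((c : ℝ) / (n : ℝ))) : 2 / (n : ℝ) ≤ Real.sin u := by
  have hn' : (0 : ℝ) < n := by exact_mod_cast hn
  have hc1 : (1 : ℝ) ≤ c := by exact_mod_cast hc0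
  have hcn' : (c : ℝ) + 1 ≤ n := by exact_mod_cast hcn
  have hpi := Real.pi_pos
  have hfr : 1 / (n : ℝ) ≤ (c : ℝ) / n := div_le_div_of_nonneg_right hc1 hn'.le
  have hfr2 : (c : ℝ) / n + 1 / n ≤ 1 := by
    rw [← add_div, div_le_one hn']
    exact hcn'
  rcases le_total u (Real.pi / 2) with h | h
  · have h1 := Real.mul_le_sin (x := u) (by rw [hu]; positivity) h
    refine le_trans ?_ h1
    rw [hu, ← mul_assoc, div_mul_cancel₀ _ hpi.ne']
    rw [show (2 : ℝ) / n = 2 * (1 / n) by ring]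
    linarith
  · have h1 := Real.mul_le_sin (x := Real.pi - u) (by
      rw [hu]
      have : Real.pi * ((c : ℝ) / n) ≤ Real.pi * 1 :=
        mul_le_mul_of_nonneg_left (by linarith [show (0 : ℝ) ≤ 1 / n by positivity]) hpi.le
      linarith) (by linarith)
    rw [Real.sin_pi_sub] at h1
    refine le_trans ?_ h1
    rw [hu, mul_sub, ← mul_assoc, div_mul_cancel₀ _ hpi.ne']
    rw [show (2 : ℝ) / n = 2 * (1 / n) by ring]
    linarith

theorem zt_space (Q p q a b : ℕ) (hp : p.Prime) (hq : q.Prime) (hpQ : p ≤ Q) (hqQ : q ≤ Q)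
    (ha : 1 ≤ a) (hap : a < p) (hb : 1 ≤ b) (hbq : b < q) (hne : ¬ (p = q ∧ a = b)) :
    4 / (Q : ℝ) ^ 2 ≤ ‖zt p a - zt q b‖ := by
  have hp0 : (0 : ℝ) < p := by exact_mod_cast hp.pos
  have hq0 : (0 : ℝ) < q := by exact_mod_cast hq.pos
  have hQ0 : (0 : ℝ) < Q := lt_of_lt_of_le hp0 (by exact_mod_cast hpQ)
  have hne' : a * q ≠ b * p := by
    intro h
    have h1 : p ∣ a * q := ⟨b, by rw [h]; ring⟩
    rcases (hp.dvd_mul).1 h1 with h2 | h2
    · exact absurd (Nat.le_of_dvd (by omega) h2) (by omega)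
    · have h3 : p = q := (Nat.prime_dvd_prime_iff_eq hp hq).1 h2
      subst h3
      exact hne ⟨rfl, Nat.eq_of_mul_eq_mul_right hp.pos h⟩
  have e1 : ‖zt p a - zt q b‖ = 2 * |Real.sin (Real.pi * ((a : ℝ) / p - (b : ℝ) / q))| := by
    have e2 : zt p a = zt q b *
        Complex.exp (Complex.I * ((2 * Real.pi * ((a : ℝ) / p - (b : ℝ) / q) : ℝ) : ℂ)) := by
      unfold zt
      rw [← Complex.exp_add]
      congr 1
      push_cast
      ring
    have e3 : zt p a - zt q b = zt q b *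
        (Complex.exp (Complex.I * ((2 * Real.pi * ((a : ℝ) / p - (b : ℝ) / q) : ℝ) : ℂ)) - 1) := by
      rw [mul_sub, ← e2, mul_one]
    rw [e3, norm_mul, zt_norm, one_mul, Complex.norm_exp_I_mul_ofReal_sub_one, Real.norm_eq_abs,
      abs_mul, abs_two]
    congr 3
    ring
  have key : ∀ (p q a b : ℕ), 0 < p → 0 < q → p ≤ Q → q ≤ Q → a < p → b * p < a * q →
      4 / (Q : ℝ) ^ 2 ≤ 2 * |Real.sin (Real.pi * ((a : ℝ) / p - (b : ℝ) / q))| := by
    intro p q a b hp hq hpQ hqQ hap hlt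
    have hp0 : (0 : ℝ) < p := by exact_mod_cast hp
    have hq0 : (0 : ℝ) < q := by exact_mod_cast hq
    have h1 : Real.pi * ((a : ℝ) / p - (b : ℝ) / q) =
        Real.pi * (((a * q - b * p : ℕ) : ℝ) / ((p * q : ℕ) : ℝ)) := by
      rw [Nat.cast_sub hlt.le]
      push_cast
      congr 1
      field_simp
    have h2 := sin_lower _ (a * q - b * p) (p * q) (Nat.mul_pos hp hq) (by omega) (by
      have h3 : a * q < p * q := Nat.mul_lt_mul_of_pos_right hap hq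
      omega) h1
    have h3 : 4 / (Q : ℝ) ^ 2 ≤ 2 * (2 / ((p * q : ℕ) : ℝ)) := by
      have h4 : ((p * q : ℕ) : ℝ) ≤ (Q : ℝ) ^ 2 := by
        push_cast
        rw [sq]
        exact mul_le_mul (by exact_mod_cast hpQ) (by exact_mod_cast hqQ) hq0.le (by positivity)
      have h5 : (0 : ℝ) < ((p * q : ℕ) : ℝ) := by exact_mod_cast Nat.mul_pos hp hq
      calc 4 / (Q : ℝ) ^ 2 ≤ 4 / ((p * q : ℕ) : ℝ) := div_le_div_of_nonneg_left (by norm_num) h5 h4
        _ = _ := by ring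
    refine h3.trans ?_
    have := le_abs_self (Real.sin (Real.pi * ((a : ℝ) / p - (b : ℝ) / q)))
    linarith
  rw [e1]
  rcases Nat.lt_or_gt_of_ne hne' with h | h
  · have h1 := key q p b a hq.pos hp.pos hqQ hpQ hbq h
    have h2 : Real.pi * ((b : ℝ) / q - (a : ℝ) / p) = -(Real.pi * ((a : ℝ) / p - (b : ℝ) / q)) := by
      ring
    rw [h2, Real.sin_neg, abs_neg] at h1
    exact h1
  · exact key p q a b hp.pos hq.pos hpQ hqQ hap h

/-- The large sieve for periodic functions of mean zero. -/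
theorem lsz : ∃ C : ℝ, 0 < C ∧ ∀ (S : Finset ℕ) (Q X A : ℕ) (g : ℕ → ℕ → ℝ), 1 ≤ X →
    (∀ p ∈ S, p.Prime ∧ p ≤ Q) → (∀ p ∈ S, ∀ m, g p m = g p (m % p)) →
    (∀ p ∈ S, ∑ r ∈ range p, g p r = 0) →
    ∑ m ∈ range X, (∑ p ∈ S, g p (A + m)) ^ 2 ≤
      C * (X + (Q : ℝ) ^ 2) * ∑ p ∈ S, (1 / (p : ℝ)) * ∑ r ∈ range p, g p r ^ 2 := by
  obtain ⟨C, hC, h⟩ := lsv
  refine ⟨C, hC, fun S Q X A g hX hS hper hmean => ?_⟩
  rcases S.eq_empty_or_nonempty with rfl | hSne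
  · simp
  obtain ⟨p₀, hp₀⟩ := hSne
  have hQ0 : (0 : ℝ) < Q := by
    have h1 := (hS p₀ hp₀).1.pos
    have h2 := (hS p₀ hp₀).2
    exact_mod_cast lt_of_lt_of_le h1 h2
  set T : Finset ((_ : ℕ) × ℕ) := S.sigma fun p => Ico 1 p with hT
  have h1 := h ((_ : ℕ) × ℕ) T (fun i => zt i.1 i.2)
    (fun i => (1 / (i.1 : ℂ)) * fc (g i.1) i.1 i.2 * zt i.1 i.2 ^ A) (4 / (Q : ℝ) ^ 2) X
    (by positivity) hX (fun i _ => zt_norm _ _) (by
      rintro ⟨p, a⟩ hi ⟨q, b⟩ hj hne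
      rw [hT, mem_sigma] at hi hj
      simp only [mem_Ico] at hi hj
      refine zt_space Q p q a b (hS p hi.1).1 (hS q hj.1).1 (hS p hi.1).2 (hS q hj.1).2 hi.2.1
        hi.2.2 hj.2.1 hj.2.2 ?_
      rintro ⟨rfl, rfl⟩
      exact hne rfl)
  have hsum0 : ∀ p ∈ S, fc (g p) p 0 = 0 := by
    intro p hp
    have e : zt p 0 = 1 := by unfold zt; simp
    unfold fc
    rw [e]
    simp only [map_one, one_pow, mul_one]
    have := hmean p hp
    exact_mod_cast this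
  have hL : ∀ m, ((∑ p ∈ S, g p (A + m) : ℝ) : ℂ) =
      ∑ i ∈ T, ((1 / (i.1 : ℂ)) * fc (g i.1) i.1 i.2 * zt i.1 i.2 ^ A) * zt i.1 i.2 ^ m := by
    intro m
    rw [hT, sum_sigma]
    push_cast
    refine sum_congr rfl fun p hp => ?_
    have hp0 : 0 < p := (hS p hp).1.pos
    have hpc : (p : ℂ) ≠ 0 := by exact_mod_cast hp0.ne'
    have h2 : ∑ a ∈ Ico 1 p, (1 / (p : ℂ)) * fc (g p) p a * zt p a ^ A * zt p a ^ m =
        ∑ a ∈ range p, (1 / (p : ℂ)) * (fc (g p) p a * zt p a ^ (A + m)) := by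
      rw [← Nat.Ico_zero_eq_range, sum_eq_sum_Ico_succ_bot hp0, hsum0 p hp]
      simp only [zero_mul, mul_zero, zero_add]
      exact sum_congr rfl fun a _ => by rw [pow_add]; ring
    rw [h2, ← mul_sum, fc_inv (g p) p hp0, ← hper p hp]
    field_simp
  have hR : ∑ i ∈ T, ‖(1 / (i.1 : ℂ)) * fc (g i.1) i.1 i.2 * zt i.1 i.2 ^ A‖ ^ 2 ≤
      ∑ p ∈ S, (1 / (p : ℝ)) * ∑ r ∈ range p, g p r ^ 2 := by
    rw [hT, sum_sigma]
    refine sum_le_sum fun p hp => ?_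
    have hp0 : 0 < p := (hS p hp).1.pos
    have hpr : (0 : ℝ) < p := by exact_mod_cast hp0
    have h2 : ∀ a, ‖(1 / (p : ℂ)) * fc (g p) p a * zt p a ^ A‖ ^ 2 =
        (1 / (p : ℝ)) ^ 2 * ‖fc (g p) p a‖ ^ 2 := by
      intro a
      rw [norm_mul, norm_mul, norm_pow, zt_norm, one_pow, mul_one, mul_pow]
      congr 2
      rw [norm_div, norm_one, Complex.norm_natCast]
    simp only [h2]
    rw [← mul_sum]
    calc (1 / (p : ℝ)) ^ 2 * ∑ a ∈ Ico 1 p, ‖fc (g p) p a‖ ^ 2 ≤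
        (1 / (p : ℝ)) ^ 2 * ∑ a ∈ range p, ‖fc (g p) p a‖ ^ 2 := by
          refine mul_le_mul_of_nonneg_left ?_ (by positivity)
          refine sum_le_sum_of_subset_of_nonneg ?_ fun _ _ _ => sq_nonneg _
          intro a ha
          rw [mem_Ico] at ha
          exact mem_range.2 ha.2
      _ = _ := by
          rw [fc_sq (g p) p hp0]
          field_simp
  have hLHS : ∑ m ∈ range X, (∑ p ∈ S, g p (A + m)) ^ 2 =
      ∑ m ∈ range X, ‖∑ i ∈ T, ((1 / (i.1 : ℂ)) * fc (g i.1) i.1 i.2 * zt i.1 i.2 ^ A) *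
        zt i.1 i.2 ^ m‖ ^ 2 := by
    refine sum_congr rfl fun m _ => ?_
    rw [← hL m, Complex.norm_real, Real.norm_eq_abs, sq_abs]
  rw [hLHS]
  refine h1.trans ?_
  have hB : (X : ℝ) + 1 / (4 / (Q : ℝ) ^ 2) ≤ X + (Q : ℝ) ^ 2 := by
    have : 1 / (4 / (Q : ℝ) ^ 2) = (Q : ℝ) ^ 2 / 4 := by
      field_simp
    rw [this]
    nlinarith [sq_nonneg (Q : ℝ)]
  calc C * (X + 1 / (4 / (Q : ℝ) ^ 2)) *
        ∑ i ∈ T, ‖(1 / (i.1 : ℂ)) * fc (g i.1) i.1 i.2 * zt i.1 i.2 ^ A‖ ^ 2 ≤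
      C * (X + (Q : ℝ) ^ 2) *
        ∑ i ∈ T, ‖(1 / (i.1 : ℂ)) * fc (g i.1) i.1 i.2 * zt i.1 i.2 ^ A‖ ^ 2 := by
        refine mul_le_mul_of_nonneg_right (mul_le_mul_of_nonneg_left hB hC.le) ?_
        exact sum_nonneg fun _ _ => sq_nonneg _
    _ ≤ _ := mul_le_mul_of_nonneg_left hR (by positivity)

end Pool.Agent.Lib.OC93
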