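import Pool.Agent.Lib.OC93.Asy3

set_option autoImplicit false

/-!
The theorem: choice of the scale.
-/

namespace Pool.Agent.Lib.OC93

open Finset Filter Topology Pool.Agent.Lib.MP_ba437d_nt Pool.Agent.Lib.MP_973905_nt

theorem mem_fT {P : Finset ℕ} {s t : ℝ} {p : ℕ} :
    p ∈ fT P s t ↔ p ∈ P ∧ s < (p : ℝ) ∧ (p : ℝ) ≤ t := by
  classical
  rw [fT, mem_filter]

theorem mem_fR {P : Finset ℕ} {a : ℕ → ℤ} {N : ℤ} {s t : ℝ} {p : ℕ} :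
    p ∈ fR P a N s t ↔ p ∈ P ∧ (s < (p : ℝ) ∧ (p : ℝ) ≤ t) ∧ ¬ a p ≡ N [ZMOD (p : ℤ)] := by
  classical
  rw [fR, mem_filter]

theorem mass_scales (P : Finset ℕ) (b : ℕ → ℝ) (hb : Antitone b) (n : ℕ) :
    ∑ j ∈ range n, ∑ p ∈ fT P (b (j + 1)) (b j), 1 / (p : ℝ) ≤
      ∑ p ∈ fT P (b n) (b 0), 1 / (p : ℝ) := by
  classical
  induction n with
  | zero =>
    rw [range_zero, sum_empty]
    exact sum_nonneg fun _ _ => by positivity
  | succ n ih =>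
    rw [sum_range_succ]
    have hd : Disjoint (fT P (b n) (b 0)) (fT P (b (n + 1)) (b n)) := by
      rw [disjoint_left]
      intro p hp hp'
      rw [mem_fT] at hp hp'
      linarith [hp.2.1, hp'.2.2]
    have hs : fT P (b n) (b 0) ∪ fT P (b (n + 1)) (b n) ⊆ fT P (b (n + 1)) (b 0) := by
      intro p hp
      rw [mem_union] at hp
      rw [mem_fT]
      rcases hp with hp | hp
      · rw [mem_fT] at hp
        exact ⟨hp.1, lt_of_le_of_lt (hb (Nat.le_succ n)) hp.2.1, hp.2.2⟩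
      · rw [mem_fT] at hp
        exact ⟨hp.1, hp.2.1, hp.2.2.trans (hb (Nat.zero_le n))⟩
    calc _ ≤ ∑ p ∈ fT P (b n) (b 0), 1 / (p : ℝ) + ∑ p ∈ fT P (b (n + 1)) (b n), 1 / (p : ℝ) := by
          linarith
      _ = ∑ p ∈ fT P (b n) (b 0) ∪ fT P (b (n + 1)) (b n), 1 / (p : ℝ) := (sum_union hd).symm
      _ ≤ _ := sum_le_sum_of_subset_of_nonneg hs fun _ _ _ => by positivity

/-- pigeonhole for the scales -/
theorem exists_scale (P : Finset ℕ) (b : ℕ → ℝ) (hb : Antitone b) (K η : ℝ)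
    (hPK : ∑ p ∈ P, 1 / (p : ℝ) ≤ K) (J : ℕ) (hJ : K < J * η) :
    ∃ j ∈ range J, ∑ p ∈ fT P (b (j + 1)) (b j), 1 / (p : ℝ) ≤ η := by
  classical
  by_contra hcon
  push Not at hcon
  have h1 := mass_scales P b hb J
  have h2 : ∑ p ∈ fT P (b J) (b 0), 1 / (p : ℝ) ≤ K := by
    refine le_trans (sum_le_sum_of_subset_of_nonneg ?_ fun _ _ _ => by positivity) hPK
    intro p hp
    exact (mem_fT.1 hp).1
  have h3 : ∑ j ∈ range J, η ≤ ∑ j ∈ range J, ∑ p ∈ fT P (b (j + 1)) (b j), 1 / (p : ℝ) :=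
    sum_le_sum fun j hj => (hcon j hj).le
  rw [sum_const, card_range, nsmul_eq_mul] at h3
  linarith

/-- The theorem. -/
theorem main (K C δ : ℝ) (hδ : 0 < δ) :
    ∃ ε κ c : ℝ, 0 < ε ∧ 0 < κ ∧ 0 < c ∧ ∀ᶠ x : ℕ in atTop,
      ∀ (P : Finset ℕ) (a : ℕ → ℤ) (N : ℤ),
      (∀ p ∈ P, p.Prime ∧ p ≤ x) → ∑ p ∈ P, 1 / (p : ℝ) ≤ K → |(N : ℝ)| ≤ C * x →
      ∑ p ∈ fR P a N ((x : ℝ) ^ ε) ((x : ℝ) ^ (1 / 2 - δ)), 1 / (p : ℝ) ≤ 1 - δ →
      ∑ p ∈ fR P a N ((x : ℝ) ^ (1 / 2 - δ)) x, 1 / (p : ℝ) ≤ κ →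
      c * x ≤ ((unc x a P).card : ℝ) := by
  classical
  set K₁ : ℝ := max K 1 with hK₁
  set C₁ : ℝ := max C 1 with hC₁
  set δ₁ : ℝ := min (δ / 2) (1 / 8) with hδ₁
  have hδ₁0 : 0 < δ₁ := lt_min (by linarith) (by norm_num)
  have hδ₁2 : δ₁ ≤ δ / 2 := min_le_left _ _
  obtain ⟨θ, η, r, hp⟩ := exists_par K₁ C₁ δ₁ (le_max_right _ _) (le_max_right _ _) hδ₁0
    (min_le_right _ _)
  have hη := hp.eta_le
  obtain ⟨J, hJ⟩ := exists_nat_gt (K₁ / η)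
  rw [div_lt_iff₀ hη.1] at hJ
  set Λ : ℝ := 64 * (r + 1) with hΛ
  have hΛ1 : 1 ≤ Λ := by
    rw [hΛ]
    have : (0 : ℝ) ≤ r := by positivity
    linarith
  have hΛ0 : 0 < Λ := by linarith
  set s₀ : ℝ := δ₁ / (128 * (r + 1)) with hs₀
  have hs₀0 : 0 < s₀ := by positivity
  set s : ℕ → ℝ := fun j => s₀ / Λ ^ j with hs
  have hs0 : ∀ j, 0 < s j := fun j => by simp only [hs]; positivity
  have hsanti : Antitone s := by
    intro i j hij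
    simp only [hs]
    exact div_le_div_of_nonneg_left hs₀0.le (by positivity) (pow_le_pow_right₀ hΛ1 hij)
  have hsstep : ∀ j, 64 * ((r : ℝ) + 1) * s (j + 1) = s j := by
    intro j
    simp only [hs]
    rw [pow_succ, ← hΛ]
    field_simp
  have hsδ : ∀ j, 8 * ((r : ℝ) + 1) * s j ≤ δ₁ / 16 := by
    intro j
    have h1 : s j ≤ s 0 := hsanti (Nat.zero_le j)
    have h2 : s 0 = δ₁ / (128 * (r + 1)) := by simp only [hs, pow_zero, div_one, hs₀]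
    calc 8 * ((r : ℝ) + 1) * s j ≤ 8 * (r + 1) * (δ₁ / (128 * (r + 1))) := by
          rw [← h2]
          exact mul_le_mul_of_nonneg_left h1 (by positivity)
      _ = δ₁ / 16 := by
          field_simp
          norm_num
  have hcore := fun j : ℕ => core hp (s (j + 1)) (hs0 (j + 1)) (hsδ (j + 1))
  choose c κ hc0 hκ0 hev using hcore
  have hJ0 : 0 < J := by
    rcases Nat.eq_zero_or_pos J with h | h
    · rw [h, Nat.cast_zero, zero_mul] at hJ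
      have : (1 : ℝ) ≤ K₁ := le_max_right _ _
      linarith
    · exact h
  have hne : (range J).Nonempty := nonempty_range_iff.2 hJ0.ne'
  obtain ⟨jc, hjc, hjc'⟩ := exists_min_image (range J) c hne
  obtain ⟨jk, hjk, hjk'⟩ := exists_min_image (range J) κ hne
  refine ⟨s J, min (κ jk) (δ / 2), c jc, hs0 J, lt_min (hκ0 jk) (by linarith), hc0 jc, ?_⟩
  have hall : ∀ᶠ x : ℕ in atTop, ∀ j ∈ range J, ∀ (P : Finset ℕ) (a : ℕ → ℤ) (N : ℤ),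
      (∀ p ∈ P, p.Prime ∧ p ≤ x) → ∑ p ∈ P, 1 / (p : ℝ) ≤ K₁ → |(N : ℝ)| ≤ C₁ * x →
      ∑ p ∈ fT P ((x : ℝ) ^ s (j + 1)) ((x : ℝ) ^ (64 * (r + 1) * s (j + 1))), 1 / (p : ℝ) ≤ η →
      ∑ p ∈ fR P a N ((x : ℝ) ^ s (j + 1)) ((x : ℝ) ^ (1 / 2 - δ₁)), 1 / (p : ℝ) ≤ 1 - δ₁ →
      ∑ p ∈ fR P a N ((x : ℝ) ^ (1 / 2 - δ₁)) x, 1 / (p : ℝ) ≤ κ j →
      c j * x ≤ ((unc x a P).card : ℝ) := by
    rw [Filter.eventually_all_finset]
    intro j _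
    exact hev j
  filter_upwards [hall, eventually_ge_atTop 1] with x hx hx1 P a N hP hPK hN hR hR2
  have hxr1 : (1 : ℝ) ≤ x := by exact_mod_cast hx1
  have hPK' : ∑ p ∈ P, 1 / (p : ℝ) ≤ K₁ := hPK.trans (le_max_left _ _)
  have hN' : |(N : ℝ)| ≤ C₁ * x := hN.trans (mul_le_mul_of_nonneg_right (le_max_left _ _)
    (by positivity))
  obtain ⟨j, hj, hjm⟩ := exists_scale P (fun j => (x : ℝ) ^ s j) (by
    intro i j hij
    exact Real.rpow_le_rpow_of_exponent_le hxr1 (hsanti hij)) K₁ η hPK' J hJ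
  have hjJ : j + 1 ≤ J := by
    rw [mem_range] at hj
    omega
  have h1 := hx j hj P a N hP hPK' hN' (by rw [hsstep j]; exact hjm) (by
    have hsub : fR P a N ((x : ℝ) ^ s (j + 1)) ((x : ℝ) ^ (1 / 2 - δ₁)) ⊆
        fR P a N ((x : ℝ) ^ s J) ((x : ℝ) ^ (1 / 2 - δ)) ∪ fR P a N ((x : ℝ) ^ (1 / 2 - δ)) x := by
      intro p hpp
      rw [mem_fR] at hpp
      rw [mem_union, mem_fR, mem_fR]
      rcases le_or_gt (p : ℝ) ((x : ℝ) ^ (1 / 2 - δ)) with h | h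
      · left
        refine ⟨hpp.1, ⟨lt_of_le_of_lt ?_ hpp.2.1.1, h⟩, hpp.2.2⟩
        exact Real.rpow_le_rpow_of_exponent_le hxr1 (hsanti hjJ)
      · right
        exact ⟨hpp.1, ⟨h, by exact_mod_cast (hP p hpp.1).2⟩, hpp.2.2⟩
    have h2 := sum_le_sum_of_subset_of_nonneg hsub (f := fun p : ℕ => 1 / (p : ℝ))
      fun _ _ _ => by positivity
    have h3 : ∑ p ∈ fR P a N ((x : ℝ) ^ s J) ((x : ℝ) ^ (1 / 2 - δ)) ∪
        fR P a N ((x : ℝ) ^ (1 / 2 - δ)) x, 1 / (p : ℝ) ≤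
        ∑ p ∈ fR P a N ((x : ℝ) ^ s J) ((x : ℝ) ^ (1 / 2 - δ)), 1 / (p : ℝ) +
        ∑ p ∈ fR P a N ((x : ℝ) ^ (1 / 2 - δ)) x, 1 / (p : ℝ) := by
      have e := sum_union_inter (s₁ := fR P a N ((x : ℝ) ^ s J) ((x : ℝ) ^ (1 / 2 - δ)))
        (s₂ := fR P a N ((x : ℝ) ^ (1 / 2 - δ)) x) (f := fun p : ℕ => 1 / (p : ℝ))
      have e' : 0 ≤ ∑ p ∈ fR P a N ((x : ℝ) ^ s J) ((x : ℝ) ^ (1 / 2 - δ)) ∩
        fR P a N ((x : ℝ) ^ (1 / 2 - δ)) x, 1 / (p : ℝ) := sum_nonneg fun _ _ => by positivity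
      linarith
    have h4 : min (κ jk) (δ / 2) ≤ δ / 2 := min_le_right _ _
    linarith) (by
    have hsub : fR P a N ((x : ℝ) ^ (1 / 2 - δ₁)) x ⊆ fR P a N ((x : ℝ) ^ (1 / 2 - δ)) x := by
      intro p hpp
      rw [mem_fR] at hpp ⊢
      refine ⟨hpp.1, ⟨lt_of_le_of_lt ?_ hpp.2.1.1, hpp.2.1.2⟩, hpp.2.2⟩
      exact Real.rpow_le_rpow_of_exponent_le hxr1 (by linarith)
    have h2 := sum_le_sum_of_subset_of_nonneg hsub (f := fun p : ℕ => 1 / (p : ℝ))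
      fun _ _ _ => by positivity
    have h3 : min (κ jk) (δ / 2) ≤ κ jk := min_le_left _ _
    have h4 := hjk' j hj
    linarith)
  refine le_trans ?_ h1
  exact mul_le_mul_of_nonneg_right (hjc' j hj) (by positivity)

end Pool.Agent.Lib.OC93
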